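import Pool.Agent.Lib.MP_b525bf_ag_GU.VG
import Pool.Agent.Lib.MP_b525bf_ag_SG.CHD
import Pool.Agent.Lib.MP_b525bf_ag_SG.CNC
import Pool.Agent.Lib.MP_b525bf_ag_SG.GRP

/-!
# The invariant valuation of a valuation, for matrix groups with root group data
-/

set_option autoImplicit false

namespace Pool.Agent.MP_b525bf_ag_GU

open Pool.Agent.MP_b525bf_ag_SG Pool.Agent.MP_b525bf_ag_ES Pool.Agent.MP_b525bf_ag_E Pool.Agent.LU2
open scoped MatrixGroups

/-- For finitely many valuation rings `V i` and a rational action of complexity at most `c + 1` there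
are invariant valuation rings `W i` of defect at most `c`, such that for finitely many elements `f`
there is a `g` such that `f` is in `W i` if and only if `g f` is in `V i`. -/
theorem exists_inv_defLE {k : Type} [Field k] [Infinite k] {N n : ℕ} {R : Type} [Finite R]
    {P : RootDatum R (Fin n → ℤ) (Fin n → ℤ)} [P.IsReduced] {b : P.Base}
    {G : Subgroup (GL (Fin N) k)} (D : RootGroupData P b G) {A : Type} [CommRing A] [IsDomain A]
    [Algebra k A] (ρ : G →* (A ≃ₐ[k] A)) (hρ : IsRational ρ) (c : ℕ)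
    (hc : Algebra.trdeg k (invField (D.borel.map ρ)) ≤ c + 1) {m : ℕ}
    (V : Fin m → ValuationSubring (FractionRing A))
    (hV : ∀ i a, algebraMap A (FractionRing A) a ∈ V i) :
    ∃ W : Fin m → ValuationSubring (FractionRing A), (∀ i, IsInvariant ρ.range (W i)) ∧
      (∀ i, DefLE k (W i) c) ∧
      ∀ F : Finset (FractionRing A), ∃ g : G, ∀ i, ∀ f ∈ F, (f ∈ W i ↔ onK ρ g f ∈ V i) := by
  obtain ⟨D', hT, hφ, hB⟩ := exists_rg D
  have hR := rat_of D D' hT hφ ρ hρ
  obtain ⟨W, hW, h⟩ := exists_inv D' ρ hR (finite_span G ρ hρ) V hV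
  rw [← hB] at hc
  exact ⟨W, hW, fun i => defLE_of_complexity D' ρ hR c hc (W i) (hW i), h⟩

end Pool.Agent.MP_b525bf_ag_GU
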