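import Pool.Agent.Lib.LU2G.StepAux

/-!
# The defect of the restriction of a valuation along an embedding of fields
-/

set_option autoImplicit false

namespace Pool.Agent.MP_b525bf_ag_GU

open Pool.Agent.LU2 Pool.Agent.LU2G

theorem isEquiv_comap {K L : Type} [Field K] [Field L] (e : K →+* L) (V : ValuationSubring L) :
    (V.comap e).valuation.IsEquiv (V.valuation.comap e) := by
  refine Valuation.isEquiv_iff_val_le_one.2 fun {x} => ?_
  rw [ValuationSubring.valuation_le_one_iff, ValuationSubring.mem_comap, Valuation.comap_apply,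
    ValuationSubring.valuation_le_one_iff]

/-- The defect is invariant under isomorphisms. -/
theorem defLE_of_iso {k K L : Type} [Field k] [Field K] [Field L] [Algebra k K] [Algebra k L]
    (e : K ≃ₐ[k] L) (V : ValuationSubring L) {δ : ℕ} (h : DefLE k V δ) :
    DefLE k (V.comap (e : K →+* L)) δ := by
  obtain ⟨r, d, h1, ⟨x, hx⟩, z, hz⟩ := h
  have hval := isEquiv_comap (e : K →+* L) V
  refine ⟨r, d, ?_, ⟨fun i => e.symm (x i), fun i => ?_, fun n hn => ?_⟩,
    fun i => e.symm (z i), fun i => ?_, fun P hP => ?_⟩
  · rw [e.trdeg_eq]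
    exact h1
  · exact (map_ne_zero e.symm).2 (hx.1 i)
  · refine hx.2 n ?_
    rw [hval.eq_one_iff_eq_one, Valuation.comap_apply] at hn
    have h2 : (e : K →+* L) (n.prod fun i m => (e.symm (x i)) ^ m) = n.prod fun i m => x i ^ m := by
      rw [map_finsuppProd]
      refine Finsupp.prod_congr fun i _ => ?_
      rw [map_zpow₀]
      congr 1
      exact e.apply_symm_apply _
    rwa [h2] at hn
  · rw [ValuationSubring.mem_comap]
    have h2 : (e : K →+* L) (e.symm (z i)) = z i := e.apply_symm_apply _
    rw [h2]
    exact hz.1 i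
  · refine hz.2 P ?_
    rw [hval.lt_one_iff_lt_one, Valuation.comap_apply] at hP
    have h2 : (e : K →+* L) (MvPolynomial.aeval (fun i => e.symm (z i)) P) =
        MvPolynomial.aeval z P := by
      have h3 : (e : K →ₐ[k] L).comp (MvPolynomial.aeval (fun i => e.symm (z i))) =
          MvPolynomial.aeval z := by
        refine MvPolynomial.algHom_ext fun i => ?_
        rw [AlgHom.comp_apply, MvPolynomial.aeval_X, MvPolynomial.aeval_X]
        exact e.apply_symm_apply _
      exact congrArg (fun f : MvPolynomial (Fin d) k →ₐ[k] L => f P) h3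
    rwa [h2] at hP

/-- The defect does not grow when the valuation is restricted along an embedding. -/
theorem defLE_comap {k K L : Type} [Field k] [Field K] [Field L] [Algebra k K] [Algebra k L]
    (j : K →ₐ[k] L) (V : ValuationSubring L) (hk : ∀ c : k, algebraMap k L c ∈ V)
    (hfin : Algebra.trdeg k L < Cardinal.aleph0) {δ : ℕ} (h : DefLE k V δ) :
    DefLE k (V.comap (j : K →+* L)) δ := by
  have h1 := DefLE.comap' hk hfin j.fieldRange h
  let e : K ≃ₐ[k] j.fieldRange := AlgEquiv.ofInjectiveField j
  have h2 := defLE_of_iso e _ h1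
  have h3 : (V.comap (algebraMap j.fieldRange L)).comap (e : K →+* j.fieldRange) =
      V.comap (j : K →+* L) := by
    ext x
    rw [ValuationSubring.mem_comap, ValuationSubring.mem_comap, ValuationSubring.mem_comap]
    rfl
  rwa [h3] at h2

end Pool.Agent.MP_b525bf_ag_GU
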