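import Pool.Agent.Lib.LU2G.Defs

/-!
# Definitions used in the final statements
-/

open AlgebraicGeometry CategoryTheory

namespace Pool.Agent.MP_b525bf_ag_GU

/-- The morphism `Spec V ⟶ Spec A` for a valuation ring `V` that contains `A`. -/
noncomputable def toSpec {A : Type} [CommRing A] [IsDomain A]
    (V : ValuationSubring (FractionRing A)) (hV : ∀ a : A, algebraMap A (FractionRing A) a ∈ V) :
    Spec (CommRingCat.of V) ⟶ Spec (CommRingCat.of A) :=
  Spec.map (CommRingCat.ofHom ((algebraMap A (FractionRing A)).codRestrict V hV))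

end Pool.Agent.MP_b525bf_ag_GU
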