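import Pool.Agent.Lib.MP_b525bf_ag_GU.Defs
import Pool.Agent.Lib.LU2H.Final

/-!
# GU, row SCH: modifications smooth at the centres, for valuation rings near good ones
-/

set_option autoImplicit false

open AlgebraicGeometry CategoryTheory

namespace Pool.Agent.MP_b525bf_ag_GU

open Pool.Agent.LU2 Pool.Agent.LU2G Pool.Agent.LU2H
open Pool.Agent.LU1G (IsGen cpt incV SmoothAt factor_affine frac_affine lift_of_proper
  smoothAt_of_iso isIso_restrict_comp)

/-- The generic point of an affine scheme. -/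
theorem isGen_spec' (R : CommRingCat.{0}) [IsDomain R] :
    IsGen (K := FractionRing R) (X := Spec R)
      (Spec.map (CommRingCat.ofHom (algebraMap R (FractionRing R)))) := by
  have h1 : IsFractionRing R (Spec R).functionField :=
    functionField_isFractionRing_of_affine R
  let e : (Spec R).functionField ≃ₐ[R] FractionRing R :=
    IsLocalization.algEquiv (nonZeroDivisors R) _ _
  refine ⟨e.toRingEquiv, ?_⟩
  rw [Spec.fromSpecStalk_eq]
  refine Eq.trans ?_ (Spec.map_comp _ _)
  congr 1
  ext a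
  exact (e.commutes a).symm

/-- The generic point of an affine scheme. -/
theorem isGen_spec (A : Type) [CommRing A] [IsDomain A] :
    IsGen (K := FractionRing A) (X := Spec (CommRingCat.of A))
      (Spec.map (CommRingCat.ofHom (algebraMap A (FractionRing A)))) :=
  isGen_spec' (CommRingCat.of A)

/-- The centre of a valuation ring near `W`. -/
theorem lift_near {k K : Type} [Field k] [Field K] [Algebra k K] {Y : Scheme.{0}} [IsIntegral Y]
    (h : Y ⟶ Spec (CommRingCat.of k)) [LocallyOfFiniteType h] (η : Spec (CommRingCat.of K) ⟶ Y)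
    (hηh : η ≫ h = Spec.map (CommRingCat.ofHom (algebraMap k K))) (W : ValuationSubring K)
    (c : Spec (CommRingCat.of W) ⟶ Y) (hc : incV W ≫ c = η) (hsm : SmoothAt h (c (cpt W))) :
    ∃ F : Finset K, ∀ V : ValuationSubring K, (∀ f ∈ F, f ∈ W ↔ f ∈ V) →
      (∀ a : k, algebraMap k K a ∈ V) →
        ∃ c' : Spec (CommRingCat.of V) ⟶ Y, incV V ≫ c' = η ∧ SmoothAt h (c' (cpt V)) := by
  classical
  obtain ⟨U, hU, hUs⟩ := hsm
  obtain ⟨U', hU', hcU', hU'U⟩ := exists_isAffineOpen_mem_and_subset hU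
  obtain ⟨φW, hφW⟩ := factor_affine U' hU' c hcU'
  let φK : Γ(Y, U') →+* K := (algebraMap W K).comp φW
  have hφK : Spec.map (CommRingCat.ofHom φK) ≫ hU'.fromSpec = η := by
    rw [← hc, ← hφW, ← Category.assoc, ← Spec.map_comp]
    rfl
  let φk : k →+* Γ(Y, U') := (Spec.preimage (hU'.fromSpec ≫ h)).hom
  have hφk : Spec.map (CommRingCat.ofHom φk) = hU'.fromSpec ≫ h := by
    rw [CommRingCat.ofHom_hom, Spec.map_preimage]
  have hkK : ∀ a : k, φK (φk a) = algebraMap k K a := by
    have h1 : Spec.map (CommRingCat.ofHom (algebraMap k K)) =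
        Spec.map (CommRingCat.ofHom (φK.comp φk)) := by
      rw [← hηh, ← hφK, Category.assoc, ← hφk, ← Spec.map_comp]
      rfl
    have h2 : algebraMap k K = φK.comp φk :=
      congrArg CommRingCat.Hom.hom (Spec.map_injective h1)
    intro a
    rw [h2]
    rfl
  let _ : Algebra k Γ(Y, U') := φk.toAlgebra
  have hft : Algebra.FiniteType k Γ(Y, U') := by
    have h1 : LocallyOfFiniteType (Spec.map (CommRingCat.ofHom φk)) := by
      rw [hφk]
      infer_instance
    exact (HasRingHomProperty.Spec_iff (P := @LocallyOfFiniteType)).mp h1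
  obtain ⟨S, hS⟩ := hft.out
  refine ⟨S.image φK, fun V hV hk => ?_⟩
  have hmem : ∀ x : Γ(Y, U'), φK x ∈ V := by
    intro x
    have hx : x ∈ Algebra.adjoin k (S : Set Γ(Y, U')) := by
      rw [hS]
      exact Algebra.mem_top
    refine Algebra.adjoin_induction (p := fun x _ => φK x ∈ V) ?_ ?_ ?_ ?_ hx
    · intro s hs
      exact (hV _ (Finset.mem_image_of_mem _ hs)).1 (φW s).2
    · intro a
      have h1 : φK (algebraMap k Γ(Y, U') a) = algebraMap k K a := hkK a
      rw [h1]
      exact hk a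
    · intro x y _ _ hx hy
      rw [map_add]
      exact V.add_mem _ _ hx hy
    · intro x y _ _ hx hy
      rw [map_mul]
      exact V.mul_mem _ _ hx hy
  let φV : Γ(Y, U') →+* V := φK.codRestrict V hmem
  refine ⟨Spec.map (CommRingCat.ofHom φV) ≫ hU'.fromSpec, ?_, U, ?_, hUs⟩
  · rw [← hφK, ← Category.assoc, ← Spec.map_comp]
    rfl
  · refine hU'U ?_
    have h1 : (Spec.map (CommRingCat.ofHom φV) ≫ hU'.fromSpec) (cpt V) ∈
        Set.range hU'.fromSpec := ⟨Spec.map (CommRingCat.ofHom φV) (cpt V), rfl⟩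
    rw [hU'.range_fromSpec] at h1
    exact h1

/-- The theorem for valuation rings that can be moved near good ones. -/
theorem exists_modification_scheme (k K : Type) [Field k] [PerfectField k] [Field K] [Algebra k K]
    (X : Scheme.{0}) [IsIntegral X] (f : X ⟶ Spec (CommRingCat.of k)) [LocallyOfFiniteType f]
    [IsSeparated f] (η : Spec (CommRingCat.of K) ⟶ X) (hη : IsGen η)
    (hηf : η ≫ f = Spec.map (CommRingCat.ofHom (algebraMap k K))) (m : ℕ)
    (W V : Fin m → ValuationSubring K)
    (cW : ∀ i, Spec (CommRingCat.of (W i)) ⟶ X) (hcW : ∀ i, incV (W i) ≫ cW i = η)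
    (cV : ∀ i, Spec (CommRingCat.of (V i)) ⟶ X) (hcV : ∀ i, incV (V i) ≫ cV i = η)
    (hgood : ∀ i, AllGood k (W i))
    (hg : ∀ F : Finset K, ∃ (s : K ≃+* K) (a : X ⟶ X), IsIso a ∧ a ≫ f = f ∧
      η ≫ a = Spec.map (CommRingCat.ofHom (s : K →+* K)) ≫ η ∧
      ∀ i, ∀ z ∈ F, (z ∈ W i ↔ s z ∈ V i)) :
    ∃ (Y : Scheme.{0}) (π : Y ⟶ X), IsIntegral Y ∧ IsProper π ∧
      (∀ U : X.Opens, (∀ x ∈ U, SmoothAt f x) → IsIso (π ∣_ U)) ∧
      ∀ i, ∃ c : Spec (CommRingCat.of (V i)) ⟶ Y, c ≫ π = cV i ∧
        SmoothAt (π ≫ f) (c (cpt (V i))) := by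
  classical
  obtain ⟨Y, π, hY, hπ, hiso, hc⟩ := all_steps k K m X f η hη hηf W hgood cW hcW
  choose c hcπ hcs using hc
  obtain ⟨W₀, hW₀, hW₀s⟩ := smoothAt_generic k X f
  have hisoW₀ : IsIso (π ∣_ W₀) := hiso W₀ fun _ _ _ _ hm => ⟨W₀, hm, hW₀s⟩
  obtain ⟨η₁, hη₁, hη₁g⟩ := IsGen.lift π W₀ hW₀ hisoW₀ η hη
  have hη₁f : η₁ ≫ π ≫ f = Spec.map (CommRingCat.ofHom (algebraMap k K)) := by
    rw [← Category.assoc, hη₁, hηf]
  have hcη₁ : ∀ i, incV (W i) ≫ c i = η₁ := by
    intro i
    refine (gen_unique π W₀ hW₀ hisoW₀ _ _ (by rw [hη₁]; exact hη) ?_).symm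
    rw [hη₁, Category.assoc, hcπ, hcW]
  choose F hF using fun i => lift_near (π ≫ f) η₁ hη₁f (W i) (c i) (hcη₁ i) (hcs i)
  obtain ⟨s, a, ha, haf, hηa, hs⟩ := hg (Finset.univ.biUnion F)
  have hsk : ∀ z : k, s (algebraMap k K z) = algebraMap k K z := by
    have h1 : Spec.map (CommRingCat.ofHom ((s : K →+* K).comp (algebraMap k K))) =
        Spec.map (CommRingCat.ofHom (algebraMap k K)) := by
      rw [CommRingCat.ofHom_comp, Spec.map_comp, ← hηf, ← Category.assoc, ← hηa, Category.assoc,
        haf]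
    have h2 : (s : K →+* K).comp (algebraMap k K) = algebraMap k K :=
      congrArg CommRingCat.Hom.hom (Spec.map_injective h1)
    exact fun z => RingHom.congr_fun h2 z
  let V' : Fin m → ValuationSubring K := fun i => (V i).comap (s : K →+* K)
  have hV'k : ∀ i, ∀ z : k, algebraMap k K z ∈ V' i := by
    intro i z
    rw [ValuationSubring.mem_comap]
    have h1 : (s : K →+* K) (algebraMap k K z) = algebraMap k K z := hsk z
    rw [h1]
    exact const_mem f η hηf (V i) (cV i) (hcV i) z
  choose d hd hds using fun i => hF i (V' i) (fun z hz =>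
    hs i z (Finset.mem_biUnion.2 ⟨i, Finset.mem_univ _, hz⟩)) (hV'k i)
  -- the isomorphism of the valuation rings
  let τ : ∀ i, V' i →+* V i := fun i =>
    ((s : K →+* K).comp (algebraMap (V' i) K)).codRestrict (V i) (fun x => x.2)
  have hτ : ∀ i, Spec.map (CommRingCat.ofHom (τ i)) (cpt (V i)) = cpt (V' i) := by
    intro i
    have h1 : IsLocalHom (τ i) := by
      refine ⟨fun x hx => ?_⟩
      obtain ⟨y, hy⟩ := hx.exists_right_inv
      have h2 : s (x : K) * (y : K) = 1 := congrArg (fun z : V i => (z : K)) hy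
      have h3 : s (s.symm (y : K)) ∈ V i := by
        rw [RingEquiv.apply_symm_apply]
        exact y.2
      refine IsUnit.of_mul_eq_one ⟨s.symm (y : K), h3⟩ (Subtype.ext ?_)
      apply s.injective
      change s ((x : K) * s.symm (y : K)) = s 1
      rw [map_mul, RingEquiv.apply_symm_apply, h2, map_one]
    exact IsLocalRing.comap_closedPoint (τ i)
  -- the automorphism
  have haf' : inv a ≫ f = f := by
    rw [IsIso.inv_comp_eq, haf]
  refine ⟨Y, π ≫ inv a, hY, inferInstance, fun U hU => ?_, fun i => ?_⟩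
  · refine isIso_restrict_comp π (inv a) U inferInstance (hiso _ fun i V' h hne hmem => ?_)
    have h1 := smoothAt_of_iso (inv a) f _ ⊤ inferInstance trivial (hU _ hmem)
    rwa [haf'] at h1
  · refine ⟨Spec.map (CommRingCat.ofHom (τ i)) ≫ d i, ?_, ?_⟩
    · have h1 : Spec.map (CommRingCat.ofHom (τ i)) ≫ d i ≫ π = cV i ≫ a := by
        have h2 : incV (V i) ≫ Spec.map (CommRingCat.ofHom (τ i)) =
            Spec.map (CommRingCat.ofHom (s : K →+* K)) ≫ incV (V' i) := by
          rw [← Spec.map_comp, ← Spec.map_comp]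
          rfl
        have h3 : incV (V i) ≫ Spec.map (CommRingCat.ofHom (τ i)) ≫ d i ≫ π =
            incV (V i) ≫ cV i ≫ a := by
          rw [← Category.assoc, h2, Category.assoc, ← Category.assoc (incV (V' i)), hd, hη₁, ← hηa,
            ← Category.assoc, hcV]
        refine lift_unique f (V i) _ _ ?_ h3
        have h4 : ∀ c₁ c₂ : Spec (CommRingCat.of (V i)) ⟶ Spec (CommRingCat.of k),
            incV (V i) ≫ c₁ = incV (V i) ≫ c₂ → c₁ = c₂ := by
          intro c₁ c₂ h
          obtain ⟨φ₁, rfl⟩ := Spec.map_surjective c₁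
          obtain ⟨φ₂, rfl⟩ := Spec.map_surjective c₂
          rw [← Spec.map_comp, ← Spec.map_comp] at h
          have h5 := Spec.map_injective h
          congr 1
          ext z
          exact RingHom.congr_fun (congrArg CommRingCat.Hom.hom h5) z
        refine h4 _ _ ?_
        exact (Category.assoc _ _ _).symm.trans
          ((congrArg (fun t => t ≫ f) h3).trans (Category.assoc _ _ _))
      rw [← Category.assoc, Category.assoc (Spec.map _), h1, Category.assoc, IsIso.hom_inv_id,
        Category.comp_id]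
    · have h5 : (π ≫ inv a) ≫ f = π ≫ f := by
        rw [Category.assoc, haf']
      rw [h5]
      have h1 : (Spec.map (CommRingCat.ofHom (τ i)) ≫ d i) (cpt (V i)) = d i (cpt (V' i)) := by
        rw [← hτ i]
        rfl
      rw [h1]
      exact hds i

/-- The theorem for affine schemes. -/
theorem exists_modification (k : Type) [Field k] [PerfectField k] (A : Type) [CommRing A]
    [IsDomain A] [Algebra k A] [Algebra.FiniteType k A] (m : ℕ)
    (W V : Fin m → ValuationSubring (FractionRing A))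
    (hW : ∀ i, ∀ a : A, algebraMap A (FractionRing A) a ∈ W i)
    (hV : ∀ i, ∀ a : A, algebraMap A (FractionRing A) a ∈ V i)
    (hgood : ∀ i, AllGood k (W i))
    (hg : ∀ F : Finset (FractionRing A), ∃ (σ : A ≃ₐ[k] A)
      (s : FractionRing A ≃ₐ[k] FractionRing A),
      (∀ a : A, s (algebraMap A (FractionRing A) a) = algebraMap A (FractionRing A) (σ a)) ∧
        ∀ i, ∀ f ∈ F, (f ∈ W i ↔ s f ∈ V i)) :
    ∃ (Y : Scheme.{0}) (π : Y ⟶ Spec (CommRingCat.of A)), IsIntegral Y ∧ IsProper π ∧
      (∀ U : (Spec (CommRingCat.of A)).Opens,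
        (∀ x ∈ U, IsSmoothAt (Spec.map (CommRingCat.ofHom (algebraMap k A))) x) →
          IsIso (π ∣_ U)) ∧
      ∀ i, ∃ c : Spec (CommRingCat.of (V i)) ⟶ Y, c ≫ π = toSpec (V i) (hV i) ∧
        IsSmoothAt (π ≫ Spec.map (CommRingCat.ofHom (algebraMap k A)))
          (c (IsLocalRing.closedPoint (V i))) := by
  have hflf : LocallyOfFiniteType (Spec.map (CommRingCat.ofHom (algebraMap k A))) :=
    (HasRingHomProperty.Spec_iff (P := @LocallyOfFiniteType)).2
      ((RingHom.finiteType_algebraMap).2 inferInstance)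
  have hηf : Spec.map (CommRingCat.ofHom (algebraMap A (FractionRing A))) ≫
      Spec.map (CommRingCat.ofHom (algebraMap k A)) =
        Spec.map (CommRingCat.ofHom (algebraMap k (FractionRing A))) := by
    rw [← Spec.map_comp, ← CommRingCat.ofHom_comp,
      ← IsScalarTower.algebraMap_eq k A (FractionRing A)]
  have hcη : ∀ (V' : ValuationSubring (FractionRing A))
      (hV' : ∀ a : A, algebraMap A (FractionRing A) a ∈ V'), incV V' ≫ toSpec V' hV' =
        Spec.map (CommRingCat.ofHom (algebraMap A (FractionRing A))) := by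
    intro V' hV'
    rw [toSpec, ← Spec.map_comp]
    rfl
  refine exists_modification_scheme k (FractionRing A) (Spec (CommRingCat.of A))
    (Spec.map (CommRingCat.ofHom (algebraMap k A))) _ (isGen_spec A) hηf m W V
    (fun i => toSpec (W i) (hW i)) (fun i => hcη _ _) (fun i => toSpec (V i) (hV i))
    (fun i => hcη _ _) hgood (fun F => ?_)
  obtain ⟨σ, s, hs, hF⟩ := hg F
  refine ⟨s.toRingEquiv, Spec.map (CommRingCat.ofHom (σ : A →+* A)), ?_, ?_, ?_, hF⟩
  · refine ⟨Spec.map (CommRingCat.ofHom (σ.symm : A →+* A)), ?_, ?_⟩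
    · rw [← Spec.map_comp, ← Spec.map_id]
      congr 1
      ext x
      exact σ.apply_symm_apply x
    · rw [← Spec.map_comp, ← Spec.map_id]
      congr 1
      ext x
      exact σ.symm_apply_apply x
  · rw [← Spec.map_comp]
    congr 1
    ext x
    exact σ.commutes x
  · rw [← Spec.map_comp, ← Spec.map_comp]
    congr 1
    ext x
    exact (hs x).symm

end Pool.Agent.MP_b525bf_ag_GU
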