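import Pool.Agent.Lib.MP_b525bf_ag_EL.LDS
import Pool.Agent.Lib.MP_b525bf_ag_EL.PRM
import Pool.Agent.Lib.MP_b525bf_ag_E.SM0

/-!
# GU, row SPR: log desingularizations spread to the valuation rings near `W`

`φ : A → K := FractionRing A`, `A0 := φ(A)`. The log uniformization `A', g, n, z` at `W` is spread:
`exists_loc` gives `A' ≤ B`, `locV W B = locV W A'`, `B` smooth over `k[z]`; the finite set `F`
forces, for a valuation ring `V` which agrees with `W` on `F`, that `B ≤ V`, that the `z i` have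
value `< 1` for `V`, that `locV V B = locV V A'`, and that the quotients `d / d0`, `j / j0` and the
unit of the monomial stay in `locV V B`.
-/

set_option autoImplicit false

namespace Pool.Agent.MP_b525bf_ag_GU

open Pool.Agent.LU2 Pool.Agent.MP_b525bf_ag_E

/-- extension of a derivation along a formally smooth homomorphism -/
private theorem SPR_ext {k A B : Type} [Field k] [CommRing A] [CommRing B] [Algebra k A]
    [Algebra k B] (f : A →ₐ[k] B) (hf : f.toRingHom.FormallySmooth) (d : A →ₗ[k] B)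
    (hd : ∀ a b, d (a * b) = f a * d b + f b * d a) :
    ∃ D : Derivation k B B, ∀ a, D (f a) = d a := by
  have hd1 : d 1 = 0 := by
    have h1 : d (1 * 1) = f 1 * d 1 + f 1 * d 1 := hd 1 1
    rw [one_mul (1 : A), map_one f, one_mul] at h1
    exact left_eq_add.mp h1
  let g : A →+* DualNumber B :=
    { toFun := fun a => TrivSqZeroExt.inl (f a) + TrivSqZeroExt.inr (d a)
      map_one' := by
        rw [map_one, hd1]
        simp
      map_zero' := by simp
      map_add' := by
        intro a b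
        rw [map_add, map_add]
        simp only [TrivSqZeroExt.inl_add, TrivSqZeroExt.inr_add]
        abel
      map_mul' := by
        intro a b
        refine TrivSqZeroExt.ext ?_ ?_
        · simp
        · rw [hd]
          simp [mul_comm] }
  have hg1 : ∀ a, (g a).fst = f a := by
    intro a
    show (TrivSqZeroExt.inl (f a) + TrivSqZeroExt.inr (d a) : DualNumber B).fst = f a
    simp
  have hg2 : ∀ a, (g a).snd = d a := by
    intro a
    show (TrivSqZeroExt.inl (f a) + TrivSqZeroExt.inr (d a) : DualNumber B).snd = d a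
    simp
  let _ : Algebra A B := f.toRingHom.toAlgebra
  let _ : Algebra A (DualNumber B) := g.toAlgebra
  have : Algebra.FormallySmooth A B := hf
  let π : DualNumber B →ₐ[A] B :=
    { (TrivSqZeroExt.fstHom B B B).toRingHom with
      commutes' := fun a => hg1 a }
  have hπ : ∀ x, π x = x.fst := fun _ => rfl
  have hπs : Function.Surjective π := fun b => ⟨TrivSqZeroExt.inl b, by rw [hπ]; simp⟩
  have hnil : IsNilpotent (RingHom.ker (π : DualNumber B →+* B)) := by
    refine ⟨2, le_bot_iff.1 ((pow_two (RingHom.ker (π : DualNumber B →+* B))).le.trans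
      (Ideal.mul_le.2 fun x hx y hy => ?_))⟩
    have hx' : x.fst = 0 := hx
    have hy' : y.fst = 0 := hy
    rw [Ideal.mem_bot]
    refine TrivSqZeroExt.ext ?_ ?_
    · simp [hx']
    · simp [hx', hy']
  let φ : B →ₐ[A] DualNumber B :=
    Algebra.FormallySmooth.liftOfSurjective (AlgHom.id A B) π hπs hnil
  have hφ1 : ∀ x, (φ x).fst = x := fun x =>
    Algebra.FormallySmooth.liftOfSurjective_apply (AlgHom.id A B) π hπs hnil x
  have hφ2 : ∀ a, φ (f a) = g a := fun a => φ.commutes a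
  have hmul : ∀ x y, (φ (x * y)).snd = x * (φ y).snd + y * (φ x).snd := by
    intro x y
    rw [map_mul, TrivSqZeroExt.snd_mul, hφ1, hφ1, op_smul_eq_smul, smul_eq_mul, smul_eq_mul]
  let D0 : B →ₗ[k] B :=
    { toFun := fun x => (φ x).snd
      map_add' := by
        intro x y
        rw [map_add, TrivSqZeroExt.snd_add]
      map_smul' := by
        intro c x
        have h1 : c • x = f (algebraMap k A c) * x := by
          rw [f.commutes, Algebra.smul_def]
        have h2 : d (algebraMap k A c) = 0 := by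
          rw [Algebra.algebraMap_eq_smul_one, map_smul, hd1, smul_zero]
        rw [h1, hmul, hφ2, hg2, h2, mul_zero, add_zero, f.commutes, RingHom.id_apply,
          Algebra.smul_def] }
  refine ⟨Derivation.mk' D0 fun a b => hmul a b, fun a => ?_⟩
  show (φ (f a)).snd = d a
  rw [hφ2, hg2]

section K

variable {k K : Type} [Field k] [Field K] [Algebra k K]

/-- Derivations dual to the parameters. -/
private theorem SPR_der {B : Subalgebra k K} {n : ℕ} {z : Fin n → K} (h : SmOver B z) :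
    ∃ (hz : ∀ i, z i ∈ B) (Δ : Fin n → Derivation k B B),
      ∀ i j, Δ i ⟨z j, hz j⟩ = if i = j then 1 else 0 := by
  obtain ⟨hz, hs⟩ := h
  let f : MvPolynomial (Fin n) k →ₐ[k] B := MvPolynomial.aeval (fun i => (⟨z i, hz i⟩ : B))
  have hfX : ∀ j, f (MvPolynomial.X j) = ⟨z j, hz j⟩ := fun j => MvPolynomial.aeval_X _ j
  have hD : ∀ i : Fin n, ∃ D : Derivation k B B,
      ∀ j, D ⟨z j, hz j⟩ = if i = j then 1 else 0 := by
    intro i
    obtain ⟨D, hD⟩ := SPR_ext f hs (f.toLinearMap ∘ₗ (MvPolynomial.pderiv i).toLinearMap) (by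
      intro a b
      show f (MvPolynomial.pderiv i (a * b)) = _
      rw [Derivation.leibniz, map_add, smul_eq_mul, smul_eq_mul, map_mul, map_mul]
      rfl)
    refine ⟨D, fun j => ?_⟩
    rw [← hfX, hD]
    show f (MvPolynomial.pderiv i (MvPolynomial.X j)) = _
    rw [MvPolynomial.pderiv_X]
    by_cases hij : i = j
    · subst hij
      rw [Pi.single_eq_same, map_one, if_pos rfl]
    · rw [Pi.single_eq_of_ne (Ne.symm hij), map_zero, if_neg hij]
  choose D hD using hD
  exact ⟨hz, D, hD⟩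

private theorem SPR_fs {B : Subalgebra k K} {n : ℕ} {z : Fin n → K} (h : SmOver B z) :
    Algebra.FormallySmooth k B := by
  obtain ⟨hz, hs⟩ := h
  have h1 : (algebraMap k (MvPolynomial (Fin n) k)).FormallySmooth :=
    RingHom.formallySmooth_algebraMap.2 inferInstance
  have h2 := h1.comp hs
  rw [show (MvPolynomial.aeval (fun i => (⟨z i, hz i⟩ : B)) :
      MvPolynomial (Fin n) k →ₐ[k] B).toRingHom.comp (algebraMap k (MvPolynomial (Fin n) k)) =
      algebraMap k B from RingHom.ext fun c => (MvPolynomial.aeval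
        (fun i => (⟨z i, hz i⟩ : B)) : MvPolynomial (Fin n) k →ₐ[k] B).commutes c] at h2
  exact RingHom.formallySmooth_algebraMap.1 h2

/-- An element that is a unit of one ring is one of the other. -/
private theorem SPR_unit {W V : ValuationSubring K} {e : K} (h1 : e ∈ W ↔ e ∈ V)
    (h2 : e⁻¹ ∈ W ↔ e⁻¹ ∈ V) (he : W.valuation e = 1) : V.valuation e = 1 := by
  have h3 : e ∈ V := h1.1 ((W.valuation_le_one_iff _).1 he.le)
  have h4 : e⁻¹ ∈ V := h2.1 ((W.valuation_le_one_iff _).1 (by rw [map_inv₀, he, inv_one]))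
  have he0 : e ≠ 0 := by
    rintro rfl
    rw [map_zero] at he
    exact zero_ne_one he
  have h5 : V.valuation e ≤ 1 := (V.valuation_le_one_iff _).2 h3
  have h6 : V.valuation e⁻¹ ≤ 1 := (V.valuation_le_one_iff _).2 h4
  have h7 : V.valuation e ≠ 0 := (V.valuation.ne_zero_iff).2 he0
  rw [map_inv₀] at h6
  exact le_antisymm h5 ((inv_le_one₀ (zero_lt_iff.2 h7)).1 h6)

private theorem SPR_near [PerfectField k] (W : ValuationSubring K) (A' : Subalgebra k K)
    (hfg : A'.FG) (hA' : ∀ a ∈ A', a ∈ W) {n : ℕ} {z : Fin n → K}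
    (hz : IsPar W (locV W A') z) (E : Finset K) (hE : ∀ e ∈ E, e ∈ locV W A') :
    ∃ (F : Finset K) (B : Subalgebra k K), B.FG ∧ A' ≤ B ∧
      ∀ V : ValuationSubring K, (∀ c : k, algebraMap k K c ∈ V) → (∀ f ∈ F, f ∈ W ↔ f ∈ V) →
        (∀ b ∈ B, b ∈ V) ∧ locV V B = locV V A' ∧
          (∀ e ∈ E, e ∈ locV V A' ∧ (W.valuation e = 1 → V.valuation e = 1)) ∧
            ∃ (m : ℕ) (z' : Fin m → K) (σ : Fin n → Fin m), Function.Injective σ ∧
              IsPar V (locV V B) z' ∧ ∀ j, z' (σ j) = z j := by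
  classical
  obtain ⟨B, hle, hloc, hL⟩ := exists_loc hfg hA' hz
  obtain ⟨SB, hSB⟩ := hL.fg
  have hB : B ≤ locV W A' := hloc ▸ le_locV B
  have hSBB : ∀ x ∈ SB, x ∈ B := fun x hx => hSB ▸ Algebra.subset_adjoin hx
  have hden : ∀ e : K, ∃ b : K, e ∈ locV W A' → b ∈ A' ∧ W.valuation b = 1 ∧ e * b ∈ A' := by
    intro e
    by_cases he : e ∈ locV W A'
    · obtain ⟨a, ha, b, hb, hb1, rfl⟩ := he
      have hb0 : b ≠ 0 := by
        rintro rfl
        rw [map_zero] at hb1
        exact zero_ne_one hb1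
      exact ⟨b, fun _ => ⟨hb, hb1, by rwa [div_mul_cancel₀ _ hb0]⟩⟩
    · exact ⟨0, fun h => absurd h he⟩
  choose den hden using hden
  obtain ⟨hzB, Δ, hΔ⟩ := SPR_der hL.sm
  refine ⟨SB ∪ E ∪ E.image (fun e => e⁻¹) ∪ Finset.univ.image (fun i => (z i)⁻¹) ∪
    (SB ∪ E).image den ∪ (SB ∪ E).image (fun e => (den e)⁻¹), B, hL.fg, hle, ?_⟩
  intro V hk hF
  have hF1 : ∀ f ∈ SB, f ∈ W ↔ f ∈ V := fun f hf => hF f (by simp [hf])
  have hF2 : ∀ f ∈ E, f ∈ W ↔ f ∈ V := fun f hf => hF f (by simp [hf])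
  have hF3 : ∀ f ∈ E, f⁻¹ ∈ W ↔ f⁻¹ ∈ V := fun f hf => hF _ (by simp [hf])
  have hF4 : ∀ i, (z i)⁻¹ ∈ W ↔ (z i)⁻¹ ∈ V := fun i => hF _ (by simp)
  have hF5 : ∀ e, e ∈ SB ∨ e ∈ E → (den e ∈ W ↔ den e ∈ V) := fun e he => hF _ (by
    refine Finset.mem_union_left _ (Finset.mem_union_right _ (Finset.mem_image_of_mem _ ?_))
    exact Finset.mem_union.2 he)
  have hF6 : ∀ e, e ∈ SB ∨ e ∈ E → ((den e)⁻¹ ∈ W ↔ (den e)⁻¹ ∈ V) := fun e he => hF _ (by
    refine Finset.mem_union_right _ (Finset.mem_image_of_mem (fun e => (den e)⁻¹) ?_)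
    exact Finset.mem_union.2 he)
  have hBV : ∀ b ∈ B, b ∈ V := by
    intro b hb
    rw [← hSB] at hb
    refine Algebra.adjoin_induction (p := fun b _ => b ∈ V) ?_ hk ?_ ?_ hb
    · intro x hx
      exact (hF1 x hx).1 (hL.mem x (hSBB x hx))
    · intro x y _ _ hx hy
      exact V.add_mem _ _ hx hy
    · intro x y _ _ hx hy
      exact V.mul_mem _ _ hx hy
  have hq : ∀ e, e ∈ SB ∨ e ∈ E → e ∈ locV V A' := by
    intro e he
    have h1 : e ∈ locV W A' := by
      rcases he with he | he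
      · exact hB (hSBB e he)
      · exact hE e he
    obtain ⟨h2, h3, h4⟩ := hden e h1
    have h5 : V.valuation (den e) = 1 := SPR_unit (hF5 e he) (hF6 e he) h3
    have h6 : den e ≠ 0 := by
      intro h
      rw [h, map_zero] at h5
      exact zero_ne_one h5
    exact ⟨_, h4, _, h2, h5, by rw [mul_div_cancel_right₀ _ h6]⟩
  have hlocV : locV V B = locV V A' := by
    refine le_antisymm ?_ (locV_mono hle)
    have h1 : B ≤ locV V A' := by
      rw [← hSB, Algebra.adjoin_le_iff]
      intro x hx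
      exact hq x (Or.inl hx)
    have h2 := locV_mono (V := V) h1
    rwa [locV_locV] at h2
  refine ⟨hBV, hlocV, fun e he => ⟨hq e (Or.inr he), SPR_unit (hF2 e he) (hF3 e he)⟩, ?_⟩
  have hpos : ∀ i, V.valuation (z i) < 1 := by
    intro i
    refine lt_of_le_of_ne ((V.valuation_le_one_iff _).2 (hBV _ (hzB i))) fun h => ?_
    have h1 : (z i)⁻¹ ∈ V := (V.valuation_le_one_iff _).1 (by rw [map_inv₀, h, inv_one])
    have h2 : (z i)⁻¹ ∈ W := (hF4 i).2 h1
    have h3 : W.valuation (z i)⁻¹ ≤ 1 := (W.valuation_le_one_iff _).2 h2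
    have h4 := hL.pos i
    have h5 : W.valuation (z i) ≠ 0 := (W.valuation.ne_zero_iff).2 (hL.ne i)
    rw [map_inv₀] at h3
    exact absurd ((inv_le_one₀ (zero_lt_iff.2 h5)).1 h3) (not_le.2 h4)
  obtain ⟨m, z', σ, hσ, hz', hzz⟩ := Pool.Agent.MP_b525bf_ag_EL.exists_par B hL.fg hBV
    (SPR_fs hL.sm) (fun j : Fin n => (⟨z j, hzB j⟩ : B)) (fun j => hpos j) Δ (by
      intro i j
      rw [hΔ, sub_self]
      show V.valuation (0 : K) < 1
      rw [map_zero]
      exact zero_lt_one)
  exact ⟨m, z', σ, hσ, hz', hzz⟩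

end K

theorem exists_finset_logDesing (k A : Type) [Field k] [PerfectField k] [CommRing A] [IsDomain A]
    [Algebra k A] [Algebra.FiniteType k A] (W : ValuationSubring (FractionRing A))
    (hW : ∀ a : A, algebraMap A (FractionRing A) a ∈ W) (h : LU k W)
    (D : Ideal A) (hD : D ≠ ⊥) (J : Ideal A) (hJ : J ≠ ⊥) :
    ∃ (F : Finset (FractionRing A)) (I : Ideal A), I ≠ ⊥ ∧
      ∀ V : ValuationSubring (FractionRing A),
        (∀ a : A, algebraMap A (FractionRing A) a ∈ V) → (∀ f ∈ F, f ∈ W ↔ f ∈ V) →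
          Pool.Agent.LU2G.IsLogDesing V D (J * I) := by
  classical
  have hnoe : IsNoetherianRing A := Algebra.FiniteType.isNoetherianRing k A
  obtain ⟨sD, hsD, d0, hd0, hd00, hdmin⟩ := Pool.Agent.LU2G.C9e.exists_least W hW D hD
  obtain ⟨sJ, hsJ, j0, hj0, hj00, hjmin⟩ := Pool.Agent.LU2G.C9e.exists_least W hW J hJ
  let φ : A →ₐ[k] FractionRing A := IsScalarTower.toAlgHom k A (FractionRing A)
  have hφ : Function.Injective φ := IsFractionRing.injective A (FractionRing A)
  have hφ0 : ∀ a : A, a ≠ 0 → φ a ≠ 0 := fun a ha h => ha (hφ (by rw [h, map_zero]))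
  have hφv : ∀ a : A, W.valuation (φ a) ≤ 1 := fun a => (W.valuation_le_one_iff _).2 (hW a)
  obtain ⟨A0, hA0⟩ : ∃ A0 : Subalgebra k (FractionRing A), A0 = φ.range := ⟨_, rfl⟩
  have hA0fg : A0.FG := by
    rw [hA0, ← Algebra.map_top]
    exact Subalgebra.FG.map φ Algebra.FiniteType.out
  have hA0mem : ∀ f ∈ A0, ∃ a, φ a = f := by
    intro f hf
    rw [hA0] at hf
    exact hf
  have hφA0 : ∀ a, φ a ∈ A0 := fun a => hA0 ▸ ⟨a, rfl⟩
  have hA0W : ∀ a ∈ A0, a ∈ W := by
    intro f hf
    obtain ⟨a, rfl⟩ := hA0mem f hf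
    exact hW a
  have hA0frac : IsFrac A0 := by
    intro f
    obtain ⟨a, b, hb, hab⟩ := IsFractionRing.div_surjective (A := A) f
    exact ⟨φ a, hφA0 a, φ b, hφA0 b, hφ0 b (nonZeroDivisors.ne_zero hb), hab.symm⟩
  obtain ⟨A', g, hch, r, z, hz, hgm, hT⟩ := h A0 hA0fg hA0W hA0frac
    ((sD.image φ ∪ sJ.image φ ∪ (sD.image fun d => φ d / φ d0) ∪
      (sJ.image fun j => φ j / φ j0)).filter (· ≠ 0))
    (by
      intro t ht
      exact (Finset.mem_filter.1 ht).2)
  have hA'fg : A'.FG := hch.fg hA0fg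
  have hA'W : ∀ a ∈ A', a ∈ W := hch.mem hA0W
  have hle0 : A0 ≤ A' := hch.le
  obtain ⟨hg, hg0, G, hG, hA'⟩ := hch
  have hT' : ∀ t ∈ (sD.image φ ∪ sJ.image φ ∪ (sD.image fun d => φ d / φ d0) ∪
      (sJ.image fun j => φ j / φ j0)), t ≠ 0 → Mono W (locV W A') z t := fun t ht ht0 =>
    hT t (Finset.mem_filter.2 ⟨ht, ht0⟩)
  obtain ⟨gA, rfl⟩ := hA0mem g hg
  change φ gA ≠ 0 at hg0
  have hgA : gA ≠ 0 := by
    rintro rfl
    exact hg0 (map_zero φ)
  -- the ideal
  let GA : Finset A := insert gA (G.preimage φ hφ.injOn)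
  let I : Ideal A := Ideal.span (GA : Set A)
  have hgI : gA ∈ I := Ideal.subset_span (Finset.mem_coe.2 (Finset.mem_insert_self _ _))
  have hI : I ≠ ⊥ := by
    intro h
    rw [h, Ideal.mem_bot] at hgI
    exact hgA hgI
  have hj0J : j0 ∈ J := by
    rw [← hsJ]
    exact Ideal.subset_span hj0
  have hd0D : d0 ∈ D := by
    rw [← hsD]
    exact Ideal.subset_span hd0
  have hj0' : φ j0 ≠ 0 := hφ0 j0 hj00
  have hd0' : φ d0 ≠ 0 := hφ0 d0 hd00
  have hmono : ∀ t : FractionRing A, Mono W (locV W A') z t → W.valuation t ≤ 1 →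
      t ∈ locV W A' := by
    intro t ht ht1
    obtain ⟨e, w, hw, -, rfl⟩ := Pool.Agent.LU2G.C9e.exists_nat ht ht1
    exact Subalgebra.mul_mem _ (Subalgebra.prod_mem _ fun i _ =>
      Subalgebra.pow_mem _ (hz.mem i) _) hw
  have hjR : ∀ j ∈ sJ, φ j / φ j0 ∈ locV W A' := by
    intro j hj
    by_cases hj1 : j = 0
    · rw [hj1, map_zero, zero_div]
      exact Subalgebra.zero_mem _
    · have h1 : φ j / φ j0 ≠ 0 := div_ne_zero (hφ0 j hj1) hj0'
      refine hmono _ (hT' _ (Finset.mem_union_right _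
        (Finset.mem_image_of_mem _ hj)) h1) ?_
      rw [map_div₀]
      exact div_le_one_of_le₀ (hjmin j (by rw [← hsJ]; exact Ideal.subset_span hj)) zero_le
  have hdR : ∀ d ∈ sD, φ d / φ d0 ∈ locV W A' := by
    intro j hj
    by_cases hj1 : j = 0
    · rw [hj1, map_zero, zero_div]
      exact Subalgebra.zero_mem _
    · have h1 : φ j / φ d0 ≠ 0 := div_ne_zero (hφ0 j hj1) hd0'
      refine hmono _ (hT' _ (Finset.mem_union_left _ (Finset.mem_union_right _
        (Finset.mem_image_of_mem _ hj))) h1) ?_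
      rw [map_div₀]
      exact div_le_one_of_le₀ (hdmin j (by rw [← hsD]; exact Ideal.subset_span hj)) zero_le
  -- the monomial
  obtain ⟨n, u, hu, hu1, hn⟩ : ∃ n : Fin r → ℕ, ∃ u : FractionRing A, u ∈ locV W A' ∧
      W.valuation u = 1 ∧ φ (d0 * (j0 * gA)) = (∏ i, z i ^ n i) * u := by
    have h2 : Mono W (locV W A') z (φ (j0 * gA)) := by
      rw [map_mul]
      refine Mono.mul hz.ne (hT' _ ?_ hj0') hgm (hφv _) (hφv _)
      exact Finset.mem_union_left _ (Finset.mem_union_left _ (Finset.mem_union_right _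
        (Finset.mem_image_of_mem _ hj0)))
    have h1 : Mono W (locV W A') z (φ (d0 * (j0 * gA))) := by
      rw [map_mul]
      refine Mono.mul hz.ne (hT' _ ?_ hd0') h2 (hφv _) (hφv _)
      exact Finset.mem_union_left _ (Finset.mem_union_left _ (Finset.mem_union_left _
        (Finset.mem_image_of_mem _ hd0)))
    exact Pool.Agent.LU2G.C9e.exists_nat h1 (hφv _)
  -- the finite set
  obtain ⟨F, B, hBfg, hAB, hF⟩ := SPR_near W A' hA'fg hA'W hz
    ((sD.image fun d => φ d / φ d0) ∪ (sJ.image fun j => φ j / φ j0) ∪ {u}) (by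
      intro e he
      rcases Finset.mem_union.1 he with he | he
      · rcases Finset.mem_union.1 he with he | he
        · obtain ⟨d, hd, rfl⟩ := Finset.mem_image.1 he
          exact hdR d hd
        · obtain ⟨j, hj, rfl⟩ := Finset.mem_image.1 he
          exact hjR j hj
      · rw [Finset.mem_singleton.1 he]
        exact hu)
  refine ⟨F, I, hI, ?_⟩
  intro V hV hFV
  obtain ⟨hBV, hloc, hE, m, z', σ, hσ, hz', hzz⟩ := hF V (fun c => by
    rw [IsScalarTower.algebraMap_apply k A (FractionRing A)]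
    exact hV _) hFV
  -- membership in the local ring at `V`
  have hAR : ∀ a : A, φ a ∈ locV V B := fun a => le_locV B (hAB (hle0 (hφA0 a)))
  have hxA : ∀ x ∈ GA, φ x / φ gA ∈ A' := by
    intro x hx
    rcases Finset.mem_insert.1 hx with rfl | hx
    · have h1 : φ x / φ x = 1 := div_self hg0
      rw [h1]
      exact Subalgebra.one_mem _
    · rw [hA']
      exact Algebra.subset_adjoin (Or.inr ⟨φ x, Finset.mem_preimage.1 hx, rfl⟩)
  have hxR : ∀ x ∈ GA, φ x / φ gA ∈ locV V B := fun x hx => le_locV B (hAB (hxA x hx))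
  have hquot : ∀ (s : Finset A) (c : A), φ c ≠ 0 → (∀ x ∈ s, φ x / φ c ∈ locV V B) →
      ∀ a ∈ Ideal.span (s : Set A), φ a / φ c ∈ locV V B := by
    intro s c _ hs a ha
    refine Submodule.span_induction (fun x hx => hs x hx) ?_ ?_ ?_ ha
    · rw [map_zero, zero_div]
      exact Subalgebra.zero_mem _
    · intro x y _ _ hx hy
      rw [map_add, add_div]
      exact Subalgebra.add_mem _ hx hy
    · intro b x _ hx
      rw [smul_eq_mul, map_mul, mul_div_assoc]
      exact Subalgebra.mul_mem _ (hAR b) hx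
  have hJR : ∀ a ∈ J, φ a / φ j0 ∈ locV V B := by
    rw [← hsJ]
    refine hquot sJ j0 hj0' fun x hx => ?_
    rw [hloc]
    exact (hE _ (Finset.mem_union_left _ (Finset.mem_union_right _
      (Finset.mem_image_of_mem _ hx)))).1
  have hDR : ∀ a ∈ D, φ a / φ d0 ∈ locV V B := by
    rw [← hsD]
    refine hquot sD d0 hd0' fun x hx => ?_
    rw [hloc]
    exact (hE _ (Finset.mem_union_left _ (Finset.mem_union_left _
      (Finset.mem_image_of_mem _ hx)))).1
  have hIR : ∀ a ∈ I, φ a / φ gA ∈ locV V B := hquot GA gA hg0 hxR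
  have hlV : ∀ f ∈ locV V B, V.valuation f ≤ 1 := fun f hf =>
    (V.valuation_le_one_iff _).2 (locV_mem hBV f hf)
  have hbI : ∀ a ∈ I, V.valuation (φ a) ≤ V.valuation (φ gA) := by
    intro a ha
    have h1 := hlV _ (hIR a ha)
    rw [← div_mul_cancel₀ (φ a) hg0, map_mul]
    exact mul_le_of_le_one_left' h1
  have hu2 := hE u (Finset.mem_union_right _ (Finset.mem_singleton_self u))
  -- the two rings are equal
  have hSR : ∀ f ∈ chart I gA, f ∈ locV V B := by
    intro f hf
    refine Algebra.adjoin_induction (p := fun f _ => f ∈ locV V B) ?_ ?_ ?_ ?_ hf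
    · rintro f ⟨a, ha, rfl⟩
      exact hIR a ha
    · intro a
      exact hAR a
    · intro x y _ _ hx hy
      exact Subalgebra.add_mem _ hx hy
    · intro x y _ _ hx hy
      exact Subalgebra.mul_mem _ hx hy
  have hS' : ∀ f ∈ A', f ∈ chart I gA := by
    intro f hf
    rw [hA'] at hf
    refine Algebra.adjoin_induction (p := fun f _ => f ∈ chart I gA) ?_ ?_ ?_ ?_ hf
    · rintro f (hf | ⟨x, hx, rfl⟩)
      · obtain ⟨a, rfl⟩ := hA0mem f hf
        exact (chart I gA).algebraMap_mem a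
      · obtain ⟨h1, -⟩ := hG x hx
        obtain ⟨a, rfl⟩ := hA0mem x h1
        have ha : a ∈ GA := Finset.mem_insert_of_mem (Finset.mem_preimage.2 hx)
        exact Algebra.subset_adjoin ⟨a, Ideal.subset_span ha, rfl⟩
    · intro c
      rw [IsScalarTower.algebraMap_apply k A (FractionRing A)]
      exact (chart I gA).algebraMap_mem _
    · intro x y _ _ hx hy
      exact (chart I gA).add_mem hx hy
    · intro x y _ _ hx hy
      exact (chart I gA).mul_mem hx hy
  have hmem : ∀ f, f ∈ centerRing V (chart I gA) ↔ f ∈ locV V B := by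
    intro f
    constructor
    · rintro ⟨a, ha, b, hb, hvb, rfl⟩
      rw [div_eq_mul_inv]
      exact Subalgebra.mul_mem _ (hSR a ha) (locV_inv (hSR b hb) hvb)
    · intro hf
      rw [hloc] at hf
      obtain ⟨a, ha, b, hb, hvb, rfl⟩ := hf
      exact ⟨a, hS' a ha, b, hS' b hb, hvb, rfl⟩
  -- the exponents
  let n' : Fin m → ℕ := fun i => if hi : ∃ j, σ j = i then n hi.choose else 0
  have hn' : ∀ j, n' (σ j) = n j := by
    intro j
    have hi : ∃ j', σ j' = σ j := ⟨j, rfl⟩
    simp only [n', dif_pos hi]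
    rw [hσ hi.choose_spec]
  have hn0 : ∀ i, i ∉ Set.range σ → n' i = 0 := by
    intro i hi
    have hi' : ¬ ∃ j, σ j = i := fun ⟨j, hj⟩ => hi ⟨j, hj⟩
    simp only [n', dif_neg hi']
  have hprod : ∏ i, z' i ^ n' i = ∏ j, z j ^ n j := by
    have h1 : ∏ i ∈ Finset.univ.image σ, z' i ^ n' i = ∏ i, z' i ^ n' i := by
      refine Finset.prod_subset (Finset.subset_univ _) fun i _ hi => ?_
      rw [hn0 i, pow_zero]
      rintro ⟨j, rfl⟩
      exact hi (Finset.mem_image_of_mem _ (Finset.mem_univ j))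
    rw [← h1, Finset.prod_image fun a _ b _ hab => hσ hab]
    exact Finset.prod_congr rfl fun j _ => by rw [hzz, hn']
  have hfin := Pool.Agent.MP_b525bf_ag_EL.isLogDesing_of V hV D J I hd0D hj0J hgI hd00 hj00 hgA hbI
    B hBfg hBV hmem hDR hJR hz' n' (u := u) (by rw [hloc]; exact hu2.1) (hu2.2 hu1) (by
      rw [hprod]
      exact hn)
  exact hfin

end Pool.Agent.MP_b525bf_ag_GU
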