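import Pool.Agent.Lib.LU2G.LogDefs

/-!
# GU, row TRL: transport of log desingularizations by an automorphism

`σ` induces the automorphism `s` of `FractionRing A`. `s` maps `chart I g` onto
`chart (I.map σ) (σ g)` and `centerRing (V.comap s) (chart I g)` onto
`centerRing V (chart (I.map σ) (σ g))`.
-/

set_option autoImplicit false

namespace Pool.Agent.MP_b525bf_ag_GU

open Pool.Agent.LU2G

private theorem val_le_iff' {K : Type} [Field K] (V : ValuationSubring K) {x y : K} (hy : y ≠ 0) :
    V.valuation x ≤ V.valuation y ↔ x / y ∈ V := by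
  rw [← ValuationSubring.valuation_le_one_iff, map_div₀]
  have h0 : 0 < V.valuation y := by
    rw [zero_lt_iff]
    exact (Valuation.ne_zero_iff _).2 hy
  rw [div_le_one₀ h0]

private theorem comap_val_le {K : Type} [Field K] (s : K ≃+* K) (V : ValuationSubring K) (x y : K) :
    (V.comap (s : K →+* K)).valuation x ≤ (V.comap (s : K →+* K)).valuation y ↔
      V.valuation (s x) ≤ V.valuation (s y) := by
  by_cases hy : y = 0
  · subst hy
    simp
  · have hsy : s y ≠ 0 := by simpa using hy
    rw [val_le_iff' _ hy, val_le_iff' _ hsy, ValuationSubring.mem_comap]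
    simp [map_div₀]

private theorem comap_val_eq_one {K : Type} [Field K] (s : K ≃+* K) (V : ValuationSubring K)
    (x : K) :
    (V.comap (s : K →+* K)).valuation x = 1 ↔ V.valuation (s x) = 1 := by
  have h1 := comap_val_le s V x 1
  have h2 := comap_val_le s V 1 x
  simp only [map_one] at h1 h2
  constructor
  · intro h
    exact le_antisymm (h1.1 h.le) (h2.1 h.ge)
  · intro h
    exact le_antisymm (h1.2 h.le) (h2.2 h.ge)

private theorem map_mem_chart {A : Type} [CommRing A] [IsDomain A] (σ : A ≃+* A)
    (s : FractionRing A ≃+* FractionRing A)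
    (hs : ∀ a : A, s (algebraMap A (FractionRing A) a) = algebraMap A (FractionRing A) (σ a))
    (I : Ideal A) (g : A) {z : FractionRing A} (hz : z ∈ chart I g) :
    s z ∈ chart (I.map (σ : A →+* A)) (σ g) := by
  unfold chart at hz
  induction hz using Algebra.adjoin_induction with
  | mem x hx =>
    obtain ⟨a, ha, rfl⟩ := hx
    rw [map_div₀, hs, hs]
    exact Algebra.subset_adjoin ⟨σ a, Ideal.mem_map_of_mem (σ : A →+* A) ha, rfl⟩
  | algebraMap r =>
    rw [hs]
    exact Subalgebra.algebraMap_mem _ _
  | add x y _ _ hx hy =>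
    rw [map_add]
    exact Subalgebra.add_mem _ hx hy
  | mul x y _ _ hx hy =>
    rw [map_mul]
    exact Subalgebra.mul_mem _ hx hy

private theorem map_mem_center {A : Type} [CommRing A] [IsDomain A] (σ : A ≃+* A)
    (s : FractionRing A ≃+* FractionRing A)
    (hs : ∀ a : A, s (algebraMap A (FractionRing A) a) = algebraMap A (FractionRing A) (σ a))
    (V : ValuationSubring (FractionRing A)) (I : Ideal A) (g : A) {z : FractionRing A}
    (hz : z ∈ centerRing (V.comap (s : FractionRing A →+* FractionRing A)) (chart I g)) :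
    s z ∈ centerRing V (chart (I.map (σ : A →+* A)) (σ g)) := by
  obtain ⟨a, ha, b, hb, hv, rfl⟩ := hz
  refine ⟨s a, map_mem_chart σ s hs I g ha, s b, map_mem_chart σ s hs I g hb, ?_, map_div₀ s a b⟩
  exact (comap_val_eq_one s V b).1 hv

private theorem map_map_symm {A : Type} [CommRing A] (σ : A ≃+* A) (I : Ideal A) :
    (I.map (σ : A →+* A)).map (σ.symm : A →+* A) = I := by
  rw [Ideal.map_map]
  have : ((σ.symm : A →+* A).comp (σ : A →+* A)) = RingHom.id A := by
    ext a
    simp
  rw [this, Ideal.map_id]

private theorem comap_comap_symm {K : Type} [Field K] (s : K ≃+* K) (V : ValuationSubring K) :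
    (V.comap (s : K →+* K)).comap (s.symm : K →+* K) = V := by
  ext x
  simp [ValuationSubring.mem_comap]

private theorem map_mem_center_iff {A : Type} [CommRing A] [IsDomain A] (σ : A ≃+* A)
    (s : FractionRing A ≃+* FractionRing A)
    (hs : ∀ a : A, s (algebraMap A (FractionRing A) a) = algebraMap A (FractionRing A) (σ a))
    (V : ValuationSubring (FractionRing A)) (I : Ideal A) (g : A) {z : FractionRing A} :
    s z ∈ centerRing V (chart (I.map (σ : A →+* A)) (σ g)) ↔
      z ∈ centerRing (V.comap (s : FractionRing A →+* FractionRing A)) (chart I g) := by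
  refine ⟨fun hz => ?_, map_mem_center σ s hs V I g⟩
  have hs' : ∀ a : A, s.symm (algebraMap A (FractionRing A) a) =
      algebraMap A (FractionRing A) (σ.symm a) := by
    intro a
    rw [RingEquiv.symm_apply_eq, hs, RingEquiv.apply_symm_apply]
  have h := map_mem_center σ.symm s.symm hs'
    (V.comap (s : FractionRing A →+* FractionRing A)) (I.map (σ : A →+* A)) (σ g) (z := s z)
    (by rw [comap_comap_symm]; exact hz)
  rwa [map_map_symm, RingEquiv.symm_apply_apply, RingEquiv.symm_apply_apply] at h

private def centerEquiv {A : Type} [CommRing A] [IsDomain A] (σ : A ≃+* A)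
    (s : FractionRing A ≃+* FractionRing A)
    (hs : ∀ a : A, s (algebraMap A (FractionRing A) a) = algebraMap A (FractionRing A) (σ a))
    (V : ValuationSubring (FractionRing A)) (I : Ideal A) (g : A) :
    centerRing (V.comap (s : FractionRing A →+* FractionRing A)) (chart I g) ≃+*
      centerRing V (chart (I.map (σ : A →+* A)) (σ g)) where
  toFun z := ⟨s z.1, map_mem_center σ s hs V I g z.2⟩
  invFun z := ⟨s.symm z.1, (map_mem_center_iff σ s hs V I g).1
    (by rw [RingEquiv.apply_symm_apply]; exact z.2)⟩
  left_inv z := Subtype.ext (by simp)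
  right_inv z := Subtype.ext (by simp)
  map_mul' x y := Subtype.ext (by simp)
  map_add' x y := Subtype.ext (by simp)

private theorem mem_map_equiv {R S : Type} [CommRing R] [CommRing S] (e : R ≃+* S) (I : Ideal R)
    (z : S) : z ∈ I.map (e : R →+* S) ↔ ∃ y ∈ I, e y = z :=
  Ideal.mem_map_of_equiv e z

private theorem maxIdeal_equiv {R S : Type} [CommRing R] [CommRing S] [IsLocalRing R]
    [IsLocalRing S] (e : R ≃+* S) {n : ℕ} (x : Fin n → R)
    (h : IsLocalRing.maximalIdeal R = Ideal.span (Set.range x)) :
    IsLocalRing.maximalIdeal S = Ideal.span (Set.range fun i => e (x i)) := by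
  have h1 : IsLocalRing.maximalIdeal S = (IsLocalRing.maximalIdeal R).map (e : R →+* S) := by
    ext z
    rw [mem_map_equiv]
    constructor
    · intro hz
      refine ⟨e.symm z, ?_, by simp⟩
      rw [IsLocalRing.mem_maximalIdeal, mem_nonunits_iff] at hz ⊢
      intro hu
      apply hz
      have := hu.map e
      simpa using this
    · rintro ⟨y, hy, rfl⟩
      rw [IsLocalRing.mem_maximalIdeal, mem_nonunits_iff] at hy ⊢
      intro hu
      apply hy
      have := hu.map e.symm
      simpa using this
  rw [h1, h, Ideal.map_span]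
  congr 1
  ext z
  simp [Set.mem_range]

private theorem zeroLocus_equiv {R S : Type} [CommRing R] [CommRing S] (e : R ≃+* S)
    {n : ℕ} (x : Fin n → R) (T : Finset (Fin n)) (I : Ideal R)
    (h : PrimeSpectrum.zeroLocus (I : Set R) = PrimeSpectrum.zeroLocus {∏ i ∈ T, x i}) :
    PrimeSpectrum.zeroLocus ((I.map (e : R →+* S) : Ideal S) : Set S) =
      PrimeSpectrum.zeroLocus {∏ i ∈ T, e (x i)} := by
  have h3 : ((I.map (e : R →+* S) : Ideal S) : Set S) = (e : R →+* S) '' (I : Set R) := by
    ext z
    rw [SetLike.mem_coe, mem_map_equiv]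
    simp only [Set.mem_image, SetLike.mem_coe, RingHom.coe_coe]
  have h4 := PrimeSpectrum.preimage_comap_zeroLocus (e : R →+* S) (I : Set R)
  have h5 := PrimeSpectrum.preimage_comap_zeroLocus (e : R →+* S) {∏ i ∈ T, x i}
  rw [h] at h4
  rw [h4, Set.image_singleton] at h5
  have h6 : (e : R →+* S) (∏ i ∈ T, x i) = ∏ i ∈ T, e (x i) := by
    rw [map_prod]
    rfl
  rw [h6] at h5
  rw [h3]
  exact h5

theorem isLogDesing_map {A : Type} [CommRing A] [IsDomain A] (σ : A ≃+* A)
    (s : FractionRing A ≃+* FractionRing A)
    (hs : ∀ a : A, s (algebraMap A (FractionRing A) a) = algebraMap A (FractionRing A) (σ a))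
    (V : ValuationSubring (FractionRing A)) (D I : Ideal A)
    (h : IsLogDesing (V.comap (s : FractionRing A →+* FractionRing A)) D I) :
    IsLogDesing V (D.map (σ : A →+* A)) (I.map (σ : A →+* A)) := by
  obtain ⟨g, hg, hg0, hle, hreg, n, x, S, hdim, hmax, hzero⟩ := h
  let e := centerEquiv σ s hs V I g
  have he : ∀ a : A, e (algebraMap A _ a) = algebraMap A _ (σ a) := by
    intro a
    exact Subtype.ext (hs a)
  have hreg' : IsRegularLocalRing (centerRing V (chart (I.map (σ : A →+* A)) (σ g))) :=
    IsRegularLocalRing.of_ringEquiv e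
  refine ⟨σ g, Ideal.mem_map_of_mem (σ : A →+* A) hg, by simpa using hg0, ?_, hreg', n,
    fun i => e (x i), S, ?_, maxIdeal_equiv e x hmax, ?_⟩
  · intro a ha
    obtain ⟨b, hb, rfl⟩ := (Ideal.mem_map_of_equiv σ a).1 ha
    have := (comap_val_le s V _ _).1 (hle b hb)
    rwa [hs, hs] at this
  · rw [← hdim]
    exact (ringKrullDim_eq_of_ringEquiv e).symm
  · have h2 : ((D.map (σ : A →+* A) * I.map (σ : A →+* A)).map
        (algebraMap A (centerRing V (chart (I.map (σ : A →+* A)) (σ g))))) =
        ((D * I).map (algebraMap A (centerRing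
          (V.comap (s : FractionRing A →+* FractionRing A)) (chart I g)))).map
          (e : centerRing (V.comap (s : FractionRing A →+* FractionRing A)) (chart I g) →+*
            centerRing V (chart (I.map (σ : A →+* A)) (σ g))) := by
      rw [← Ideal.map_mul, Ideal.map_map, Ideal.map_map]
      congr 1
      ext a
      exact congrArg Subtype.val (he a).symm
    rw [h2]
    exact zeroLocus_equiv e x S _ hzero

end Pool.Agent.MP_b525bf_ag_GU
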