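import Pool.Agent.Lib.MP_b525bf_ag_GU.DAT
import Pool.Agent.Lib.MP_b525bf_ag_GU.SPR
import Pool.Agent.Lib.MP_b525bf_ag_GU.TRL
import Pool.Agent.Lib.MP_b525bf_ag_GU.SCH
import Pool.Agent.Lib.LU2_h15z.Final
import Pool.Agent.Lib.LU2G.RealTo
import Pool.Agent.Lib.LU2G.LogAll

/-!
# Uniformization for group actions of complexity at most two
-/

set_option autoImplicit false

open AlgebraicGeometry CategoryTheory

namespace Pool.Agent.MP_b525bf_ag_GU

open Pool.Agent.LU2 Pool.Agent.LU2G Pool.Agent.LU2H Pool.Agent.MP_b525bf_ag_E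
  Pool.Agent.MP_b525bf_ag_ES Pool.Agent.MP_b525bf_ag_SG
open scoped MatrixGroups

/-- All components of a valuation ring of defect at most one are good. -/
theorem allGood_of_defLE {k K : Type} [Field k] [Field K] [Algebra k K] (hreal : RealCaseR k)
    (hfin : Algebra.trdeg k K < Cardinal.aleph0) (V : ValuationSubring K)
    (hk : ∀ c : k, algebraMap k K c ∈ V) (h : DefLE k V 1) : AllGood k V := fun V₂ V₁ h₂ hc =>
  compGood_of hreal hc hfin (AllComp.of_defLE hk h V₂ V₁ h₂ hc)

/-- A stable ideal is equal to its image. -/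
theorem map_eq_of_stable {k G A : Type} [Field k] [Group G] [CommRing A] [Algebra k A]
    (ρ : G →* (A ≃ₐ[k] A)) (I : Ideal A) (h : ∀ g, ∀ a ∈ I, ρ g a ∈ I) (g : G) :
    I.map (((ρ g : A ≃ₐ[k] A) : A ≃+* A) : A →+* A) = I := by
  apply le_antisymm
  · rw [Ideal.map_le_iff_le_comap]
    exact fun a ha => h g a ha
  · intro a ha
    have h1 : ρ g (ρ g⁻¹ a) = a := by
      rw [← AlgEquiv.mul_apply, ← map_mul, mul_inv_cancel, map_one]
      rfl
    rw [← h1]
    exact Ideal.mem_map_of_mem (((ρ g : A ≃ₐ[k] A) : A ≃+* A) : A →+* A) (h g⁻¹ a ha)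

section Main

variable (p : ℕ) [Fact p.Prime] (k : Type) [Field k] [PerfectField k] [Infinite k] [CharP k p]
  (A : Type) [CommRing A] [IsDomain A] [Algebra k A] [Algebra.FiniteType k A] {N n : ℕ} {R : Type}
  [Finite R] {P : RootDatum R (Fin n → ℤ) (Fin n → ℤ)} [P.IsReduced] {b : P.Base}
  (G : Subgroup (GL (Fin N) k)) (D : RootGroupData P b G) (ρ : G →* (A ≃ₐ[k] A))
  (hρ : IsRational ρ) (hc : Algebra.trdeg k (invField (D.borel.map ρ)) ≤ 2)

include p hρ hc

/-- Log uniformization. -/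
theorem log_of_complexity (V : ValuationSubring (FractionRing A))
    (hV : ∀ a : A, algebraMap A (FractionRing A) a ∈ V) (E J : Ideal A) (hE : E ≠ ⊥)
    (hEG : ∀ g, ∀ a ∈ E, ρ g a ∈ E) (hJ : J ≠ ⊥) (hJG : ∀ g, ∀ a ∈ J, ρ g a ∈ J) :
    ∃ I : Ideal A, I ≠ ⊥ ∧ Pool.Agent.LU2G.IsLogDesing V E (J * I) := by
  have h2 : Algebra.EssFiniteType A (FractionRing A) :=
    Algebra.EssFiniteType.of_isLocalization _ (nonZeroDivisors A)
  have h3 : Algebra.EssFiniteType k (FractionRing A) :=
    Algebra.EssFiniteType.comp k A (FractionRing A)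
  obtain ⟨W, hW, hdef, hg⟩ := exists_inv_defLE D ρ hρ 1 (hc.trans (le_of_eq (by norm_num)))
    (m := 1) (fun _ => V) (fun _ => hV)
  have hWA : ∀ a : A, algebraMap A (FractionRing A) a ∈ W 0 := (hW 0).1
  have hWk : ∀ c : k, algebraMap k (FractionRing A) c ∈ W 0 := by
    intro c
    rw [IsScalarTower.algebraMap_apply k A (FractionRing A)]
    exact hWA _
  have hLU : Pool.Agent.LU2.LU k (W 0) :=
    lu_comp (realCaseR p Fact.out).realCase (FractionRing A) (trdeg_lt_aleph0 k (FractionRing A))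
      (W 0) hWk (AllComp.of_defLE hWk (hdef 0))
  obtain ⟨F, I, hI, hF⟩ := exists_finset_logDesing k A (W 0) hWA hLU E hE J hJ
  obtain ⟨g, hgF⟩ := hg F
  refine ⟨I.map (((ρ g : A ≃ₐ[k] A) : A ≃+* A) : A →+* A), ?_, ?_⟩
  · intro h
    exact hI ((Ideal.map_eq_bot_iff_of_injective
      (f := (((ρ g : A ≃ₐ[k] A) : A ≃+* A) : A →+* A)) (ρ g).injective).1 h)
  · have h4 := isLogDesing_map (ρ g : A ≃+* A) (onK ρ g : FractionRing A ≃+* FractionRing A)
      (fun a => onK_algebraMap ρ g a) V E (J * I) (hF _ (fun a => ?_) (fun f hf => ?_))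
    · rw [Ideal.map_mul, map_eq_of_stable ρ E hEG, map_eq_of_stable ρ J hJG] at h4
      exact h4
    · rw [ValuationSubring.mem_comap]
      have h5 : ((onK ρ g : FractionRing A ≃+* FractionRing A) : FractionRing A →+* FractionRing A)
        (algebraMap A (FractionRing A) a) = algebraMap A (FractionRing A) (ρ g a) :=
          onK_algebraMap ρ g a
      rw [h5]
      exact hV _
    · exact hgF 0 f hf

/-- Modifications smooth at the centres. -/
theorem exists_smooth_centres_of_complexity (m : ℕ) (V : Fin m → ValuationSubring (FractionRing A))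
    (hV : ∀ i, ∀ a : A, algebraMap A (FractionRing A) a ∈ V i) :
    ∃ (Y : Scheme.{0}) (π : Y ⟶ Spec (CommRingCat.of A)), IsIntegral Y ∧ IsProper π ∧
      (∀ U : (Spec (CommRingCat.of A)).Opens,
        (∀ x ∈ U, IsSmoothAt (Spec.map (CommRingCat.ofHom (algebraMap k A))) x) →
          IsIso (π ∣_ U)) ∧
      ∀ i, ∃ c : Spec (CommRingCat.of (V i)) ⟶ Y, c ≫ π = toSpec (V i) (hV i) ∧
        IsSmoothAt (π ≫ Spec.map (CommRingCat.ofHom (algebraMap k A)))
          (c (IsLocalRing.closedPoint (V i))) := by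
  have h2 : Algebra.EssFiniteType A (FractionRing A) :=
    Algebra.EssFiniteType.of_isLocalization _ (nonZeroDivisors A)
  have h3 : Algebra.EssFiniteType k (FractionRing A) :=
    Algebra.EssFiniteType.comp k A (FractionRing A)
  obtain ⟨W, hW, hdef, hg⟩ := exists_inv_defLE D ρ hρ 1 (hc.trans (le_of_eq (by norm_num))) V hV
  have hWk : ∀ i, ∀ c : k, algebraMap k (FractionRing A) c ∈ W i := by
    intro i c
    rw [IsScalarTower.algebraMap_apply k A (FractionRing A)]
    exact (hW i).1 _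
  refine exists_modification k A m W V (fun i => (hW i).1) hV (fun i =>
    allGood_of_defLE (realCaseR p Fact.out) (trdeg_lt_aleph0 k (FractionRing A)) (W i) (hWk i)
      (hdef i)) (fun F => ?_)
  obtain ⟨g, hgF⟩ := hg F
  exact ⟨ρ g, onK ρ g, fun a => onK_algebraMap ρ g a, hgF⟩

end Main

end Pool.Agent.MP_b525bf_ag_GU
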