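import Pool.Agent.Lib.MP_b525bf_ag_SG.OnK
import Pool.Agent.Lib.MP_b525bf_ag_R.Basic

/-!
# Generic elements of a group with root group data

Finitely many conditions `ρ g (a i) ∉ W i`, each of which is satisfied by some `g`, are satisfied at
the same time by some `g`.
-/

set_option autoImplicit false

namespace Pool.Agent.MP_b525bf_ag_GU

open Pool.Agent.MP_b525bf_ag_R (up lo dg chi IsRat)
open Pool.Agent.MP_b525bf_ag_SG
open scoped MatrixGroups

section Poly

variable {k A : Type} [Field k] [AddCommGroup A] [Module k A]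

/-- A Laurent polynomial with coefficients in `A` which is outside of `W` at one point is in `W` at
only finitely many points. -/
private theorem finite_laurent {J : Type} (S : Finset J) (e : J → ℤ) (b : J → A) (W : Submodule k A)
    (c₀ : kˣ) (h : ∑ l ∈ S, ((c₀ ^ e l : kˣ) : k) • b l ∉ W) :
    {c : kˣ | ∑ l ∈ S, ((c ^ e l : kˣ) : k) • b l ∈ W}.Finite := by
  classical
  obtain ⟨ξ, hξ, hξW⟩ := Submodule.exists_le_ker_of_notMem h
  obtain ⟨N, hN⟩ : ∃ N : ℕ, ∀ l ∈ S, 0 ≤ e l + N := by
    refine ⟨∑ l ∈ S, (e l).natAbs, fun l hl => ?_⟩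
    have h1 : (e l).natAbs ≤ ∑ l ∈ S, (e l).natAbs :=
      Finset.single_le_sum (f := fun l => (e l).natAbs) (fun _ _ => Nat.zero_le _) hl
    omega
  let P : Polynomial k := ∑ l ∈ S, Polynomial.monomial (e l + N).toNat (ξ (b l))
  have hP : ∀ c : kˣ, P.eval (c : k) = (c : k) ^ N * ξ (∑ l ∈ S, ((c ^ e l : kˣ) : k) • b l) := by
    intro c
    rw [map_sum, Polynomial.eval_finsetSum, Finset.mul_sum]
    refine Finset.sum_congr rfl fun l hl => ?_
    rw [Polynomial.eval_monomial, map_smul, smul_eq_mul, ← mul_assoc, mul_comm]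
    congr 1
    have h1 : ((c : k) ^ (e l + N).toNat) = (((c ^ (e l + N : ℤ) : kˣ)) : k) := by
      rw [Units.val_zpow_eq_zpow_val, ← zpow_natCast, Int.toNat_of_nonneg (hN l hl)]
    rw [h1, zpow_add, Units.val_mul, zpow_natCast, Units.val_pow_eq_pow_val, mul_comm]
  have hP0 : P ≠ 0 := by
    intro h0
    have h1 := hP c₀
    rw [h0, Polynomial.eval_zero] at h1
    exact mul_ne_zero (pow_ne_zero _ c₀.ne_zero) hξ h1.symm
  refine Set.Finite.subset (Set.Finite.preimage (f := fun c : kˣ => (c : k))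
    (fun _ _ _ _ h => Units.ext h) (P.roots.toFinset.finite_toSet)) ?_
  intro c hc
  rw [Set.mem_preimage, Finset.mem_coe, Multiset.mem_toFinset, Polynomial.mem_roots hP0,
    Polynomial.IsRoot.def, hP]
  have h1 : ξ (∑ l ∈ S, ((c ^ e l : kˣ) : k) • b l) = 0 := hξW hc
  rw [h1, mul_zero]

private theorem finite_poly (N : ℕ) (b : ℕ → A) (W : Submodule k A) (s₀ : k)
    (h : ∑ i ∈ Finset.range N, s₀ ^ i • b i ∉ W) :
    {s : k | ∑ i ∈ Finset.range N, s ^ i • b i ∈ W}.Finite := by
  classical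
  obtain ⟨ξ, hξ, hξW⟩ := Submodule.exists_le_ker_of_notMem h
  let P : Polynomial k := ∑ i ∈ Finset.range N, Polynomial.monomial i (ξ (b i))
  have hP : ∀ s : k, P.eval s = ξ (∑ i ∈ Finset.range N, s ^ i • b i) := by
    intro s
    rw [map_sum, Polynomial.eval_finsetSum]
    refine Finset.sum_congr rfl fun i _ => ?_
    rw [Polynomial.eval_monomial, map_smul, smul_eq_mul, mul_comm]
  have hP0 : P ≠ 0 := by
    intro h0
    have h1 := hP s₀
    rw [h0, Polynomial.eval_zero] at h1
    exact hξ h1.symm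
  refine Set.Finite.subset (P.roots.toFinset.finite_toSet) ?_
  intro s hs
  rw [Finset.mem_coe, Multiset.mem_toFinset, Polynomial.mem_roots hP0, Polynomial.IsRoot.def, hP]
  exact hξW hs

end Poly

section Main

variable {k ι R G : Type} [Field k] [Infinite k] [Fintype ι] [Group G] (D : RG k ι R G)
  {A : Type} [CommRing A] [Algebra k A] (ρ : G →* (A ≃ₐ[k] A))

/-- The set of the `g` which satisfy finitely many conditions. -/
private def Cnd {n : ℕ} (a : Fin n → A) (W : Fin n → Submodule k A) (g : G) : Prop :=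
  ∀ i, ρ g (a i) ∉ W i

private theorem cnd_x (hρ : D.Rat ρ) (γ : R) {n : ℕ} (a : Fin n → A) (W : Fin n → Submodule k A)
    (g : G) (s₀ : k) (h : Cnd ρ a W (g * D.x γ s₀)) :
    {s : k | ¬ Cnd ρ a W (g * D.x γ s)}.Finite := by
  have h1 : {s : k | ¬ Cnd ρ a W (g * D.x γ s)} ⊆
      ⋃ i, {s : k | ρ (g * D.x γ s) (a i) ∈ W i} := by
    intro s hs
    simp only [Cnd, Set.mem_ofPred_eq, not_forall, not_not] at hs
    exact Set.mem_iUnion.2 hs
  refine Set.Finite.subset (Set.finite_iUnion fun i => ?_) h1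
  obtain ⟨N, c, b, -, -, hc⟩ := Pool.Agent.MP_b525bf_ag_R.exists_up (ρ.comp (D.φ γ)) (hρ.sl γ) (a i)
  have h2 : ∀ s : k, ρ (g * D.x γ s) (a i) =
      ∑ j ∈ Finset.range (N + 1), s ^ j • ρ g (c j) := by
    intro s
    rw [map_mul, AlgEquiv.mul_apply]
    have h3 : ρ (D.x γ s) (a i) = ∑ j ∈ Finset.range (N + 1), s ^ j • c j := hc s
    rw [h3, map_sum]
    exact Finset.sum_congr rfl fun j _ => map_smul _ _ _
  have h3 := h i
  rw [h2] at h3
  refine (finite_poly (N + 1) (fun j => ρ g (c j)) (W i) s₀ h3).subset ?_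
  intro s hs
  rw [Set.mem_ofPred_eq, ← h2]
  exact hs

omit [Infinite k] in
private theorem cnd_T [DecidableEq ι] (hρ : D.Rat ρ) (j : ι) {n : ℕ} (a : Fin n → A)
    (W : Fin n → Submodule k A) (g : G) (c₀ : kˣ)
    (h : Cnd ρ a W (g * D.T (Pi.mulSingle j c₀))) :
    {c : kˣ | ¬ Cnd ρ a W (g * D.T (Pi.mulSingle j c))}.Finite := by
  have h1 : {c : kˣ | ¬ Cnd ρ a W (g * D.T (Pi.mulSingle j c))} ⊆
      ⋃ i, {c : kˣ | ρ (g * D.T (Pi.mulSingle j c)) (a i) ∈ W i} := by
    intro s hs
    simp only [Cnd, Set.mem_ofPred_eq, not_forall, not_not] at hs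
    exact Set.mem_iUnion.2 hs
  refine Set.Finite.subset (Set.finite_iUnion fun i => ?_) h1
  obtain ⟨S, b, hb⟩ := hρ.tor (a i)
  have hchi : ∀ (l : ι → ℤ) (c : kˣ), chi l (Pi.mulSingle j c) = c ^ l j := by
    intro l c
    rw [chi, Finset.prod_eq_single j]
    · rw [Pi.mulSingle_eq_same]
    · intro j' _ hj'
      rw [Pi.mulSingle_eq_of_ne hj', one_zpow]
    · intro h
      exact absurd (Finset.mem_univ j) h
  have h2 : ∀ c : kˣ, ρ (g * D.T (Pi.mulSingle j c)) (a i) =
      ∑ l ∈ S, ((c ^ l j : kˣ) : k) • ρ g (b l) := by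
    intro c
    rw [map_mul, AlgEquiv.mul_apply, hb, map_sum]
    refine Finset.sum_congr rfl fun l _ => ?_
    rw [map_smul, hchi]
  have h3 := h i
  rw [h2] at h3
  refine (finite_laurent S (fun l => l j) (fun l => ρ g (b l)) (W i) c₀ h3).subset ?_
  intro s hs
  rw [Set.mem_ofPred_eq, ← h2]
  exact hs

/-- Two nonempty sets of this kind have a common element. -/
private theorem exists_common (hρ : D.Rat ρ) {n n' : ℕ} (a : Fin n → A)
    (W : Fin n → Submodule k A) (a' : Fin n' → A) (W' : Fin n' → Submodule k A) (g g' : G)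
    (h : Cnd ρ a W g) (h' : Cnd ρ a' W' g') : ∃ g₁, Cnd ρ a W g₁ ∧ Cnd ρ a' W' g₁ := by
  classical
  have hinf : Infinite kˣ := by
    rw [(unitsEquivNeZero (G₀ := k)).infinite_iff]
    exact (Set.finite_singleton (0 : k)).infinite_compl.to_subtype
  let H : Subgroup G :=
    { carrier := {u | ∀ (n n' : ℕ) (a : Fin n → A) (W : Fin n → Submodule k A)
        (a' : Fin n' → A) (W' : Fin n' → Submodule k A) (g : G), Cnd ρ a W g →
        Cnd ρ a' W' (g * u) → ∃ g₁, Cnd ρ a W g₁ ∧ Cnd ρ a' W' g₁}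
      mul_mem' := by
        intro u u' hu hu' n n' a W a' W' g h h'
        obtain ⟨g₁, h1, h2⟩ := hu n n' a W (fun i => ρ u' (a' i)) W' g h (fun i => by
          have h3 := h' i
          rw [← AlgEquiv.mul_apply, ← map_mul, mul_assoc]
          exact h3)
        refine hu' n n' a W a' W' g₁ h1 fun i => ?_
        have h3 := h2 i
        rw [← AlgEquiv.mul_apply, ← map_mul] at h3
        exact h3
      one_mem' := by
        intro n n' a W a' W' g h h'
        rw [mul_one] at h'
        exact ⟨g, h, h'⟩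
      inv_mem' := by
        intro u hu n n' a W a' W' g h h'
        obtain ⟨g₁, h1, h2⟩ := hu n' n a' W' a W (g * u⁻¹) h' (by
          rw [inv_mul_cancel_right]
          exact h)
        exact ⟨g₁, h2, h1⟩ }
  have hH : H = ⊤ := by
    refine D.gen' H ?_ ?_
    · intro t
      have h1 : ∀ s : Finset ι, D.T (∏ i ∈ s, Pi.mulSingle i (t i)) ∈ H := by
        intro s
        induction s using Finset.induction_on with
        | empty =>
          rw [Finset.prod_empty, map_one]
          exact H.one_mem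
        | insert i s hi ih =>
          rw [Finset.prod_insert hi, map_mul]
          refine H.mul_mem ?_ ih
          intro n n' a W a' W' g h h'
          have e1 := cnd_T D ρ hρ i a W g 1 (by
            rw [Pi.mulSingle_one, map_one, mul_one]
            exact h)
          have e2 := cnd_T D ρ hρ i a' W' g (t i) h'
          obtain ⟨c, hc⟩ := (e1.union e2).exists_notMem
          simp only [Set.mem_union, Set.mem_ofPred_eq, not_or, not_not] at hc
          exact ⟨_, hc.1, hc.2⟩
      have h2 := h1 Finset.univ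
      rwa [Finset.univ_prod_mulSingle] at h2
    · intro γ s₀ n n' a W a' W' g h h'
      have e1 := cnd_x D ρ hρ γ a W g 0 (by
        rw [D.x_zero, mul_one]
        exact h)
      have e2 := cnd_x D ρ hρ γ a' W' g s₀ h'
      obtain ⟨c, hc⟩ := (e1.union e2).exists_notMem
      simp only [Set.mem_union, Set.mem_ofPred_eq, not_or, not_not] at hc
      exact ⟨_, hc.1, hc.2⟩
  have h1 : g⁻¹ * g' ∈ H := by
    rw [hH]
    exact Subgroup.mem_top _
  exact h1 n n' a W a' W' g h (by rwa [mul_inv_cancel_left])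

/-- Finitely many conditions which can be satisfied one by one can be satisfied simultaneously. -/
theorem exists_generic (hρ : D.Rat ρ) (n : ℕ) : ∀ (a : Fin n → A) (W : Fin n → Submodule k A),
    (∀ i, ∃ g, ρ g (a i) ∉ W i) → ∃ g, ∀ i, ρ g (a i) ∉ W i := by
  induction n with
  | zero => exact fun a W _ => ⟨1, fun i => i.elim0⟩
  | succ n ih =>
    intro a W h
    obtain ⟨g, hg⟩ := ih (fun i => a i.castSucc) (fun i => W i.castSucc) fun i => h _
    obtain ⟨g', hg'⟩ := h (Fin.last n)
    obtain ⟨g₁, h1, h2⟩ := exists_common D ρ hρ (fun i => a i.castSucc) (fun i => W i.castSucc)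
      (fun _ : Fin 1 => a (Fin.last n)) (fun _ => W (Fin.last n)) g g' hg (fun _ => hg')
    refine ⟨g₁, fun i => ?_⟩
    refine Fin.lastCases ?_ (fun j => ?_) i
    · exact h2 0
    · exact h1 j

/-- The same for a finite index set. -/
theorem exists_generic_finite (hρ : D.Rat ρ) {J : Type} [Finite J] (a : J → A)
    (W : J → Submodule k A) (h : ∀ i, ∃ g, ρ g (a i) ∉ W i) : ∃ g, ∀ i, ρ g (a i) ∉ W i := by
  have := Fintype.ofFinite J
  obtain ⟨g, hg⟩ := exists_generic D ρ hρ (Fintype.card J)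
    (fun i => a ((Fintype.equivFin J).symm i)) (fun i => W ((Fintype.equivFin J).symm i))
    fun i => h _
  refine ⟨g, fun i => ?_⟩
  have h1 := hg (Fintype.equivFin J i)
  rwa [Equiv.symm_apply_apply] at h1

end Main

end Pool.Agent.MP_b525bf_ag_GU
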