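import Pool.Agent.Lib.MP_b525bf_ag_GU.UDefs

/-!
# Uniformization at finitely many valuations: restriction to open subschemes
-/

set_option autoImplicit false

open AlgebraicGeometry CategoryTheory

namespace Pool.Agent.MP_b525bf_ag_GU

open Pool.Agent.LU2G

theorem isSmoothAt_of_open {X S : Scheme.{0}} (U : X.Opens) (f : X ⟶ S) (x : U)
    (h : IsSmoothAt (U.ι ≫ f) x) : IsSmoothAt f (U.ι x) := by
  obtain ⟨O, hxO, hO⟩ := h
  refine ⟨U.ι ''ᵁ O, ⟨x, hxO, rfl⟩, ?_⟩
  have h1 : (U.ι ''ᵁ O).ι ≫ f = (U.ι.isoImage O).inv ≫ O.ι ≫ U.ι ≫ f := by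
    rw [Iso.eq_inv_comp, Scheme.Hom.isoImage_hom_ι_assoc]
  rw [h1]
  infer_instance

theorem isSmoothAt_open {Y S : Scheme.{0}} (U : Y.Opens) (h : Y ⟶ S) (y : U)
    (hy : IsSmoothAt h (U.ι y)) : IsSmoothAt (U.ι ≫ h) y := by
  obtain ⟨O, hyO, hO⟩ := hy
  refine ⟨U.ι ⁻¹ᵁ O, hyO, ?_⟩
  have h1 : (U.ι ⁻¹ᵁ O).ι ≫ U.ι ≫ h = (U.ι ∣_ O) ≫ O.ι ≫ h := by
    rw [morphismRestrict_ι_assoc]
  rw [h1]
  infer_instance

/-- The function field of an open subscheme. -/
theorem exists_equiv_functionField {X : Scheme.{0}} [IsIntegral X] (U : X.Opens)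
    [IsIntegral (U : Scheme.{0})] :
    ∃ e : X.functionField ≃+* (U : Scheme.{0}).functionField,
      Spec.map (CommRingCat.ofHom (e : X.functionField →+* (U : Scheme.{0}).functionField)) ≫
        X.fromSpecStalk (genericPoint X) =
          (U : Scheme.{0}).fromSpecStalk (genericPoint (U : Scheme.{0})) ≫ U.ι := by
  have h1 : U.ι (genericPoint (U : Scheme.{0})) = genericPoint X :=
    genericPoint_eq_of_isOpenImmersion U.ι
  have h2 : genericPoint X ⤳ U.ι (genericPoint (U : Scheme.{0})) := by
    rw [h1]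
  have h3 : U.ι (genericPoint (U : Scheme.{0})) ⤳ genericPoint X := by
    rw [h1]
  have hiso : IsIso (X.presheaf.stalkSpecializes h3) := by
    refine ⟨X.presheaf.stalkSpecializes h2, ?_, ?_⟩
    · rw [TopCat.Presheaf.stalkSpecializes_comp, TopCat.Presheaf.stalkSpecializes_refl]
    · rw [TopCat.Presheaf.stalkSpecializes_comp, TopCat.Presheaf.stalkSpecializes_refl]
  let φ := X.presheaf.stalkSpecializes h3 ≫ U.ι.stalkMap (genericPoint (U : Scheme.{0}))
  have hφ : IsIso φ := inferInstance
  refine ⟨(asIso φ).commRingCatIsoToRingEquiv, ?_⟩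
  have h4 : CommRingCat.ofHom ((asIso φ).commRingCatIsoToRingEquiv :
      X.functionField →+* (U : Scheme.{0}).functionField) = φ := rfl
  rw [h4, Spec.map_comp, Category.assoc, Scheme.SpecMap_stalkSpecializes_fromSpecStalk,
    Scheme.SpecMap_stalkMap_fromSpecStalk]

/-- The definition is inherited by open subschemes. -/
theorem uniformizable_open {k : Type} [Field k] {X : Scheme.{0}} [IsIntegral X]
    (f : X ⟶ Spec (CommRingCat.of k)) (h : UniformizableAtFinitelyMany f) (U : X.Opens)
    [IsIntegral (U : Scheme.{0})] : UniformizableAtFinitelyMany (U.ι ≫ f) := by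
  intro m V c hc
  obtain ⟨e, he⟩ := exists_equiv_functionField U
  -- the valuation rings in the function field of `X`, and their centres
  have key : ∀ (V : ValuationSubring (U : Scheme.{0}).functionField)
      (c : Spec (CommRingCat.of V) ⟶ U),
      Spec.map (CommRingCat.ofHom (algebraMap V (U : Scheme.{0}).functionField)) ≫ c =
        (U : Scheme.{0}).fromSpecStalk (genericPoint (U : Scheme.{0})) →
      ∃ (V' : ValuationSubring X.functionField) (ε : V' ≃+* V)
        (c' : Spec (CommRingCat.of V') ⟶ X),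
        Spec.map (CommRingCat.ofHom (algebraMap V' X.functionField)) ≫ c' =
          X.fromSpecStalk (genericPoint X) ∧
        Spec.map (CommRingCat.ofHom (ε : V' →+* V)) ≫ c' = c ≫ U.ι := by
    intro V c hc
    let V' : ValuationSubring X.functionField :=
      V.comap (e : X.functionField →+* (U : Scheme.{0}).functionField)
    let ε : V' ≃+* V :=
      { toFun := fun x => ⟨e x, x.2⟩
        invFun := fun y => ⟨e.symm y, by
          change e (e.symm y) ∈ V
          rw [e.apply_symm_apply]
          exact y.2⟩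
        left_inv := fun x => Subtype.ext (e.symm_apply_apply _)
        right_inv := fun y => Subtype.ext (e.apply_symm_apply _)
        map_mul' := fun x y => Subtype.ext (e.map_mul _ _)
        map_add' := fun x y => Subtype.ext (e.map_add _ _) }
    refine ⟨V', ε, Spec.map (CommRingCat.ofHom (ε.symm : V →+* V')) ≫ c ≫ U.ι, ?_, ?_⟩
    · have h1 : Spec.map (CommRingCat.ofHom (algebraMap V' X.functionField)) ≫
          Spec.map (CommRingCat.ofHom (ε.symm : V →+* V')) =
            Spec.map (CommRingCat.ofHom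
              (e.symm : (U : Scheme.{0}).functionField →+* X.functionField)) ≫
            Spec.map (CommRingCat.ofHom (algebraMap V (U : Scheme.{0}).functionField)) := by
        rw [← Spec.map_comp, ← Spec.map_comp]
        rfl
      rw [← Category.assoc, h1, Category.assoc, ← Category.assoc (Spec.map
        (CommRingCat.ofHom (algebraMap V (U : Scheme.{0}).functionField))), hc, ← he,
        ← Category.assoc, ← Spec.map_comp, ← CommRingCat.ofHom_comp]
      have h2 : ((e.symm : (U : Scheme.{0}).functionField →+* X.functionField).comp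
          (e : X.functionField →+* (U : Scheme.{0}).functionField)) = RingHom.id _ := by
        ext x
        exact e.symm_apply_apply x
      rw [h2, CommRingCat.ofHom_id, Spec.map_id, Category.id_comp]
    · rw [← Category.assoc, ← Spec.map_comp, ← CommRingCat.ofHom_comp]
      have h2 : ((ε : V' →+* V).comp (ε.symm : V →+* V')) = RingHom.id _ := by
        ext x
        exact congrArg Subtype.val (ε.apply_symm_apply x)
      rw [h2, CommRingCat.ofHom_id, Spec.map_id, Category.id_comp]
  choose V' ε c' hc' hcc using fun i => key (V i) (c i) (hc i)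
  -- the trivial valuation ring is added
  obtain ⟨c₀, hc₀⟩ : ∃ c₀ : Spec (CommRingCat.of (⊤ : ValuationSubring X.functionField)) ⟶ X,
      Spec.map (CommRingCat.ofHom (algebraMap (⊤ : ValuationSubring X.functionField)
        X.functionField)) ≫ c₀ = X.fromSpecStalk (genericPoint X) := by
    refine ⟨Spec.map (CommRingCat.ofHom ((RingHom.id X.functionField).codRestrict
      (⊤ : ValuationSubring X.functionField) fun _ => trivial)) ≫
        X.fromSpecStalk (genericPoint X), ?_⟩
    rw [← Category.assoc, ← Spec.map_comp]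
    have h1 : CommRingCat.ofHom ((RingHom.id X.functionField).codRestrict
      (⊤ : ValuationSubring X.functionField) fun _ => trivial) ≫
        CommRingCat.ofHom (algebraMap (⊤ : ValuationSubring X.functionField)
        X.functionField) = 𝟙 _ := rfl
    rw [h1, Spec.map_id, Category.id_comp]
  let V'' : Fin (m + 1) → ValuationSubring X.functionField := Fin.cons ⊤ V'
  let c'' : ∀ i, Spec (CommRingCat.of (V'' i)) ⟶ X :=
    Fin.cons (α := fun i => Spec (CommRingCat.of (V'' i)) ⟶ X) c₀ c'
  obtain ⟨Y, π, hY, hπ, hiso, hlift⟩ := h (m + 1) V'' c'' (by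
    intro i
    refine Fin.cases ?_ (fun i => ?_) i
    · exact hc₀
    · exact hc' i)
  obtain ⟨d₀, hd₀⟩ : ∃ d₀ : Spec (CommRingCat.of (⊤ : ValuationSubring X.functionField)) ⟶ Y,
      d₀ ≫ π = c₀ := by
    obtain ⟨d₀, hd₀, -⟩ := hlift 0
    exact ⟨d₀, hd₀⟩
  have hd : ∀ i : Fin m, ∃ d : Spec (CommRingCat.of (V' i)) ⟶ Y, d ≫ π = c' i ∧
      IsSmoothAt (π ≫ f) (d (IsLocalRing.closedPoint (V' i))) := fun i => hlift i.succ
  choose d hd hsm using hd
  have hne : Nonempty (π ⁻¹ᵁ U) := by
    obtain ⟨q, hq⟩ : ∃ q, c₀ q = genericPoint X := by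
      have h2 : (Spec.map (CommRingCat.ofHom (algebraMap (⊤ : ValuationSubring X.functionField)
        X.functionField)) ≫ c₀) (IsLocalRing.closedPoint X.functionField) = genericPoint X := by
        rw [hc₀]
        exact Scheme.fromSpecStalk_closedPoint
      exact ⟨_, h2⟩
    refine ⟨⟨d₀ q, ?_⟩⟩
    have h1 : π (d₀ q) = genericPoint X := by
      rw [← hq, ← hd₀]
      rfl
    change π (d₀ q) ∈ U
    rw [h1, ← genericPoint_eq_of_isOpenImmersion U.ι]
    exact (genericPoint (U : Scheme.{0})).2
  have hpull := isPullback_morphismRestrict π U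
  refine ⟨π ⁻¹ᵁ U, π ∣_ U, ?_, ?_, ?_, ?_⟩
  · exact isIntegral_of_isOpenImmersion (π ⁻¹ᵁ U).ι
  · infer_instance
  · intro W hW
    have h1 : IsIso (π ∣_ (U.ι ''ᵁ W)) := by
      refine hiso _ ?_
      rintro _ ⟨x, hx, rfl⟩
      exact isSmoothAt_of_open U f x (hW x hx)
    have h2 := morphismRestrictRestrict π U W
    exact (MorphismProperty.arrow_mk_iso_iff (MorphismProperty.isomorphisms Scheme.{0}) h2).2 h1
  · intro i
    have h1 : c i ≫ U.ι = (Spec.map (CommRingCat.ofHom (ε i : V' i →+* V i)) ≫ d i) ≫ π := by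
      rw [Category.assoc, hd, hcc]
    refine ⟨hpull.lift _ _ h1, hpull.lift_fst _ _ h1, ?_⟩
    have h2 : (π ⁻¹ᵁ U).ι (hpull.lift _ _ h1 (IsLocalRing.closedPoint (V i))) =
        d i (IsLocalRing.closedPoint (V' i)) := by
      have h4 : (hpull.lift _ _ h1 ≫ (π ⁻¹ᵁ U).ι) (IsLocalRing.closedPoint (V i)) =
          d i (Spec.map (CommRingCat.ofHom (ε i : V' i →+* V i))
            (IsLocalRing.closedPoint (V i))) := by
        rw [hpull.lift_snd]
        rfl
      have h5 : Spec.map (CommRingCat.ofHom (ε i : V' i →+* V i))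
          (IsLocalRing.closedPoint (V i)) = IsLocalRing.closedPoint (V' i) := by
        have hloc : IsLocalHom (ε i : V' i →+* V i) := inferInstance
        exact IsLocalRing.comap_closedPoint (ε i : V' i →+* V i)
      rw [h5] at h4
      exact h4
    have h3 : (π ∣_ U) ≫ U.ι ≫ f = (π ⁻¹ᵁ U).ι ≫ π ≫ f := by
      rw [morphismRestrict_ι_assoc]
    rw [h3]
    refine isSmoothAt_open _ _ _ ?_
    rw [h2]
    exact hsm i

end Pool.Agent.MP_b525bf_ag_GU
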