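import Pool.Agent.Lib.MP_b525bf_ag_E.PDefs

/-!
# The field of rational functions of a projective scheme
-/

set_option autoImplicit false

namespace Pool.Agent.MP_b525bf_ag_GU

variable {k A : Type} [Field k] [CommRing A] [IsDomain A] [Algebra k A]
  (𝒜 : ℕ → Submodule k A) [GradedAlgebra 𝒜]

/-- The field of rational functions of `Proj A`: the subfield of the field of fractions of `A` of
the quotients of homogeneous elements of the same degree. -/
noncomputable def projField : IntermediateField k (FractionRing A) where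
  carrier := {z | ∃ (n : ℕ) (a b : A), a ∈ 𝒜 n ∧ b ∈ 𝒜 n ∧ b ≠ 0 ∧
    z = algebraMap A (FractionRing A) a / algebraMap A (FractionRing A) b}
  mul_mem' := by
    rintro _ _ ⟨n, a, b, ha, hb, hb0, rfl⟩ ⟨m, c, d, hc, hd, hd0, rfl⟩
    exact ⟨n + m, a * c, b * d, SetLike.mul_mem_graded ha hc, SetLike.mul_mem_graded hb hd,
      mul_ne_zero hb0 hd0, by rw [map_mul, map_mul, div_mul_div_comm]⟩
  add_mem' := by
    rintro _ _ ⟨n, a, b, ha, hb, hb0, rfl⟩ ⟨m, c, d, hc, hd, hd0, rfl⟩
    have hinj := IsFractionRing.injective A (FractionRing A)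
    refine ⟨n + m, a * d + b * c, b * d, (𝒜 (n + m)).add_mem (SetLike.mul_mem_graded ha hd)
      (SetLike.mul_mem_graded hb hc), SetLike.mul_mem_graded hb hd, mul_ne_zero hb0 hd0, ?_⟩
    rw [div_add_div _ _ ((map_ne_zero_iff _ hinj).2 hb0) ((map_ne_zero_iff _ hinj).2 hd0)]
    simp only [map_add, map_mul]
  algebraMap_mem' := fun c => ⟨0, algebraMap k A c, 1, SetLike.algebraMap_mem_graded 𝒜 c,
    SetLike.one_mem_graded 𝒜, one_ne_zero, by
      rw [map_one, div_one, ← IsScalarTower.algebraMap_apply]⟩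
  inv_mem' := by
    rintro _ ⟨n, a, b, ha, hb, hb0, rfl⟩
    by_cases ha0 : a = 0
    · refine ⟨0, 0, 1, Submodule.zero_mem _, SetLike.one_mem_graded 𝒜, one_ne_zero, ?_⟩
      rw [ha0, map_zero, zero_div, inv_zero, zero_div]
    · exact ⟨n, b, a, hb, ha, ha0, by rw [inv_div]⟩

theorem mem_projField (z : FractionRing A) : z ∈ projField 𝒜 ↔ ∃ (n : ℕ) (a b : A), a ∈ 𝒜 n ∧
    b ∈ 𝒜 n ∧ b ≠ 0 ∧ z = algebraMap A (FractionRing A) a / algebraMap A (FractionRing A) b :=
  Iff.rfl

end Pool.Agent.MP_b525bf_ag_GU
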