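import Pool.Agent.Lib.MP_b525bf_ag_E.PAS
import Pool.Agent.Lib.MP_b525bf_ag_GU.PDF
import Pool.Agent.Lib.LU2G.Defs

/-!
# The function field of a projective scheme and its automorphisms
-/

set_option autoImplicit false

open AlgebraicGeometry CategoryTheory HomogeneousLocalization

namespace Pool.Agent.MP_b525bf_ag_GU

open Pool.Agent.MP_b525bf_ag_E
open Pool.Agent.LU2G (consts)

variable {k A : Type} [Field k] [CommRing A] [IsDomain A] [Algebra k A]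
  (𝒜 : ℕ → Submodule k A) [GradedAlgebra 𝒜]

/-- The generic point of the cone over `Proj A`. -/
private noncomputable def zeta {f : A} (hf : f ∈ 𝒜 1) (hf0 : f ≠ 0) :
    Spec (CommRingCat.of (FractionRing A)) ⟶ Proj 𝒜 :=
  Spec.map (CommRingCat.ofHom (toFrac 𝒜 hf0)) ≫ Proj.awayι 𝒜 f hf one_pos

private theorem toFrac_awayMap {f g x : A} (hf : f ∈ 𝒜 1) (hg : g ∈ 𝒜 1) (hf0 : f ≠ 0)
    (hg0 : g ≠ 0) (hx0 : x ≠ 0) (hx : x = f * g) :
    (toFrac 𝒜 hx0).comp (awayMap 𝒜 hg hx) = toFrac 𝒜 hf0 := by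
  have hinj := IsFractionRing.injective A (FractionRing A)
  ext z
  obtain ⟨n, a, ha, rfl⟩ := Away.mk_surjective 𝒜 hf z
  rw [RingHom.comp_apply, awayMap_mk, toFrac_mk, toFrac_mk, hx, map_mul, map_mul, map_pow,
    mul_pow, mul_div_mul_right _ _ (pow_ne_zero n ((map_ne_zero_iff _ hinj).2 hg0))]

private theorem zeta_mul {f g : A} (hf : f ∈ 𝒜 1) (hg : g ∈ 𝒜 1) (hf0 : f ≠ 0) (hg0 : g ≠ 0) :
    zeta 𝒜 hf hf0 = Spec.map (CommRingCat.ofHom (toFrac 𝒜 (mul_ne_zero hf0 hg0))) ≫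
      Proj.awayι 𝒜 (f * g) (SetLike.mul_mem_graded hf hg) (by norm_num) := by
  rw [zeta, ← toFrac_awayMap 𝒜 hf hg hf0 hg0 (mul_ne_zero hf0 hg0) rfl, CommRingCat.ofHom_comp,
    Spec.map_comp, Category.assoc]
  congr 1
  exact Proj.SpecMap_awayMap_awayι 𝒜 hf one_pos hg rfl

private theorem awayι_eq {x y : A} (h : x = y) {d : ℕ} (hx : x ∈ 𝒜 d) (hy : y ∈ 𝒜 d) (hd : 0 < d)
    (hx0 : x ≠ 0) (hy0 : y ≠ 0) :
    Spec.map (CommRingCat.ofHom (toFrac 𝒜 hx0)) ≫ Proj.awayι 𝒜 x hx hd =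
      Spec.map (CommRingCat.ofHom (toFrac 𝒜 hy0)) ≫ Proj.awayι 𝒜 y hy hd := by
  subst h
  rfl

private theorem zeta_eq {f g : A} (hf : f ∈ 𝒜 1) (hg : g ∈ 𝒜 1) (hf0 : f ≠ 0) (hg0 : g ≠ 0) :
    zeta 𝒜 hf hf0 = zeta 𝒜 hg hg0 := by
  rw [zeta_mul 𝒜 hf hg hf0 hg0, zeta_mul 𝒜 hg hf hg0 hf0]
  exact awayι_eq 𝒜 (mul_comm f g) _ _ _ _ _

/-- An automorphism of the graded algebra as a homomorphism of graded rings. -/
private def grHom (σ : A ≃ₐ[k] A) (hσ : ∀ (d : ℕ), ∀ a ∈ 𝒜 d, σ a ∈ 𝒜 d) : 𝒜 →+*ᵍ 𝒜 where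
  toRingHom := (σ : A →+* A)
  map_mem := fun {d a} ha => hσ d a ha

omit [IsDomain A] in
private theorem irr_le (σ τ : A ≃ₐ[k] A) (hσ : ∀ (d : ℕ), ∀ a ∈ 𝒜 d, σ a ∈ 𝒜 d)
    (hτ : ∀ (d : ℕ), ∀ a ∈ 𝒜 d, τ a ∈ 𝒜 d) (h : ∀ a, σ (τ a) = a) :
    HomogeneousIdeal.irrelevant 𝒜 ≤ (HomogeneousIdeal.irrelevant 𝒜).map (grHom 𝒜 σ hσ) := by
  intro x hx
  have h1 : τ x ∈ HomogeneousIdeal.irrelevant 𝒜 := by
    classical
    rw [HomogeneousIdeal.mem_irrelevant_iff] at hx ⊢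
    have h2 := DirectSum.sum_support_decompose 𝒜 x
    rw [← h2, map_sum, map_sum]
    refine Finset.sum_eq_zero fun i _ => ?_
    rw [GradedRing.proj_apply]
    by_cases hi : i = 0
    · subst hi
      rw [GradedRing.proj_apply] at hx
      rw [hx, map_zero, DirectSum.decompose_zero]
      rfl
    · exact DirectSum.decompose_of_mem_ne 𝒜 (hτ i _ (SetLike.coe_mem _)) hi
  have h2 : (grHom 𝒜 σ hσ) (τ x) ∈ ((HomogeneousIdeal.irrelevant 𝒜).map (grHom 𝒜 σ hσ)).toIdeal := by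
    rw [HomogeneousIdeal.toIdeal_map]
    exact Ideal.mem_map_of_mem _ h1
  have h3 : (grHom 𝒜 σ hσ) (τ x) = x := h x
  rw [h3] at h2
  exact h2

omit [IsDomain A] in
private theorem map_comp_eq (σ τ : A ≃ₐ[k] A) (hσ : ∀ (d : ℕ), ∀ a ∈ 𝒜 d, σ a ∈ 𝒜 d)
    (hτ : ∀ (d : ℕ), ∀ a ∈ 𝒜 d, τ a ∈ 𝒜 d) (h : ∀ a, σ (τ a) = a) (h' : ∀ a, τ (σ a) = a) :
    Proj.map (grHom 𝒜 σ hσ) (irr_le 𝒜 σ τ hσ hτ h) ≫
      Proj.map (grHom 𝒜 τ hτ) (irr_le 𝒜 τ σ hτ hσ h') = 𝟙 _ := by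
  rw [← Proj.map_comp]
  have h1 : (grHom 𝒜 σ hσ).comp (grHom 𝒜 τ hτ) = .id 𝒜 := by
    ext a
    exact h a
  have h2 : ∀ (g : 𝒜 →+*ᵍ 𝒜) (hg : g = .id 𝒜)
      (hg' : HomogeneousIdeal.irrelevant 𝒜 ≤ (HomogeneousIdeal.irrelevant 𝒜).map g),
      Proj.map g hg' = 𝟙 _ := by
    rintro g rfl hg'
    exact Proj.map_id
  exact h2 _ h1 _

private theorem exists_alpha (σ : A ≃ₐ[k] A) (hσ : ∀ (d : ℕ), ∀ a ∈ 𝒜 d, σ a ∈ 𝒜 d)
    (hi : HomogeneousIdeal.irrelevant 𝒜 ≤ (HomogeneousIdeal.irrelevant 𝒜).map (grHom 𝒜 σ hσ))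
    (s : FractionRing A ≃+* FractionRing A)
    (hs : ∀ a, s (algebraMap A (FractionRing A) a) = algebraMap A (FractionRing A) (σ a))
    {f : A} (hf : f ∈ 𝒜 1) (hf0 : f ≠ 0) (hσf0 : σ f ≠ 0) :
    ∃ α : Away 𝒜 f →+* Away 𝒜 (σ f),
      Proj.awayι 𝒜 (σ f) (hσ 1 f hf) one_pos ≫ Proj.map (grHom 𝒜 σ hσ) hi =
        Spec.map (CommRingCat.ofHom α) ≫ Proj.awayι 𝒜 f hf one_pos ∧
      ∀ z, toFrac 𝒜 hσf0 (α z) = s (toFrac 𝒜 hf0 z) := by
  have h1 := Proj.awayι_comp_map (grHom 𝒜 σ hσ) hi one_pos f hf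
  obtain ⟨α, hα⟩ : ∃ α : Away 𝒜 f →+* Away 𝒜 (σ f), α = Away.map (grHom 𝒜 σ hσ) f := ⟨_, rfl⟩
  have h2 : Proj.awayι 𝒜 (σ f) (hσ 1 f hf) one_pos ≫ Proj.map (grHom 𝒜 σ hσ) hi =
      Spec.map (CommRingCat.ofHom α) ≫ Proj.awayι 𝒜 f hf one_pos := by
    rw [hα]
    exact h1
  have hαm : ∀ (n : ℕ) (a : A) (ha : a ∈ 𝒜 (n • 1)),
      α (Away.mk 𝒜 hf n a ha) = Away.mk 𝒜 (hσ 1 f hf) n (σ a) (hσ _ a ha) := by
    intro n a ha
    rw [hα]
    exact Away.map_mk (grHom 𝒜 σ hσ) f hf n a ha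
  refine ⟨α, h2, fun z => ?_⟩
  obtain ⟨n, a, ha, rfl⟩ := Away.mk_surjective 𝒜 hf z
  rw [hαm, toFrac_mk, toFrac_mk, ← hs, ← hs, ← map_pow, ← map_div₀]

/-- The rings of the open sets `D₊(f)` in the function field. -/
private noncomputable def psi [IsIntegral (Proj 𝒜)] {f : A} [Nonempty (Proj.basicOpen 𝒜 f)] :
    Away 𝒜 f →+* (Proj 𝒜).functionField :=
  ((Proj 𝒜).germToFunctionField (Proj.basicOpen 𝒜 f)).hom.comp (Proj.awayToSection 𝒜 f).hom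

private theorem nonempty_basicOpen [IsIntegral (Proj 𝒜)] {f : A} (hf : f ∈ 𝒜 1) (hf0 : f ≠ 0) :
    Nonempty (Proj.basicOpen 𝒜 f) :=
  ⟨⟨PIN.genPt 𝒜 hf hf0, by
    change f ∉ (⊥ : HomogeneousIdeal 𝒜)
    rw [← HomogeneousIdeal.mem_iff, HomogeneousIdeal.toIdeal_bot, Ideal.mem_bot]
    exact hf0⟩⟩

private theorem gen_eq [IsIntegral (Proj 𝒜)] {f : A} (hf : f ∈ 𝒜 1)
    [Nonempty (Proj.basicOpen 𝒜 f)] :
    (Proj 𝒜).fromSpecStalk (genericPoint (Proj 𝒜)) =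
      Spec.map (CommRingCat.ofHom (psi 𝒜 (f := f))) ≫ Proj.awayι 𝒜 f hf one_pos := by
  have hU := Proj.isAffineOpen_basicOpen 𝒜 f hf one_pos
  have hx : genericPoint (Proj 𝒜) ∈ Proj.basicOpen 𝒜 f :=
    ((genericPoint_spec (Proj 𝒜)).mem_open_set_iff (Proj.basicOpen 𝒜 f).isOpen).mpr
      (by simpa using ‹Nonempty (Proj.basicOpen 𝒜 f)›)
  rw [← hU.fromSpecStalk_eq_fromSpecStalk hx, IsAffineOpen.fromSpecStalk, PAS.fromSpec_eq 𝒜 hf,
    ← Category.assoc, ← Spec.map_comp]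
  rfl

/-- The homomorphism of the ring of the elements of degree zero to the function field. -/
noncomputable def consts₀ [IsIntegral (Proj 𝒜)] : 𝒜 0 →+* (Proj 𝒜).functionField :=
  (Spec.preimage ((Proj 𝒜).fromSpecStalk (genericPoint (Proj 𝒜)) ≫ Proj.toSpecZero 𝒜)).hom

/-- The embedding of the function field of the projective scheme in the field of fractions of the
graded algebra. -/
theorem exists_embedding (hne : 𝒜 1 ≠ ⊥) [IsIntegral (Proj 𝒜)] :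
    ∃ j : (Proj 𝒜).functionField →+* FractionRing A,
      (∀ z, z ∈ Set.range j ↔ z ∈ projField 𝒜) ∧
      (∀ c : k, j (consts (projTo 𝒜) c) = algebraMap k (FractionRing A) c) ∧
      (∀ c : 𝒜 0, j (consts₀ 𝒜 c) = algebraMap A (FractionRing A) c) ∧
      ∀ (σ : A ≃ₐ[k] A), (∀ (d : ℕ), ∀ a ∈ 𝒜 d, σ a ∈ 𝒜 d) →
        (∀ (d : ℕ), ∀ a ∈ 𝒜 d, σ.symm a ∈ 𝒜 d) →
        ∀ s' : FractionRing A ≃+* FractionRing A,
          (∀ a, s' (algebraMap A (FractionRing A) a) = algebraMap A (FractionRing A) (σ a)) →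
          ∃ (s : (Proj 𝒜).functionField ≃+* (Proj 𝒜).functionField) (a : Proj 𝒜 ⟶ Proj 𝒜),
            IsIso a ∧ a ≫ projTo 𝒜 = projTo 𝒜 ∧
            (Proj 𝒜).fromSpecStalk (genericPoint (Proj 𝒜)) ≫ a =
              Spec.map (CommRingCat.ofHom (s : (Proj 𝒜).functionField →+*
                (Proj 𝒜).functionField)) ≫ (Proj 𝒜).fromSpecStalk (genericPoint (Proj 𝒜)) ∧
            ∀ x, j (s x) = s' (j x) := by
  classical
  have hinj := IsFractionRing.injective A (FractionRing A)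
  obtain ⟨f₀, hf₀, hf₀0⟩ := Submodule.exists_mem_ne_zero_of_ne_bot hne
  -- the embedding
  have hne₀ := nonempty_basicOpen 𝒜 hf₀ hf₀0
  have hU := Proj.isAffineOpen_basicOpen 𝒜 f₀ hf₀ one_pos
  have hfrac := functionField_isFractionRing_of_isAffineOpen (Proj 𝒜) _ hU
  have hiso := PAS.isIso_awayToSection 𝒜 hf₀
  have hbij : Function.Bijective (Proj.awayToSection 𝒜 f₀).hom :=
    ConcreteCategory.bijective_of_isIso (Proj.awayToSection 𝒜 f₀)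
  let e : Away 𝒜 f₀ ≃+* Γ(Proj 𝒜, Proj.basicOpen 𝒜 f₀) := RingEquiv.ofBijective _ hbij
  have he : ∀ z, e z = (Proj.awayToSection 𝒜 f₀).hom z := fun _ => rfl
  have hτ : Function.Injective ((toFrac 𝒜 hf₀0).comp e.symm.toRingHom) :=
    (toFrac_injective 𝒜 hf₀0).comp e.symm.injective
  let j : (Proj 𝒜).functionField →+* FractionRing A := IsFractionRing.lift hτ
  have hj₀ : ∀ z, j (psi 𝒜 z) = toFrac 𝒜 hf₀0 z := by
    intro z
    have h1 : j (algebraMap Γ(Proj 𝒜, Proj.basicOpen 𝒜 f₀) (Proj 𝒜).functionField (e z)) =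
        ((toFrac 𝒜 hf₀0).comp e.symm.toRingHom) (e z) := IsFractionRing.lift_algebraMap hτ (e z)
    have h2 : ((toFrac 𝒜 hf₀0).comp e.symm.toRingHom) (e z) = toFrac 𝒜 hf₀0 z :=
      congrArg (toFrac 𝒜 hf₀0) (e.symm_apply_apply z)
    rw [h2] at h1
    exact h1
  have hjη : Spec.map (CommRingCat.ofHom j) ≫ (Proj 𝒜).fromSpecStalk (genericPoint (Proj 𝒜)) =
      zeta 𝒜 hf₀ hf₀0 := by
    rw [gen_eq 𝒜 hf₀, ← Category.assoc, ← Spec.map_comp, ← CommRingCat.ofHom_comp, zeta]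
    congr 3
    ext z
    exact hj₀ z
  have hfr : ∀ x : (Proj 𝒜).functionField, ∃ a b : Away 𝒜 f₀, b ≠ 0 ∧ x = psi 𝒜 a / psi 𝒜 b := by
    intro x
    obtain ⟨a, b, hb, hab⟩ :=
      IsFractionRing.div_surjective (A := Γ(Proj 𝒜, Proj.basicOpen 𝒜 f₀)) x
    refine ⟨e.symm a, e.symm b, ?_, ?_⟩
    · exact (map_ne_zero_iff _ e.symm.injective).2 (nonZeroDivisors.ne_zero hb)
    · have h1 : ∀ c, psi 𝒜 (e.symm c) =
          algebraMap Γ(Proj 𝒜, Proj.basicOpen 𝒜 f₀) (Proj 𝒜).functionField c := by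
        intro c
        have h2 : (Proj.awayToSection 𝒜 f₀).hom (e.symm c) = c := e.apply_symm_apply c
        exact congrArg ((Proj 𝒜).germToFunctionField (Proj.basicOpen 𝒜 f₀)).hom h2
      rw [h1, h1, hab]
  have hf₀K : algebraMap A (FractionRing A) f₀ ≠ 0 := (map_ne_zero_iff _ hinj).2 hf₀0
  have hrange : ∀ z, z ∈ Set.range j ↔ z ∈ projField 𝒜 := by
    refine fun z => ⟨?_, ?_⟩
    · rintro ⟨x, rfl⟩
      obtain ⟨a, b, hb, rfl⟩ := hfr x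
      obtain ⟨n, a, ha, rfl⟩ := Away.mk_surjective 𝒜 hf₀ a
      obtain ⟨m, b, hb', rfl⟩ := Away.mk_surjective 𝒜 hf₀ b
      have hz : ∀ (n : ℕ) (a : A) (ha : a ∈ 𝒜 (n • 1)),
          toFrac 𝒜 hf₀0 (Away.mk 𝒜 hf₀ n a ha) ∈ projField 𝒜 := by
        intro n a ha
        rw [toFrac_mk]
        refine ⟨n, a, f₀ ^ n, by simpa using ha, ?_, pow_ne_zero n hf₀0, by rw [map_pow]⟩
        have h1 := SetLike.pow_mem_graded (A := 𝒜) n hf₀
        simpa using h1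
      rw [map_div₀, hj₀, hj₀]
      exact (projField 𝒜).div_mem (hz _ _ _) (hz _ _ _)
    · rintro ⟨n, a, b, ha, hb, hb0, rfl⟩
      refine ⟨psi 𝒜 (Away.mk 𝒜 hf₀ n a (by simpa using ha)) /
        psi 𝒜 (Away.mk 𝒜 hf₀ n b (by simpa using hb)), ?_⟩
      rw [map_div₀, hj₀, hj₀, toFrac_mk, toFrac_mk, div_div_div_cancel_right₀ (pow_ne_zero n hf₀K)]
  have hconst : Spec.map (CommRingCat.ofHom (consts (projTo 𝒜))) =
      (Proj 𝒜).fromSpecStalk (genericPoint (Proj 𝒜)) ≫ projTo 𝒜 := by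
    rw [consts, CommRingCat.ofHom_hom, Spec.map_preimage]
  have hjc : ∀ c : k, j (consts (projTo 𝒜) c) = algebraMap k (FractionRing A) c := by
    intro c
    have h1 : Spec.map (CommRingCat.ofHom (j.comp (consts (projTo 𝒜)))) =
        Spec.map (CommRingCat.ofHom (algebraMap k (FractionRing A))) := by
      rw [CommRingCat.ofHom_comp, Spec.map_comp, hconst, ← Category.assoc, hjη, zeta, projTo,
        Category.assoc, Proj.awayι_toSpecZero_assoc, ← Spec.map_comp, ← Spec.map_comp]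
      congr 1
      ext c
      have h3 := PAS.toFrac_zero 𝒜 hf₀0 (algebraMap k (𝒜 0) c)
      refine Eq.trans h3 (Eq.trans ?_ (IsScalarTower.algebraMap_apply k A (FractionRing A) c).symm)
      rfl
    have h2 := congrArg CommRingCat.Hom.hom (Spec.map_injective h1)
    exact RingHom.congr_fun h2 c
  have hjc₀ : ∀ c : 𝒜 0, j (consts₀ 𝒜 c) = algebraMap A (FractionRing A) c := by
    intro c
    have hconst₀ : Spec.map (CommRingCat.ofHom (consts₀ 𝒜)) =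
        (Proj 𝒜).fromSpecStalk (genericPoint (Proj 𝒜)) ≫ Proj.toSpecZero 𝒜 := by
      rw [consts₀, CommRingCat.ofHom_hom, Spec.map_preimage]
    have h1 : Spec.map (CommRingCat.ofHom (j.comp (consts₀ 𝒜))) =
        Spec.map (CommRingCat.ofHom ((algebraMap A (FractionRing A)).comp
          (algebraMap (𝒜 0) A))) := by
      rw [CommRingCat.ofHom_comp, Spec.map_comp, hconst₀, ← Category.assoc, hjη, zeta,
        Category.assoc, Proj.awayι_toSpecZero, ← Spec.map_comp]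
      congr 1
      ext c
      exact PAS.toFrac_zero 𝒜 hf₀0 c
    have h2 := congrArg CommRingCat.Hom.hom (Spec.map_injective h1)
    exact RingHom.congr_fun h2 c
  have hjψ : ∀ {g : A} (hg : g ∈ 𝒜 1) (hg0 : g ≠ 0) [Nonempty (Proj.basicOpen 𝒜 g)],
      ∀ z, j (psi 𝒜 (f := g) z) = toFrac 𝒜 hg0 z := by
    intro g hg hg0 _ z
    have h1 : Spec.map (CommRingCat.ofHom (j.comp (psi 𝒜 (f := g)))) ≫
        Proj.awayι 𝒜 g hg one_pos =
          Spec.map (CommRingCat.ofHom (toFrac 𝒜 hg0)) ≫ Proj.awayι 𝒜 g hg one_pos := by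
      rw [CommRingCat.ofHom_comp, Spec.map_comp, Category.assoc, ← gen_eq 𝒜 hg, hjη]
      exact zeta_eq 𝒜 hf₀ hg hf₀0 hg0
    rw [cancel_mono] at h1
    have h2 := congrArg CommRingCat.Hom.hom (Spec.map_injective h1)
    exact RingHom.congr_fun h2 z
  refine ⟨j, hrange, hjc, hjc₀, fun σ hσ hσ' s' hs' => ?_⟩
  have hsym : ∀ a, s'.symm (algebraMap A (FractionRing A) a) =
      algebraMap A (FractionRing A) (σ.symm a) := by
    intro a
    rw [RingEquiv.symm_apply_eq, hs', AlgEquiv.apply_symm_apply]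
  have hmove : ∀ (τ : A ≃ₐ[k] A), (∀ (d : ℕ), ∀ a ∈ 𝒜 d, τ a ∈ 𝒜 d) →
      ∀ t : FractionRing A ≃+* FractionRing A,
        (∀ a, t (algebraMap A (FractionRing A) a) = algebraMap A (FractionRing A) (τ a)) →
        ∀ x, ∃ y, j y = t (j x) := by
    intro τ hτ' t ht x
    obtain ⟨n, a, b, ha, hb, hb0, hab⟩ := (hrange _).1 ⟨x, rfl⟩
    refine (hrange _).2 ⟨n, τ a, τ b, hτ' _ _ ha, hτ' _ _ hb, (map_ne_zero_iff _ τ.injective).2 hb0,
      ?_⟩
    rw [hab, map_div₀, ht, ht]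
  choose F hF using hmove σ hσ s' hs'
  choose G hG using hmove σ.symm hσ' s'.symm hsym
  let s : (Proj 𝒜).functionField ≃+* (Proj 𝒜).functionField :=
    { toFun := F
      invFun := G
      left_inv := fun x => j.injective (by rw [hG, hF, RingEquiv.symm_apply_apply])
      right_inv := fun x => j.injective (by rw [hF, hG, RingEquiv.apply_symm_apply])
      map_mul' := fun x y => j.injective (by rw [hF, map_mul, map_mul, map_mul, hF, hF])
      map_add' := fun x y => j.injective (by rw [hF, map_add, map_add, map_add, hF, hF]) }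
  have hs : ∀ x, j (s x) = s' (j x) := hF
  have hi := irr_le 𝒜 σ σ.symm hσ hσ' (fun a => σ.apply_symm_apply a)
  have hi' := irr_le 𝒜 σ.symm σ hσ' hσ (fun a => σ.symm_apply_apply a)
  have hσf0 : σ f₀ ≠ 0 := (map_ne_zero_iff _ σ.injective).2 hf₀0
  have hne₁ := nonempty_basicOpen 𝒜 (hσ 1 f₀ hf₀) hσf0
  obtain ⟨α, hα1, hα2⟩ := exists_alpha 𝒜 σ hσ hi s' hs' hf₀ hf₀0 hσf0
  have hηa : (Proj 𝒜).fromSpecStalk (genericPoint (Proj 𝒜)) ≫ Proj.map (grHom 𝒜 σ hσ) hi =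
      Spec.map (CommRingCat.ofHom (s : (Proj 𝒜).functionField →+*
        (Proj 𝒜).functionField)) ≫ (Proj 𝒜).fromSpecStalk (genericPoint (Proj 𝒜)) := by
    conv_lhs => rw [gen_eq 𝒜 (hσ 1 f₀ hf₀), Category.assoc, hα1, ← Category.assoc,
      ← Spec.map_comp, ← CommRingCat.ofHom_comp]
    conv_rhs => rw [gen_eq 𝒜 hf₀, ← Category.assoc, ← Spec.map_comp, ← CommRingCat.ofHom_comp]
    congr 3
    ext z
    apply j.injective
    have h1 : j (psi 𝒜 (f := σ f₀) (α z)) = s' (toFrac 𝒜 hf₀0 z) := by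
      rw [hjψ (hσ 1 f₀ hf₀) hσf0, hα2]
    have h2 : j (s (psi 𝒜 (f := f₀) z)) = s' (toFrac 𝒜 hf₀0 z) := by
      rw [hs, hj₀]
    exact h1.trans h2.symm
  refine ⟨s, Proj.map (grHom 𝒜 σ hσ) hi, ?_, ?_, hηa, hs⟩
  · refine ⟨Proj.map (grHom 𝒜 σ.symm hσ') hi', ?_, ?_⟩
    · exact map_comp_eq 𝒜 σ σ.symm hσ hσ' (fun a => σ.apply_symm_apply a)
        (fun a => σ.symm_apply_apply a)
    · exact map_comp_eq 𝒜 σ.symm σ hσ' hσ (fun a => σ.symm_apply_apply a)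
        (fun a => σ.apply_symm_apply a)
  · have hdom : IsDominant ((Proj 𝒜).fromSpecStalk (genericPoint (Proj 𝒜))) := by
      refine ⟨?_⟩
      have h1 : genericPoint (Proj 𝒜) ∈
          Set.range ((Proj 𝒜).fromSpecStalk (genericPoint (Proj 𝒜))) := by
        rw [Scheme.range_fromSpecStalk]
        exact specializes_rfl
      exact Dense.mono (Set.singleton_subset_iff.2 h1)
        (dense_iff_closure_eq.2 (genericPoint_spec (Proj 𝒜)))
    refine ext_of_isDominant ((Proj 𝒜).fromSpecStalk (genericPoint (Proj 𝒜))) ?_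
    rw [← Category.assoc, hηa, Category.assoc, ← hconst, ← Spec.map_comp, ← CommRingCat.ofHom_comp]
    congr 2
    ext c
    apply j.injective
    have h1 : j (s (consts (projTo 𝒜) c)) = j (consts (projTo 𝒜) c) := by
      rw [hs, hjc, IsScalarTower.algebraMap_apply k A (FractionRing A), hs', AlgEquiv.commutes]
    exact h1

end Pool.Agent.MP_b525bf_ag_GU
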