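import Pool.Agent.Lib.MP_b525bf_ag_GU.PJH
import Pool.Agent.Lib.MP_b525bf_ag_E.PIN

/-!
# Extension of the valuation rings of the projective scheme to the cone
-/

set_option autoImplicit false

namespace Pool.Agent.MP_b525bf_ag_GU

open Pool.Agent.MP_b525bf_ag_SG Pool.Agent.MP_b525bf_ag_ES

/-- Extension to a ring of polynomials. -/
theorem exists_ext_transcendental {K₀ K : Type} [Field K₀] [Field K] (j : K₀ →+* K) (l : K)
    (hl : ∀ P : Polynomial K₀, P.eval₂ j l = 0 → P = 0) (V : ValuationSubring K₀) :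
    ∃ V' : ValuationSubring K, l ∈ V' ∧ V'.comap j = V := by
  let φ : Polynomial V →+* K := Polynomial.eval₂RingHom (j.comp V.subtype) l
  have hφ : ∀ P, φ P = (P.map V.subtype).eval₂ j l := by
    intro P
    rw [Polynomial.eval₂_map]
    rfl
  have hinj : Function.Injective φ := by
    rw [injective_iff_map_eq_zero]
    intro P hP
    rw [hφ] at hP
    have h1 := hl _ hP
    exact (Polynomial.map_eq_zero_iff V.subtype_injective).1 h1
  let e : Polynomial V ≃+* φ.range :=
    RingEquiv.ofBijective φ.rangeRestrict ⟨fun P Q h => hinj (congrArg Subtype.val h),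
      φ.rangeRestrict_surjective⟩
  have he : ∀ P, (e P : K) = φ P := fun _ => rfl
  let J : Ideal (Polynomial V) := (IsLocalRing.maximalIdeal V).comap Polynomial.constantCoeff
  have hJ : J ≠ ⊤ := by
    have h1 : J.IsPrime := Ideal.comap_isPrime _ _
    exact h1.ne_top
  have hI : J.map (e : Polynomial V →+* φ.range) ≠ ⊤ := by
    intro h
    apply hJ
    have h1 := Ideal.comap_map_of_bijective (e : Polynomial V →+* φ.range) e.bijective (I := J)
    rw [← h1, h, Ideal.comap_top]
  obtain ⟨V', hV1, hV2⟩ := Ideal.image_subset_nonunits_valuationSubring _ hI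
  have hmem : ∀ x : V, j x ∈ V' := by
    intro x
    apply hV1
    refine ⟨Polynomial.C x, ?_⟩
    rw [hφ, Polynomial.map_C, Polynomial.eval₂_C]
    rfl
  refine ⟨V', ?_, ?_⟩
  · apply hV1
    refine ⟨Polynomial.X, ?_⟩
    rw [hφ, Polynomial.map_X, Polynomial.eval₂_X]
  · ext x
    rw [ValuationSubring.mem_comap]
    refine ⟨fun h => ?_, fun h => hmem ⟨x, h⟩⟩
    by_contra hx
    have hx0 : x ≠ 0 := by
      rintro rfl
      exact hx V.zero_mem
    have hinv : x⁻¹ ∈ V := (V.mem_or_inv_mem x).resolve_left hx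
    have hmax : (⟨x⁻¹, hinv⟩ : V) ∈ IsLocalRing.maximalIdeal V := by
      rw [IsLocalRing.mem_maximalIdeal, mem_nonunits_iff]
      intro hu
      obtain ⟨y, hy⟩ := hu.exists_right_inv
      have h1 : x⁻¹ * (y : K₀) = 1 := congrArg Subtype.val hy
      have h2 : (y : K₀) = x := by
        field_simp at h1
        exact h1
      exact hx (h2 ▸ y.2)
    have h3 : j x⁻¹ ∈ V'.nonunits := by
      apply hV2
      refine ⟨e (Polynomial.C ⟨x⁻¹, hinv⟩), ?_, ?_⟩
      · refine Ideal.mem_map_of_mem (e : Polynomial V →+* φ.range) ?_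
        rw [Ideal.mem_comap, Polynomial.constantCoeff_apply, Polynomial.coeff_C_zero]
        exact hmax
      · change φ _ = _
        rw [hφ, Polynomial.map_C, Polynomial.eval₂_C]
        rfl
    rw [ValuationSubring.mem_nonunits_iff] at h3
    have h4 : V'.valuation (j x) ≤ 1 := (V'.valuation_le_one_iff _).2 h
    have h5 : V'.valuation (j x) * V'.valuation (j x⁻¹) = 1 := by
      rw [← map_mul, ← map_mul, mul_inv_cancel₀ hx0, map_one, map_one]
    have h6 : V'.valuation (j x) * V'.valuation (j x⁻¹) < 1 := by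
      refine lt_of_le_of_lt (mul_le_mul_left h4 _) ?_
      rw [one_mul]
      exact h3
    rw [h5] at h6
    exact lt_irrefl _ h6

variable {k A : Type} [Field k] [CommRing A] [IsDomain A] [Algebra k A]
  (𝒜 : ℕ → Submodule k A) [GradedAlgebra 𝒜]

/-- A linear form is transcendental over the function field. -/
theorem transcendental_linear [Infinite k] {K₀ : Type} [Field K₀] (j : K₀ →+* FractionRing A)
    (hj : ∀ x, j x ∈ projField 𝒜) {l : A} (hl : l ∈ 𝒜 1) (hl0 : l ≠ 0) (P : Polynomial K₀)
    (hP : P.eval₂ j (algebraMap A (FractionRing A) l) = 0) : P = 0 := by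
  have hinj := IsFractionRing.injective A (FractionRing A)
  have hlK : algebraMap A (FractionRing A) l ≠ 0 := (map_ne_zero_iff _ hinj).2 hl0
  obtain ⟨h, hh⟩ := exists_homotheties (k := k) 𝒜
  have h1 : ∀ t : kˣ, (P.map j).IsRoot
      (algebraMap k (FractionRing A) t * algebraMap A (FractionRing A) l) := by
    intro t
    have h2 : onK h t (algebraMap A (FractionRing A) l) =
        algebraMap k (FractionRing A) t * algebraMap A (FractionRing A) l := by
      rw [onK_algebraMap, hh t 1 l hl, pow_one, Algebra.smul_def, map_mul,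
        ← IsScalarTower.algebraMap_apply k A (FractionRing A)]
    have h3 := Polynomial.hom_eval₂ P j ((onK h t : FractionRing A ≃ₐ[k] FractionRing A) :
      FractionRing A →+* FractionRing A) (algebraMap A (FractionRing A) l)
    rw [hP, map_zero] at h3
    have h4 : (((onK h t : FractionRing A ≃ₐ[k] FractionRing A) :
        FractionRing A →+* FractionRing A).comp j) = j := by
      ext x
      exact onK_projField 𝒜 hh t (j x) (hj x)
    have h5 : ((onK h t : FractionRing A ≃ₐ[k] FractionRing A) :
        FractionRing A →+* FractionRing A) (algebraMap A (FractionRing A) l) =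
        algebraMap k (FractionRing A) t * algebraMap A (FractionRing A) l := h2
    rw [h4, h5] at h3
    rw [Polynomial.IsRoot.def, Polynomial.eval_map]
    exact h3.symm
  have hinf : Infinite kˣ := infinite_units k
  have h6 : P.map j = 0 := by
    refine Polynomial.eq_zero_of_infinite_isRoot _ ?_
    refine (Set.infinite_range_of_injective (f := fun t : kˣ =>
      algebraMap k (FractionRing A) t * algebraMap A (FractionRing A) l) ?_).mono ?_
    · intro s t hst
      have h7 := mul_right_cancel₀ hlK hst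
      exact Units.ext ((algebraMap k (FractionRing A)).injective h7)
    · rintro _ ⟨t, rfl⟩
      exact h1 t
  exact (Polynomial.map_eq_zero j).1 h6

/-- The valuation rings of the function field of the projective scheme are induced by valuation
rings of the field of fractions of the cone that contain its algebra. -/
theorem exists_ext_cone [Infinite k] [Algebra.FiniteType k A]
    (hgen : Algebra.adjoin k ((𝒜 0 : Set A) ∪ 𝒜 1) = ⊤) (hne : 𝒜 1 ≠ ⊥) {K₀ : Type} [Field K₀]
    (j : K₀ →+* FractionRing A) (hj : ∀ z, z ∈ Set.range j ↔ z ∈ projField 𝒜)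
    (V : ValuationSubring K₀)
    (hk : ∀ c ∈ 𝒜 0, ∃ z ∈ V, j z = algebraMap A (FractionRing A) c) :
    ∃ V' : ValuationSubring (FractionRing A),
      (∀ a : A, algebraMap A (FractionRing A) a ∈ V') ∧ V'.comap j = V := by
  classical
  have hinj := IsFractionRing.injective A (FractionRing A)
  obtain ⟨T, hT, hTgen⟩ := Pool.Agent.MP_b525bf_ag_E.PIN.exists_gens hgen
  obtain ⟨f₀, hf₀, hf₀0⟩ := Submodule.exists_mem_ne_zero_of_ne_bot hne
  have hf₀K : algebraMap A (FractionRing A) f₀ ≠ 0 := (map_ne_zero_iff _ hinj).2 hf₀0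
  let S : Finset A := insert f₀ (T.filter (fun a => a ∈ 𝒜 1 ∧ a ≠ 0))
  have hS : ∀ a ∈ S, a ∈ 𝒜 1 ∧ a ≠ 0 := by
    intro a ha
    rcases Finset.mem_insert.1 ha with rfl | ha
    · exact ⟨hf₀, hf₀0⟩
    · exact (Finset.mem_filter.1 ha).2
  have hz : ∀ a : A, ∃ z : K₀, a ∈ 𝒜 1 → j z = algebraMap A (FractionRing A) a /
      algebraMap A (FractionRing A) f₀ := by
    intro a
    by_cases ha : a ∈ 𝒜 1
    · obtain ⟨z, hz⟩ := (hj (algebraMap A (FractionRing A) a / algebraMap A (FractionRing A) f₀)).2
        ⟨1, a, f₀, ha, hf₀, hf₀0, rfl⟩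
      exact ⟨z, fun _ => hz⟩
    · exact ⟨0, fun h => absurd h ha⟩
  choose z hz using hz
  have hz0 : ∀ a ∈ S, z a ≠ 0 := by
    intro a ha h
    have h1 := hz a (hS a ha).1
    rw [h, map_zero] at h1
    have h2 : algebraMap A (FractionRing A) a ≠ 0 := (map_ne_zero_iff _ hinj).2 (hS a ha).2
    exact div_ne_zero h2 hf₀K h1.symm
  obtain ⟨l, hl, hmax⟩ := Finset.exists_max_image S (fun a => V.valuation (z a))
    ⟨f₀, Finset.mem_insert_self _ _⟩
  obtain ⟨V', hV1, hV2⟩ := exists_ext_transcendental j (algebraMap A (FractionRing A) l)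
    (transcendental_linear 𝒜 j (fun x => (hj _).1 ⟨x, rfl⟩) (hS l hl).1 (hS l hl).2) V
  have hV : ∀ x ∈ V, j x ∈ V' := by
    intro x hx
    rw [← hV2, ValuationSubring.mem_comap] at hx
    exact hx
  have hVS : ∀ a ∈ S, algebraMap A (FractionRing A) a ∈ V' := by
    intro a ha
    have h1 : z a / z l ∈ V := by
      rw [← ValuationSubring.valuation_le_one_iff, map_div₀]
      exact div_le_one_of_le₀ (hmax a ha) zero_le
    have h2 : algebraMap A (FractionRing A) a = j (z a / z l) * algebraMap A (FractionRing A) l := by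
      have hlK : algebraMap A (FractionRing A) l ≠ 0 := (map_ne_zero_iff _ hinj).2 (hS l hl).2
      rw [map_div₀, hz a (hS a ha).1, hz l (hS l hl).1, div_div_div_cancel_right₀ hf₀K,
        div_mul_cancel₀ _ hlK]
    rw [h2]
    exact V'.mul_mem _ _ (hV _ h1) hV1
  refine ⟨V', fun a => ?_, hV2⟩
  have ha : a ∈ Algebra.adjoin k (T : Set A) := by
    rw [hTgen]
    exact Algebra.mem_top
  induction ha using Algebra.adjoin_induction with
  | mem x hx =>
    by_cases hx0 : x = 0
    · rw [hx0, map_zero]
      exact V'.zero_mem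
    · rcases hT hx with h | h
      · obtain ⟨y, hy, hyc⟩ := hk x h
        rw [← hyc]
        exact hV y hy
      · exact hVS x (Finset.mem_insert_of_mem (Finset.mem_filter.2 ⟨hx, h, hx0⟩))
  | algebraMap c =>
    obtain ⟨y, hy, hyc⟩ := hk _ (SetLike.algebraMap_mem_graded 𝒜 c)
    rw [← hyc]
    exact hV y hy
  | add x y _ _ hx hy =>
    rw [map_add]
    exact V'.add_mem _ _ hx hy
  | mul x y _ _ hx hy =>
    rw [map_mul]
    exact V'.mul_mem _ _ hx hy

end Pool.Agent.MP_b525bf_ag_GU
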