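import Pool.Agent.Lib.MP_b525bf_ag_GU.PJH
import Pool.Agent.Lib.MP_b525bf_ag_SG.RG

/-!
# Root group data of the product of a group and a one-dimensional torus
-/

set_option autoImplicit false

namespace Pool.Agent.MP_b525bf_ag_GU

open Pool.Agent.MP_b525bf_ag_R (up lo dg chi IsRat)
open Pool.Agent.MP_b525bf_ag_SG Pool.Agent.MP_b525bf_ag_ES
open scoped MatrixGroups

section Op

variable {ι : Type}

/-- Extension by zero. -/
private def op (f : ι → ℤ) : Option ι → ℤ := fun o => Option.elim o 0 f

private theorem op_none (f : ι → ℤ) : op f none = 0 := rfl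

private theorem op_some (f : ι → ℤ) (i : ι) : op f (some i) = f i := rfl

private theorem op_inj {f g : ι → ℤ} (h : op f = op g) : f = g := by
  ext i
  exact congrFun h (some i)

private theorem op_neg (f : ι → ℤ) : op (-f) = -op f := by
  ext o
  cases o with
  | none => simp [op_none]
  | some i => simp [op_some]

private theorem op_add (f g : ι → ℤ) : op (f + g) = op f + op g := by
  ext o
  cases o with
  | none => simp [op_none]
  | some i => simp [op_some]

private theorem op_sub (f g : ι → ℤ) : op (f - g) = op f - op g := by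
  ext o
  cases o with
  | none => simp [op_none]
  | some i => simp [op_some]

private theorem op_smul (c : ℤ) (f : ι → ℤ) : op (c • f) = c • op f := by
  ext o
  cases o with
  | none => simp [op_none]
  | some i => simp [op_some]

private theorem op_sum [Fintype ι] (f g : ι → ℤ) :
    ∑ o, op f o * op g o = ∑ i, f i * g i := by
  rw [Fintype.sum_option, op_none, zero_mul, zero_add]
  rfl

end Op

variable {k ι R G : Type} [Field k] [Fintype ι] [Group G]

/-- The torus of the product. -/
private def torP (T : (ι → kˣ) →* G) : (Option ι → kˣ) →* G × kˣ where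
  toFun t := (T fun i => t (some i), t none)
  map_one' := by
    have h1 : (fun i : ι => (1 : Option ι → kˣ) (some i)) = 1 := rfl
    rw [h1, map_one]
    rfl
  map_mul' t t' := by
    have h1 : (fun i : ι => (t * t') (some i)) = (fun i => t (some i)) * fun i => t' (some i) := rfl
    rw [h1, map_mul]
    rfl

private theorem chi_op (l : ι → ℤ) (t : Option ι → kˣ) :
    chi (op l) t = chi l fun i => t (some i) := by
  unfold Pool.Agent.MP_b525bf_ag_R.chi
  rw [Fintype.prod_option, op_none, zpow_zero, one_mul]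
  rfl

/-- Root group data of the product with a one-dimensional torus. -/
def prodRG (D : RG k ι R G) : RG k (Option ι) R (G × kˣ) where
  T := torP D.T
  φ α := (MonoidHom.inl G kˣ).comp (D.φ α)
  neg := D.neg
  root α := op (D.root α)
  co α := op (D.co α)
  μ := op D.μ
  sim := D.sim
  neg_neg := D.neg_neg
  neg_up α s := congrArg (fun g => ((g, 1) : G × kˣ)) (D.neg_up α s)
  root_neg α := by rw [D.root_neg, op_neg]
  co_neg α := by rw [D.co_neg, op_neg]
  μ_ne α := by
    rw [op_sum]
    exact D.μ_ne α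
  red := by
    intro α β h a b ha hb hab
    rw [op_sum] at h
    rw [← op_smul, ← op_smul] at hab
    exact D.red α β h a b ha hb (op_inj hab)
  co_btw := by
    intro γ δ β i j hi hj h
    rw [← op_smul, ← op_smul, ← op_add] at h
    obtain ⟨a, b, c, ha, hb, hc, h1⟩ := D.co_btw γ δ β i j hi hj (op_inj h)
    refine ⟨a, b, c, ha, hb, hc, ?_⟩
    rw [← op_smul, ← op_smul, ← op_smul, ← op_add, h1]
  φ_dg := by
    intro α t
    refine Prod.ext ?_ ?_
    · exact D.φ_dg α t
    · change (1 : kˣ) = t ^ (0 : ℤ)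
      rw [zpow_zero]
  T_conj := by
    intro t α s
    refine Prod.ext ?_ ?_
    · change D.T _ * D.φ α (up s) = D.φ α (up _) * D.T _
      rw [chi_op]
      exact D.T_conj _ α s
    · change t none * 1 = 1 * t none
      rw [mul_one, one_mul]
  comm := by
    intro γ δ s t h
    obtain ⟨h', hh', h1⟩ := D.comm γ δ s t h
    refine ⟨(h', 1), ?_, Prod.ext h1 ?_⟩
    · have h2 : MonoidHom.inl G kˣ h' ∈ (Subgroup.closure {g | ∃ β r, ∃ i j : ℕ, 0 < i ∧ 0 < j ∧
          D.root β = (i : ℤ) • D.root γ + (j : ℤ) • D.root δ ∧ g = D.φ β (up r)}).map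
          (MonoidHom.inl G kˣ) := Subgroup.mem_map_of_mem _ hh'
      rw [MonoidHom.map_closure] at h2
      refine Subgroup.closure_mono ?_ h2
      rintro _ ⟨g, ⟨β, r, i, j, hi, hj, hr, rfl⟩, rfl⟩
      refine ⟨β, r, i, j, hi, hj, ?_, rfl⟩
      rw [hr, op_add, op_smul, op_smul]
    · change (1 : kˣ) * 1 * 1 = 1 * 1
      rw [mul_one]
  sim_pos := by
    intro α hα
    rw [op_sum]
    exact D.sim_pos α hα
  sim_sub := by
    intro α hα γ hγ hne β i j hi hj h
    rw [op_sum] at hγ ⊢
    rw [← op_smul, ← op_smul, ← op_sub] at h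
    exact D.sim_sub α hα γ hγ hne β i j hi hj (op_inj h)
  gen := by
    intro H hT hφ
    have h1 : H.comap (MonoidHom.inl G kˣ) = ⊤ := by
      refine D.gen _ ?_ fun α hα g => hφ α hα g
      intro t
      have h2 := hT fun o => Option.elim o 1 t
      exact h2
    have h2 : ∀ t : kˣ, ((1 : G), t) ∈ H := by
      intro t
      have h3 := hT fun o => Option.elim o t fun _ => 1
      have h4 : torP D.T (fun o => Option.elim o t fun _ => 1) = ((1 : G), t) :=
        Prod.ext (map_one D.T) rfl
      rw [h4] at h3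
      exact h3
    refine eq_top_iff.2 fun x _ => ?_
    have h5 : (x.1, (1 : kˣ)) ∈ H := by
      have h6 : x.1 ∈ H.comap (MonoidHom.inl G kˣ) := by
        rw [h1]
        exact Subgroup.mem_top _
      exact h6
    have h7 := H.mul_mem h5 (h2 x.2)
    rwa [Prod.mk_mul_mk, mul_one, one_mul] at h7

private theorem prodRG_ht (D : RG k ι R G) (α : R) : (prodRG D).ht α = D.ht α :=
  op_sum D.μ (D.root α)

theorem mem_prodRG_B (D : RG k ι R G) {g : G} (hg : g ∈ D.B) : (g, (1 : kˣ)) ∈ (prodRG D).B := by
  have h1 : MonoidHom.inl G kˣ g ∈ D.B.map (MonoidHom.inl G kˣ) := Subgroup.mem_map_of_mem _ hg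
  unfold RG.B at h1
  rw [MonoidHom.map_closure] at h1
  refine Subgroup.closure_mono ?_ h1
  rintro _ ⟨g, hg | hg, rfl⟩
  · obtain ⟨t, rfl⟩ := hg
    exact Or.inl ⟨fun o => Option.elim o 1 t, rfl⟩
  · obtain ⟨α, s, hα, rfl⟩ := hg
    exact Or.inr ⟨α, s, by rwa [prodRG_ht], rfl⟩

theorem torus_mem_prodRG_B (D : RG k ι R G) (t : kˣ) : ((1 : G), t) ∈ (prodRG D).B := by
  refine Subgroup.subset_closure (Or.inl ⟨fun o => Option.elim o t fun _ => 1, ?_⟩)
  exact Prod.ext (map_one D.T).symm rfl

section Action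

variable {A : Type} [CommRing A] [Algebra k A] (𝒜 : ℕ → Submodule k A) [GradedAlgebra 𝒜]

/-- The automorphisms of the graded algebra commute with the homotheties. -/
theorem commute_homothety {h : kˣ →* (A ≃ₐ[k] A)}
    (hh : ∀ (t : kˣ) (d : ℕ), ∀ a ∈ 𝒜 d, h t a = (t : k) ^ d • a) (σ : A ≃ₐ[k] A)
    (hσ : ∀ (d : ℕ), ∀ a ∈ 𝒜 d, σ a ∈ 𝒜 d) (t : kˣ) : Commute σ (h t) := by
  refine AlgEquiv.ext fun a => ?_
  refine eq_of_homogeneous 𝒜 (((σ : A →+* A) : A →+ A).comp ((h t : A →+* A) : A →+ A))
    (((h t : A →+* A) : A →+ A).comp ((σ : A →+* A) : A →+ A)) ?_ a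
  intro d a ha
  change σ (h t a) = h t (σ a)
  rw [hh t d a ha, hh t d _ (hσ d a ha), map_smul]

variable (ρ : G →* (A ≃ₐ[k] A)) (h : kˣ →* (A ≃ₐ[k] A)) (hcomm : ∀ g t, Commute (ρ g) (h t))

/-- The action of the product. -/
def prodAct : G × kˣ →* (A ≃ₐ[k] A) := MonoidHom.noncommCoprod ρ h hcomm

omit [Fintype ι] in
theorem prodAct_apply (x : G × kˣ) (a : A) : prodAct ρ h hcomm x a = ρ x.1 (h x.2 a) := rfl

include 𝒜 in
theorem prodAct_rat (hh : ∀ (t : kˣ) (d : ℕ), ∀ a ∈ 𝒜 d, h t a = (t : k) ^ d • a) (D : RG k ι R G)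
    (hρ : D.Rat ρ) : (prodRG D).Rat (prodAct ρ h hcomm) := by
  classical
  constructor
  · intro α
    have h1 : (prodAct ρ h hcomm).comp ((prodRG D).φ α) = ρ.comp (D.φ α) := by
      ext g a
      change ρ (D.φ α g) (h 1 a) = ρ (D.φ α g) a
      rw [map_one]
      rfl
    rw [h1]
    exact hρ.sl α
  · intro a
    obtain ⟨S, c, hc⟩ := hρ.tor a
    have hsum : ∀ (x : A) (t : kˣ), h t x =
        ∑ i ∈ (DirectSum.decompose 𝒜 x).support, (t : k) ^ i • (DirectSum.decompose 𝒜 x i : A) := by
      intro x t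
      conv_lhs => rw [← DirectSum.sum_support_decompose 𝒜 x, map_sum]
      exact Finset.sum_congr rfl fun i _ => hh t i _ (SetLike.coe_mem _)
    let N : Finset ℕ := S.biUnion fun l => (DirectSum.decompose 𝒜 (c l)).support
    have hsum' : ∀ l ∈ S, ∀ t : kˣ, h t (c l) =
        ∑ i ∈ N, (t : k) ^ i • (DirectSum.decompose 𝒜 (c l) i : A) := by
      intro l hl t
      rw [hsum]
      refine Finset.sum_subset (Finset.subset_biUnion_of_mem
        (fun l => (DirectSum.decompose 𝒜 (c l)).support) hl) fun i _ hi => ?_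
      rw [DFinsupp.notMem_support_iff] at hi
      rw [hi]
      exact smul_zero _
    let F : (ι → ℤ) × ℕ → (Option ι → ℤ) := fun q o => Option.elim o (q.2 : ℤ) q.1
    have hF : Function.Injective F := by
      intro q q' hq
      refine Prod.ext ?_ ?_
      · ext i
        exact congrFun hq (some i)
      · have h1 := congrFun hq none
        exact Nat.cast_injective (R := ℤ) h1
    refine ⟨(S ×ˢ N).image F, fun l => (DirectSum.decompose 𝒜 (c fun i => l (some i))
      (l none).toNat : A), fun t => ?_⟩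
    rw [Finset.sum_image fun x _ y _ hxy => hF hxy, Finset.sum_product]
    change ρ (D.T fun i => t (some i)) (h (t none) a) = _
    have h2 : ρ (D.T fun i => t (some i)) (h (t none) a) =
        h (t none) (ρ (D.T fun i => t (some i)) a) := by
      have h3 := hcomm (D.T fun i => t (some i)) (t none)
      exact congrArg (fun e : A ≃ₐ[k] A => e a) h3
    rw [h2, hc, map_sum]
    refine Finset.sum_congr rfl fun l hl => ?_
    rw [map_smul, hsum' l hl, Finset.smul_sum]
    refine Finset.sum_congr rfl fun i _ => ?_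
    have h4 : (chi (F (l, i)) t : k) = (chi l (fun i => t (some i)) : k) * (t none : k) ^ i := by
      unfold Pool.Agent.MP_b525bf_ag_R.chi
      rw [Fintype.prod_option]
      have h5 : F (l, i) none = (i : ℤ) := rfl
      have h6 : ∀ j, F (l, i) (some j) = l j := fun _ => rfl
      simp only [h5, h6]
      rw [zpow_natCast, Units.val_mul, Units.val_pow_eq_pow_val, mul_comm]
    rw [h4, smul_smul]
    rfl

include 𝒜 in
theorem prodAct_finite (hh : ∀ (t : kˣ) (d : ℕ), ∀ a ∈ 𝒜 d, h t a = (t : k) ^ d • a)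
    (hfin : ∀ a, Module.Finite k (Submodule.span k (Set.range fun g => ρ g a))) (a : A) :
    Module.Finite k (Submodule.span k (Set.range fun x => prodAct ρ h hcomm x a)) := by
  classical
  let E : Submodule k A := (DirectSum.decompose 𝒜 a).support.sup fun i =>
    Submodule.span k (Set.range fun g => ρ g (DirectSum.decompose 𝒜 a i : A))
  have hE : FiniteDimensional k E := by
    have h1 : ∀ i, FiniteDimensional k
        (Submodule.span k (Set.range fun g => ρ g (DirectSum.decompose 𝒜 a i : A))) :=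
      fun i => hfin _
    exact Submodule.finite_finset_sup _ _
  refine Submodule.finiteDimensional_of_le (S₂ := E) (Submodule.span_le.2 ?_)
  rintro _ ⟨x, rfl⟩
  change prodAct ρ h hcomm x a ∈ E
  have h2 : prodAct ρ h hcomm x a = ∑ i ∈ (DirectSum.decompose 𝒜 a).support,
      (x.2 : k) ^ i • ρ x.1 (DirectSum.decompose 𝒜 a i : A) := by
    rw [prodAct_apply]
    conv_lhs => rw [← DirectSum.sum_support_decompose 𝒜 a, map_sum, map_sum]
    refine Finset.sum_congr rfl fun i _ => ?_
    rw [hh x.2 i _ (SetLike.coe_mem _), map_smul]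
  rw [h2]
  refine Submodule.sum_mem _ fun i hi => Submodule.smul_mem _ _ ?_
  exact Finset.le_sup (f := fun i => Submodule.span k
    (Set.range fun g => ρ g (DirectSum.decompose 𝒜 a i : A))) hi (Submodule.subset_span ⟨x.1, rfl⟩)

variable [IsDomain A]

omit [Fintype ι] in
theorem onK_prodAct (x : G × kˣ) (z : FractionRing A) :
    onK (prodAct ρ h hcomm) x z = onK ρ x.1 (onK h x.2 z) := by
  have hinj := IsFractionRing.injective A (FractionRing A)
  obtain ⟨a, b, -, rfl⟩ := IsFractionRing.div_surjective (A := A) z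
  rw [map_div₀, map_div₀, map_div₀, onK_algebraMap, onK_algebraMap, onK_algebraMap,
    onK_algebraMap, onK_algebraMap, onK_algebraMap, prodAct_apply, prodAct_apply]

/-- The rational functions invariant under the Borel subgroup of the product. -/
theorem invField_prod_le [Infinite k] (hh : ∀ (t : kˣ) (d : ℕ), ∀ a ∈ 𝒜 d, h t a = (t : k) ^ d • a)
    (D : RG k ι R G) : invField ((prodRG D).B.map (prodAct ρ h hcomm)) ≤
      invField (D.B.map ρ) ⊓ projField 𝒜 := by
  intro z hz
  rw [mem_invField_iff] at hz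
  refine IntermediateField.mem_inf.2 ⟨(mem_invField_iff ρ D.B z).2 fun g hg => ?_,
    mem_projField_of_fixed 𝒜 hh z fun t => ?_⟩
  · have h1 := hz _ (mem_prodRG_B D hg)
    rw [onK_prodAct, map_one] at h1
    exact h1
  · have h1 := hz _ (torus_mem_prodRG_B D t)
    rw [onK_prodAct, map_one] at h1
    exact h1

end Action

end Pool.Agent.MP_b525bf_ag_GU
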