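import Pool.Agent.Lib.MP_b525bf_ag_GU.UDefs
import Pool.Agent.Lib.MP_b525bf_ag_GU.Final
import Pool.Agent.Lib.MP_b525bf_ag_GU.DIS

/-!
# Uniformization at finitely many valuations of schemes related to a group action
-/

set_option autoImplicit false

open AlgebraicGeometry CategoryTheory

namespace Pool.Agent.MP_b525bf_ag_GU

open Pool.Agent.LU2 Pool.Agent.LU2G Pool.Agent.LU2H Pool.Agent.MP_b525bf_ag_E
  Pool.Agent.MP_b525bf_ag_ES Pool.Agent.MP_b525bf_ag_SG
open Pool.Agent.LU1G (IsGen cpt incV SmoothAt)
open scoped MatrixGroups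

/-- A family of automorphisms of `X` and of a field that contains the function field of `X`. -/
structure Acts {k : Type} [Field k] {K : Type} [Field K] [Algebra k K] {Γ : Type}
    (t : Γ → K ≃+* K) (P : ValuationSubring K → Prop) {X : Scheme.{0}} [IsIntegral X]
    (f : X ⟶ Spec (CommRingCat.of k)) (j : X.functionField →+* K) : Prop where
  const : ∀ c : k, j (consts f c) = algebraMap k K c
  aut : ∀ g : Γ, ∃ (s : X.functionField ≃+* X.functionField) (a : X ⟶ X), IsIso a ∧ a ≫ f = f ∧
    X.fromSpecStalk (genericPoint X) ≫ a =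
      Spec.map (CommRingCat.ofHom (s : X.functionField →+* X.functionField)) ≫
        X.fromSpecStalk (genericPoint X) ∧ ∀ x, j (s x) = t g (j x)
  ext : ∀ (V : ValuationSubring X.functionField) (c : Spec (CommRingCat.of V) ⟶ X),
    Spec.map (CommRingCat.ofHom (algebraMap V X.functionField)) ≫ c =
      X.fromSpecStalk (genericPoint X) →
    ∃ V' : ValuationSubring K, P V' ∧ V'.comap j = V
  cen : ∀ V' : ValuationSubring K, P V' →
    ∃ c : Spec (CommRingCat.of (V'.comap j)) ⟶ X,
      Spec.map (CommRingCat.ofHom (algebraMap (V'.comap j) X.functionField)) ≫ c =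
        X.fromSpecStalk (genericPoint X)

/-- Valuation rings of defect at most one near given ones. -/
def Near (k : Type) [Field k] {K : Type} [Field K] [Algebra k K] {Γ : Type}
    (t : Γ → K ≃+* K) (P : ValuationSubring K → Prop) (S : Set K) : Prop :=
  ∀ (m : ℕ) (V : Fin m → ValuationSubring K), (∀ i, P (V i)) →
    ∃ W : Fin m → ValuationSubring K, (∀ i, P (W i)) ∧ (∀ i, DefLE k (W i) 1) ∧
      ∀ F : Finset K, (F : Set K) ⊆ S → ∃ g : Γ, ∀ i, ∀ z ∈ F, (z ∈ W i ↔ t g z ∈ V i)

/-- The theorem for schemes with automorphisms as in `Acts`. -/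
theorem uniformizable_of_acts (p : ℕ) [Fact p.Prime] (k : Type) [Field k] [PerfectField k]
    [CharP k p] {K : Type} [Field K] [Algebra k K] (hfinK : Algebra.trdeg k K < Cardinal.aleph0)
    {Γ : Type} (t : Γ → K ≃+* K) (P : ValuationSubring K → Prop)
    {X : Scheme.{0}} [IsIntegral X] (f : X ⟶ Spec (CommRingCat.of k)) [LocallyOfFiniteType f]
    [IsSeparated f] (j : X.functionField →+* K) (h : Acts t P f j)
    (hnear : Near k t P (Set.range j)) : UniformizableAtFinitelyMany f := by
  classical
  intro m V c hcV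
  let _ : Algebra k X.functionField := (consts f).toAlgebra
  let _ : Algebra X.functionField K := j.toAlgebra
  have htow : IsScalarTower k X.functionField K :=
    IsScalarTower.of_algebraMap_eq fun x => (h.const x).symm
  have hη : IsGen (K := X.functionField) (X.fromSpecStalk (genericPoint X)) := by
    refine ⟨RingEquiv.refl _, ?_⟩
    have h1 : (CommRingCat.ofHom (RingEquiv.refl X.functionField).toRingHom) =
        𝟙 (CommRingCat.of X.functionField) := rfl
    rw [h1, Spec.map_id]
    exact (Category.id_comp _).symm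
  have hηf : X.fromSpecStalk (genericPoint X) ≫ f =
      Spec.map (CommRingCat.ofHom (algebraMap k X.functionField)) := by
    have h1 : CommRingCat.ofHom (algebraMap k X.functionField) =
        Spec.preimage (X.fromSpecStalk (genericPoint X) ≫ f) := rfl
    rw [h1, Spec.map_preimage]
  choose V' hV'A hV' using fun i => h.ext (V i) (c i) (hcV i)
  obtain ⟨W', hW', hdef, hg⟩ := hnear m V' hV'A
  choose cW hcW using fun i => h.cen (W' i) (hW' i)
  have hW'c : ∀ i, ∀ z : k, algebraMap k X.functionField z ∈ (W' i).comap j := fun i z =>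
    const_mem f (X.fromSpecStalk (genericPoint X)) hηf _ (cW i) (hcW i) z
  have hW'k : ∀ i, ∀ z : k, algebraMap k K z ∈ W' i := by
    intro i z
    have h4 := hW'c i z
    rw [ValuationSubring.mem_comap] at h4
    have h5 : j (algebraMap k X.functionField z) = algebraMap k K z := h.const z
    rwa [h5] at h4
  have hfin : Algebra.trdeg k X.functionField < Cardinal.aleph0 :=
    trdeg_lt f (X.fromSpecStalk (genericPoint X)) hη hηf
  refine exists_modification_scheme k X.functionField X f (X.fromSpecStalk (genericPoint X)) hη hηf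
    m (fun i => (W' i).comap j) V cW hcW c hcV (fun i => ?_) (fun F => ?_)
  · refine allGood_of_defLE (realCaseR p Fact.out) hfin _ (hW'c i) ?_
    exact defLE_comap (IsScalarTower.toAlgHom k X.functionField K) (W' i) (hW'k i) hfinK (hdef i)
  · obtain ⟨g, hgF⟩ := hg (F.image j) (fun z hz => by
      obtain ⟨x, -, rfl⟩ := Finset.mem_image.1 (Finset.mem_coe.1 hz)
      exact ⟨x, rfl⟩)
    obtain ⟨s, a, ha, haf, hηa, hs⟩ := h.aut g
    refine ⟨s, a, ha, haf, hηa, fun i z hz => ?_⟩
    rw [ValuationSubring.mem_comap, hgF i (j z) (Finset.mem_image_of_mem _ hz), ← hs, ← hV' i,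
      ValuationSubring.mem_comap]

end Pool.Agent.MP_b525bf_ag_GU
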