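import Pool.Agent.Lib.MP_b525bf_ag_GU.PJA
import Pool.Agent.Lib.MP_b525bf_ag_GU.PJB
import Pool.Agent.Lib.MP_b525bf_ag_GU.PJC
import Pool.Agent.Lib.MP_b525bf_ag_GU.UNI

/-!
# Uniformization of projective varieties with a group action of complexity at most two
-/

set_option autoImplicit false

open AlgebraicGeometry CategoryTheory

namespace Pool.Agent.MP_b525bf_ag_GU

open Pool.Agent.LU2 Pool.Agent.LU2G Pool.Agent.MP_b525bf_ag_SG Pool.Agent.MP_b525bf_ag_ES
  Pool.Agent.MP_b525bf_ag_E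
open Pool.Agent.LU1G (incV)

variable {k A : Type} [Field k] [CommRing A] [IsDomain A] [Algebra k A] [Algebra.FiniteType k A]
  (𝒜 : ℕ → Submodule k A) [GradedAlgebra 𝒜]

omit [IsDomain A] [Algebra.FiniteType k A] in
theorem isSeparated_projTo : IsSeparated (projTo 𝒜) := by
  unfold projTo
  infer_instance

theorem locallyOfFiniteType_projTo : LocallyOfFiniteType (projTo 𝒜) := by
  have h1 : Algebra.FiniteType (𝒜 0) A := PIN.finiteType_over_zero (k := k) 𝒜
  have h2 : LocallyOfFiniteType (Spec.map (CommRingCat.ofHom (algebraMap k (𝒜 0)))) :=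
    (HasRingHomProperty.Spec_iff (P := @LocallyOfFiniteType)).2
      ((RingHom.finiteType_algebraMap).2 (PIN.finiteType_zero (k := k) 𝒜))
  unfold projTo
  infer_instance

theorem isProper_toSpecZero : IsProper (Proj.toSpecZero 𝒜) := by
  have h1 : Algebra.FiniteType (𝒜 0) A := PIN.finiteType_over_zero (k := k) 𝒜
  infer_instance

theorem acts_proj [Infinite k] (hgen : Algebra.adjoin k ((𝒜 0 : Set A) ∪ 𝒜 1) = ⊤)
    (hne : 𝒜 1 ≠ ⊥) [IsIntegral (Proj 𝒜)] {G : Type} [Group G] (ρ : G →* (A ≃ₐ[k] A))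
    (hG : ∀ (g : G) (d : ℕ), ∀ a ∈ 𝒜 d, ρ g a ∈ 𝒜 d) :
    ∃ j : (Proj 𝒜).functionField →+* FractionRing A,
      (∀ z, z ∈ Set.range j ↔ z ∈ projField 𝒜) ∧
      Acts (fun g => (onK ρ g : FractionRing A ≃+* FractionRing A))
        (fun V => ∀ a : A, algebraMap A (FractionRing A) a ∈ V) (projTo 𝒜) j := by
  have hprop := isProper_toSpecZero 𝒜
  obtain ⟨j, hj, hjc, hjc₀, haut⟩ := exists_embedding 𝒜 hne
  have hη₀ : (Proj 𝒜).fromSpecStalk (genericPoint (Proj 𝒜)) ≫ Proj.toSpecZero 𝒜 =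
      Spec.map (CommRingCat.ofHom (consts₀ 𝒜)) := by
    rw [consts₀, CommRingCat.ofHom_hom, Spec.map_preimage]
  refine ⟨j, hj, ⟨hjc, fun g => ?_, fun V c hc => ?_, fun V' hV' => ?_⟩⟩
  · refine haut (ρ g) (hG g) ?_ _ fun a => onK_algebraMap ρ g a
    intro d a ha
    have h1 : (ρ g).symm a = ρ g⁻¹ a := by
      rw [map_inv]
      rfl
    rw [h1]
    exact hG g⁻¹ d a ha
  · refine exists_ext_cone 𝒜 hgen hne j hj V fun x hx => ⟨consts₀ 𝒜 ⟨x, hx⟩, ?_, hjc₀ ⟨x, hx⟩⟩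
    obtain ⟨ψ, hψ⟩ := Spec.map_surjective (c ≫ Proj.toSpecZero 𝒜)
    have h1 : Spec.map (CommRingCat.ofHom ((algebraMap V (Proj 𝒜).functionField).comp ψ.hom)) =
        Spec.map (CommRingCat.ofHom (consts₀ 𝒜)) := by
      rw [← hη₀, ← hc, Category.assoc, ← hψ, ← Spec.map_comp]
      rfl
    have h2 := congrArg CommRingCat.Hom.hom (Spec.map_injective h1)
    have h3 : algebraMap V (Proj 𝒜).functionField (ψ.hom ⟨x, hx⟩) = consts₀ 𝒜 ⟨x, hx⟩ :=
      RingHom.congr_fun h2 ⟨x, hx⟩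
    rw [← h3]
    exact (ψ.hom ⟨x, hx⟩).2
  · have h1 : ∀ x : 𝒜 0, consts₀ 𝒜 x ∈ V'.comap j := by
      intro x
      rw [ValuationSubring.mem_comap, hjc₀]
      exact hV' _
    obtain ⟨c, -, hc⟩ := Pool.Agent.LU1G.lift_of_proper (Proj.toSpecZero 𝒜) (V'.comap j)
      (Spec.map (CommRingCat.ofHom ((consts₀ 𝒜).codRestrict (V'.comap j) h1)))
      ((Proj 𝒜).fromSpecStalk (genericPoint (Proj 𝒜))) (by
        rw [hη₀, ← Spec.map_comp]
        rfl)
    exact ⟨c, hc⟩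

/-- Uniformization of schemes that are projective over an affine scheme, with a group action of
complexity at most two. -/
theorem uniformizable_proj (p : ℕ) [Fact p.Prime] (k : Type) [Field k] [PerfectField k]
    [Infinite k] [CharP k p] (A : Type) [CommRing A] [IsDomain A] [Algebra k A]
    [Algebra.FiniteType k A] (𝒜 : ℕ → Submodule k A) [GradedAlgebra 𝒜]
    (hgen : Algebra.adjoin k ((𝒜 0 : Set A) ∪ 𝒜 1) = ⊤) (hne : 𝒜 1 ≠ ⊥) {N n : ℕ} {R : Type}
    [Finite R]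
    {P : RootDatum R (Fin n → ℤ) (Fin n → ℤ)} [P.IsReduced] {b : P.Base}
    (G : Subgroup (GL (Fin N) k)) (D : RootGroupData P b G) (ρ : G →* (A ≃ₐ[k] A))
    (hρ : IsRational ρ) (hG : ∀ (g : G) (d : ℕ), ∀ a ∈ 𝒜 d, ρ g a ∈ 𝒜 d)
    (hc : Algebra.trdeg k ↥(invField (D.borel.map ρ) ⊓ projField 𝒜) ≤ 2) :
    ∃ _ : IsIntegral (Proj 𝒜), UniformizableAtFinitelyMany (projTo 𝒜) := by
  obtain ⟨f₀, hf₀, hf₀0⟩ := Submodule.exists_mem_ne_zero_of_ne_bot hne
  have hint : IsIntegral (Proj 𝒜) := isIntegral_proj 𝒜 hf₀ hf₀0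
  refine ⟨hint, ?_⟩
  have h2 : Algebra.EssFiniteType A (FractionRing A) :=
    Algebra.EssFiniteType.of_isLocalization _ (nonZeroDivisors A)
  have h3 : Algebra.EssFiniteType k (FractionRing A) :=
    Algebra.EssFiniteType.comp k A (FractionRing A)
  have hsep := isSeparated_projTo 𝒜
  have hlft := locallyOfFiniteType_projTo 𝒜
  obtain ⟨j, hj, hacts⟩ := acts_proj 𝒜 hgen hne ρ hG
  refine uniformizable_of_acts p k (trdeg_lt_aleph0 k (FractionRing A)) _ _ _ j hacts ?_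
  -- the product with the group of the homotheties
  obtain ⟨h, hh⟩ := exists_homotheties (k := k) 𝒜
  have hcomm : ∀ g t, Commute (ρ g) (h t) := fun g t => commute_homothety 𝒜 hh (ρ g) (hG g) t
  obtain ⟨D', hT, hφ, hB⟩ := exists_rg D
  have hR := prodAct_rat 𝒜 ρ h hcomm hh D' (rat_of D D' hT hφ ρ hρ)
  have hfin := prodAct_finite 𝒜 ρ h hcomm hh (finite_span G ρ hρ)
  intro m V hV
  obtain ⟨W, hW, hg⟩ := exists_inv (prodRG D') (prodAct ρ h hcomm) hR hfin V hV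
  have hc' : Algebra.trdeg k (invField ((prodRG D').B.map (prodAct ρ h hcomm))) ≤ (1 : ℕ) + 1 := by
    have h4 := invField_prod_le 𝒜 ρ h hcomm hh D'
    rw [hB] at h4
    have h5 : Algebra.trdeg k (invField ((prodRG D').B.map (prodAct ρ h hcomm))) ≤
        Algebra.trdeg k ↥(invField (D.borel.map ρ) ⊓ projField 𝒜) :=
      trdeg_le_of_injective (IntermediateField.inclusion h4)
        (IntermediateField.inclusion h4).injective
    exact (h5.trans hc).trans (le_of_eq (by norm_num))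
  refine ⟨W, fun i => (hW i).1, fun i => defLE_of_complexity (prodRG D') _ hR 1 hc' (W i) (hW i),
    fun F hF => ?_⟩
  obtain ⟨x, hx⟩ := hg F
  refine ⟨x.1, fun i z hz => ?_⟩
  rw [hx i z hz, onK_prodAct, onK_projField 𝒜 hh x.2 z ((hj z).1 (hF (Finset.mem_coe.2 hz)))]
  rfl

end Pool.Agent.MP_b525bf_ag_GU
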