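import Pool.Agent.Lib.MP_b525bf_ag_GU.PDF
import Pool.Agent.Lib.MP_b525bf_ag_SG.OnK

/-!
# The homotheties of a graded algebra
-/

set_option autoImplicit false

namespace Pool.Agent.MP_b525bf_ag_GU

open Pool.Agent.MP_b525bf_ag_SG Pool.Agent.MP_b525bf_ag_ES

variable {k A : Type} [Field k] [CommRing A] [Algebra k A]
  (𝒜 : ℕ → Submodule k A) [GradedAlgebra 𝒜]

private theorem exists_hom (t : k) :
    ∃ h : A →ₐ[k] A, ∀ (d : ℕ), ∀ a ∈ 𝒜 d, h a = t ^ d • a := by
  classical
  let F : ∀ i, 𝒜 i →ₗ[k] A := fun i => t ^ i • (𝒜 i).subtype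
  have hF : ∀ i (x : 𝒜 i), F i x = t ^ i • (x : A) := fun i x => rfl
  have hone : F 0 (GradedMonoid.GOne.one (A := fun i => ↥(𝒜 i))) = 1 := by
    rw [hF]
    have : ((GradedMonoid.GOne.one (A := fun i => ↥(𝒜 i)) : 𝒜 0) : A) = 1 := rfl
    rw [this, pow_zero, one_smul]
  have hmul : ∀ {i j} (ai : 𝒜 i) (aj : 𝒜 j),
      F (i + j) (GradedMonoid.GMul.mul (A := fun i => ↥(𝒜 i)) ai aj) = F i ai * F j aj := by
    intro i j ai aj
    rw [hF, hF, hF]
    have : ((GradedMonoid.GMul.mul (A := fun i => ↥(𝒜 i)) ai aj : 𝒜 (i + j)) : A) =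
      (ai : A) * aj := rfl
    rw [this, pow_add, smul_mul_smul_comm]
  refine ⟨(DirectSum.toAlgebra k (fun i => ↥(𝒜 i)) F hone hmul).comp
    (DirectSum.decomposeAlgEquiv 𝒜).toAlgHom, fun m a ha => ?_⟩
  have h1 : (DirectSum.decomposeAlgEquiv 𝒜).toAlgHom a =
      DirectSum.of (fun i => ↥(𝒜 i)) m ⟨a, ha⟩ := by
    change DirectSum.decompose 𝒜 a = _
    exact DirectSum.decompose_of_mem 𝒜 ha
  rw [AlgHom.comp_apply, h1]
  change DirectSum.toSemiring (fun i => (F i).toAddMonoidHom) hone hmul _ = _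
  exact (DirectSum.toSemiring_of _ _ _ _ _).trans (hF m ⟨a, ha⟩)

/-- Additive maps which agree on the homogeneous elements. -/
theorem eq_of_homogeneous {B : Type} [AddCommMonoid B] (f g : A →+ B)
    (h : ∀ (d : ℕ), ∀ a ∈ 𝒜 d, f a = g a) (a : A) : f a = g a := by
  classical
  rw [← DirectSum.sum_support_decompose 𝒜 a, map_sum, map_sum]
  exact Finset.sum_congr rfl fun i _ => h i _ (SetLike.coe_mem _)

/-- The homotheties. -/
theorem exists_homotheties :
    ∃ h : kˣ →* (A ≃ₐ[k] A), ∀ (t : kˣ) (d : ℕ), ∀ a ∈ 𝒜 d, h t a = (t : k) ^ d • a := by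
  choose H hH using exists_hom (k := k) 𝒜
  have hHmul : ∀ s t : k, ∀ a, H s (H t a) = H (s * t) a := by
    intro s t a
    refine eq_of_homogeneous 𝒜 ((H s : A →+ A).comp (H t : A →+ A)) (H (s * t) : A →+ A) ?_ a
    intro d a ha
    change H s (H t a) = H (s * t) a
    rw [hH t d a ha, map_smul, hH s d a ha, hH (s * t) d a ha, smul_smul, mul_pow, mul_comm]
  have hH1 : ∀ a, H 1 a = a := by
    intro a
    refine eq_of_homogeneous 𝒜 (H 1 : A →+ A) (AddMonoidHom.id A) ?_ a
    intro d a ha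
    change H 1 a = a
    rw [hH 1 d a ha, one_pow, one_smul]
  refine ⟨{ toFun := fun t => AlgEquiv.ofAlgHom (H t) (H (t⁻¹ : kˣ)) ?_ ?_
            map_one' := ?_
            map_mul' := ?_ }, fun t d a ha => hH t d a ha⟩
  · ext a
    change H t (H (t⁻¹ : kˣ) a) = a
    rw [hHmul, ← Units.val_mul, mul_inv_cancel, Units.val_one, hH1]
  · ext a
    change H (t⁻¹ : kˣ) (H t a) = a
    rw [hHmul, ← Units.val_mul, inv_mul_cancel, Units.val_one, hH1]
  · ext a
    exact hH1 a
  · intro s t
    ext a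
    exact (hHmul s t a).symm

theorem infinite_units (k : Type) [Field k] [Infinite k] : Infinite kˣ := by
  rw [(unitsEquivNeZero (G₀ := k)).infinite_iff]
  exact (Set.finite_singleton (0 : k)).infinite_compl.to_subtype

variable [IsDomain A]

theorem onK_projField {h : kˣ →* (A ≃ₐ[k] A)}
    (hh : ∀ (t : kˣ) (d : ℕ), ∀ a ∈ 𝒜 d, h t a = (t : k) ^ d • a) (t : kˣ) (z : FractionRing A)
    (hz : z ∈ projField 𝒜) : onK h t z = z := by
  obtain ⟨n, a, b, ha, hb, hb0, rfl⟩ := hz
  rw [map_div₀, onK_algebraMap, onK_algebraMap, hh t n a ha, hh t n b hb, Algebra.smul_def,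
    Algebra.smul_def, map_mul, map_mul]
  refine mul_div_mul_left _ _ ?_
  rw [← IsScalarTower.algebraMap_apply k A (FractionRing A)]
  exact (map_ne_zero _).2 (pow_ne_zero n t.ne_zero)

/-- The elements of the field of fractions fixed by the homotheties. -/
theorem mem_projField_of_fixed [Infinite k] {h : kˣ →* (A ≃ₐ[k] A)}
    (hh : ∀ (t : kˣ) (d : ℕ), ∀ a ∈ 𝒜 d, h t a = (t : k) ^ d • a) (z : FractionRing A)
    (hz : ∀ t, onK h t z = z) : z ∈ projField 𝒜 := by
  classical
  have hinj := IsFractionRing.injective A (FractionRing A)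
  obtain ⟨a, b, hb, rfl⟩ := IsFractionRing.div_surjective (A := A) z
  have hb0 : b ≠ 0 := nonZeroDivisors.ne_zero hb
  have hbK : algebraMap A (FractionRing A) b ≠ 0 := (map_ne_zero_iff _ hinj).2 hb0
  -- the identity for `t`
  have h1 : ∀ t : kˣ, h t a * b = a * h t b := by
    intro t
    have h2 := hz t
    rw [map_div₀, onK_algebraMap, onK_algebraMap, div_eq_div_iff
      ((map_ne_zero_iff _ hinj).2 ((map_ne_zero_iff _ (h t).injective).2 hb0)) hbK, ← map_mul,
      ← map_mul] at h2
    exact hinj h2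
  -- the components
  set S := (DirectSum.decompose 𝒜 a).support ∪ (DirectSum.decompose 𝒜 b).support with hS
  set c : ℕ → A → A := fun i x => (DirectSum.decompose 𝒜 x i : A) with hc
  have hsum : ∀ x ∈ ({a, b} : Set A), ∑ i ∈ S, c i x = x := by
    intro x hx
    have h3 : (DirectSum.decompose 𝒜 x).support ⊆ S := by
      rcases hx with rfl | hx
      · exact Finset.subset_union_left
      · rw [Set.mem_singleton_iff] at hx
        subst hx
        exact Finset.subset_union_right
    conv_rhs => rw [← DirectSum.sum_support_decompose 𝒜 x]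
    refine (Finset.sum_subset h3 fun i _ hi => ?_).symm
    rw [DFinsupp.notMem_support_iff] at hi
    rw [hc]
    change (DirectSum.decompose 𝒜 x i : A) = 0
    rw [hi]
    rfl
  have hta : ∀ x ∈ ({a, b} : Set A), ∀ t : kˣ, h t x = ∑ i ∈ S, (t : k) ^ i • c i x := by
    intro x hx t
    conv_lhs => rw [← hsum x hx, map_sum]
    exact Finset.sum_congr rfl fun i _ => hh t i _ (SetLike.coe_mem _)
  -- the polynomial
  let Q : Polynomial A := ∑ i ∈ S, Polynomial.monomial i (c i a * b - a * c i b)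
  have hQ : ∀ t : kˣ, Q.eval (algebraMap k A t) = 0 := by
    intro t
    have h4 := h1 t
    rw [hta a (by simp) t, hta b (by simp) t, Finset.sum_mul, Finset.mul_sum] at h4
    rw [Polynomial.eval_finsetSum]
    have h5 : ∀ i ∈ S, (Polynomial.monomial i (c i a * b - a * c i b)).eval (algebraMap k A t) =
        ((t : k) ^ i • c i a) * b - a * ((t : k) ^ i • c i b) := by
      intro i _
      rw [Polynomial.eval_monomial, Algebra.smul_def, Algebra.smul_def, map_pow]
      ring
    rw [Finset.sum_congr rfl h5, Finset.sum_sub_distrib, h4, sub_self]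
  have hQ0 : Q = 0 := by
    refine Polynomial.eq_zero_of_infinite_isRoot Q ?_
    have h6 : Set.Infinite (Set.range fun t : kˣ => algebraMap k A (t : k)) := by
      have h7 : Infinite kˣ := infinite_units k
      refine Set.infinite_range_of_injective fun s t hst => ?_
      exact Units.ext ((algebraMap k A).injective hst)
    refine h6.mono ?_
    rintro _ ⟨t, rfl⟩
    exact hQ t
  have hcoef : ∀ i ∈ S, c i a * b = a * c i b := by
    intro i hi
    have h8 := congrArg (fun q => Polynomial.coeff q i) hQ0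
    simp only [Q, Polynomial.finsetSum_coeff, Polynomial.coeff_monomial, Polynomial.coeff_zero] at h8
    rw [Finset.sum_ite_eq' S i (fun i => c i a * b - a * c i b), if_pos hi, sub_eq_zero] at h8
    exact h8
  obtain ⟨i, hi, hbi⟩ : ∃ i ∈ S, c i b ≠ 0 := by
    by_contra hcon
    push Not at hcon
    apply hb0
    rw [← hsum b (by simp)]
    exact Finset.sum_eq_zero hcon
  refine ⟨i, c i a, c i b, SetLike.coe_mem _, SetLike.coe_mem _, hbi, ?_⟩
  rw [div_eq_div_iff hbK ((map_ne_zero_iff _ hinj).2 hbi), ← map_mul, ← map_mul, ← hcoef i hi]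

end Pool.Agent.MP_b525bf_ag_GU
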