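import Pool.Agent.Lib.LU2G.Defs

/-!
# Uniformization at finitely many valuations: the definition
-/

open AlgebraicGeometry CategoryTheory

namespace Pool.Agent.MP_b525bf_ag_GU

open Pool.Agent.LU2G

/-- The integral scheme `X` over `k`, with structure morphism `f`, is uniformizable at finitely many
valuations: for all valuation rings `V_1, ..., V_m` of the function field of `X` that have centres on
`X` (the generic point extends to `c_i : Spec V_i ⟶ X`) there is a proper morphism `π : Y ⟶ X` from
an integral scheme, an isomorphism over every open subset at the points of which `X` is smooth, such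
that the `c_i` lift to `Y` and `Y` is smooth over `k` at the centre of each `V_i`. -/
def UniformizableAtFinitelyMany {k : Type} [Field k] {X : Scheme.{0}} [IsIntegral X]
    (f : X ⟶ Spec (CommRingCat.of k)) : Prop :=
  ∀ (m : ℕ) (V : Fin m → ValuationSubring X.functionField)
    (c : ∀ i, Spec (CommRingCat.of (V i)) ⟶ X),
    (∀ i, Spec.map (CommRingCat.ofHom (algebraMap (V i) X.functionField)) ≫ c i =
      X.fromSpecStalk (genericPoint X)) →
    ∃ (Y : Scheme.{0}) (π : Y ⟶ X), IsIntegral Y ∧ IsProper π ∧
      (∀ U : X.Opens, (∀ x ∈ U, IsSmoothAt f x) → IsIso (π ∣_ U)) ∧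
      ∀ i, ∃ c' : Spec (CommRingCat.of (V i)) ⟶ Y, c' ≫ π = c i ∧
        IsSmoothAt (π ≫ f) (c' (IsLocalRing.closedPoint (V i)))

end Pool.Agent.MP_b525bf_ag_GU
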