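import Pool.Agent.Lib.MP_b525bf_ag_GU.IRR
import Pool.Agent.Lib.MP_b525bf_ag_E.StmtDefs

/-!
# The invariant valuation of a valuation

For a valuation `v` on `A` let `w a` be the greatest `v (ρ g a)`: it is an invariant valuation, and
for finitely many elements there is a `g` with `v (ρ g a) = w a`.
-/

set_option autoImplicit false

namespace Pool.Agent.MP_b525bf_ag_GU

open Pool.Agent.MP_b525bf_ag_R (up lo dg chi IsRat)
open Pool.Agent.MP_b525bf_ag_SG
open Pool.Agent.MP_b525bf_ag_E
open scoped MatrixGroups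

section Val

variable {k ι R G : Type} [Field k] [Infinite k] [Fintype ι] [Group G] (D : RG k ι R G)
  {A : Type} [CommRing A] [Algebra k A] (ρ : G →* (A ≃ₐ[k] A))

omit [Infinite k] in
/-- The greatest value on an orbit. -/
private theorem exists_max {Γ : Type} [LinearOrderedCommGroupWithZero Γ] (v : Valuation A Γ)
    (hk : ∀ c : k, v (algebraMap k A c) ≤ 1) (a : A)
    (hfin : Module.Finite k (Submodule.span k (Set.range fun g => ρ g a))) :
    ∃ g₀, ∀ g, v (ρ g a) ≤ v (ρ g₀ a) := by
  classical
  have hfg : (Submodule.span k (Set.range fun g => ρ g a)).FG := Module.Finite.iff_fg.1 hfin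
  obtain ⟨T, hT, hspan⟩ := Submodule.fg_span_iff_fg_span_finset_subset _ |>.1 hfg
  obtain ⟨b, hb, hmax⟩ := Finset.exists_max_image (insert (ρ 1 a) T) v ⟨_, Finset.mem_insert_self _ _⟩
  have hb' : b ∈ Set.range fun g => ρ g a := by
    rcases Finset.mem_insert.1 hb with rfl | hb
    · exact ⟨1, rfl⟩
    · exact hT hb
  obtain ⟨g₀, rfl⟩ := hb'
  refine ⟨g₀, fun g => ?_⟩
  have h1 : ρ g a ∈ Submodule.span k (T : Set A) := by
    rw [← hspan]
    exact Submodule.subset_span ⟨g, rfl⟩
  generalize ρ g a = x at h1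
  induction h1 using Submodule.span_induction with
  | mem x hx => exact hmax x (Finset.mem_insert_of_mem hx)
  | zero => rw [map_zero]; exact zero_le
  | add x y _ _ hx hy => exact (v.map_add _ _).trans (max_le hx hy)
  | smul c x _ hx =>
    rw [Algebra.smul_def, map_mul]
    exact (mul_le_mul' (hk c) hx).trans (one_mul _).le

/-- `w` gives the greatest values on the orbits. -/
private structure IsMax {Γ : Type} [LinearOrderedCommGroupWithZero Γ] (v : Valuation A Γ)
    (w : A → Γ) : Prop where
  att : ∀ a, ∃ g, v (ρ g a) = w a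
  le : ∀ g a, v (ρ g a) ≤ w a

omit [Infinite k] [Fintype ι] in
private theorem IsMax.inv {Γ : Type} [LinearOrderedCommGroupWithZero Γ] {v : Valuation A Γ}
    {w : A → Γ} (h : IsMax ρ v w) (g : G) (a : A) : w (ρ g a) = w a := by
  apply le_antisymm
  · obtain ⟨g', hg'⟩ := h.att (ρ g a)
    rw [← hg', ← AlgEquiv.mul_apply, ← map_mul]
    exact h.le _ _
  · obtain ⟨g', hg'⟩ := h.att a
    have h1 := h.le (g' * g⁻¹) (ρ g a)
    rw [← AlgEquiv.mul_apply, ← map_mul, inv_mul_cancel_right, hg'] at h1
    exact h1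

/-- Simultaneously for finitely many elements and finitely many valuations. -/
private theorem exists_sim (hρ : D.Rat ρ) {m : ℕ} {Γ : Fin m → Type}
    [∀ i, LinearOrderedCommGroupWithZero (Γ i)] (v : ∀ i, Valuation A (Γ i))
    (hk : ∀ i, ∀ c : k, v i (algebraMap k A c) ≤ 1) (w : ∀ i, A → Γ i)
    (hw : ∀ i, IsMax ρ (v i) (w i)) {J : Type} [Finite J] (a : J → A) :
    ∃ g, ∀ i j, v i (ρ g (a j)) = w i (a j) := by
  have h := exists_generic_finite D ρ hρ (J := {q : Fin m × J // w q.1 (a q.2) ≠ 0})
    (fun q => a q.1.2) (fun q =>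
      { carrier := {b | v q.1.1 b < w q.1.1 (a q.1.2)}
        add_mem' := by
          intro b b' hb hb'
          exact ((v q.1.1).map_add _ _).trans_lt (max_lt hb hb')
        zero_mem' := by
          change v q.1.1 0 < _
          rw [map_zero]
          exact zero_lt_iff.2 q.2
        smul_mem' := by
          intro c b hb
          change v q.1.1 (c • b) < _
          rw [Algebra.smul_def, map_mul]
          exact ((mul_le_mul' (hk q.1.1 c) le_rfl).trans (one_mul _).le).trans_lt hb }) (by
      rintro ⟨⟨i, j⟩, hq⟩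
      obtain ⟨g, hg⟩ := (hw i).att (a j)
      refine ⟨g, fun h1 => ?_⟩
      have h2 : v i (ρ g (a j)) < w i (a j) := h1
      exact absurd hg h2.ne)
  obtain ⟨g, hg⟩ := h
  refine ⟨g, fun i j => ?_⟩
  refine le_antisymm ((hw i).le _ _) ?_
  by_cases h0 : w i (a j) = 0
  · rw [h0]
    exact zero_le
  · exact not_lt.1 fun h1 => hg ⟨⟨i, j⟩, h0⟩ h1

/-- The greatest values on the orbits are the values of a valuation. -/
private theorem exists_valuation (hρ : D.Rat ρ)
    (hfin : ∀ a, Module.Finite k (Submodule.span k (Set.range fun g => ρ g a)))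
    {Γ : Type} [LinearOrderedCommGroupWithZero Γ] (v : Valuation A Γ)
    (hk : ∀ c : k, v (algebraMap k A c) ≤ 1) : ∃ w : Valuation A Γ, IsMax ρ v w := by
  choose g₀ hg₀ using fun a => exists_max ρ v hk a (hfin a)
  have hw : IsMax ρ v fun a => v (ρ (g₀ a) a) := ⟨fun a => ⟨g₀ a, rfl⟩, fun g a => hg₀ a g⟩
  have hsim : ∀ {J : Type} [Finite J] (a : J → A), ∃ g, ∀ j, v (ρ g (a j)) =
      v (ρ (g₀ (a j)) (a j)) := by
    intro J _ a
    obtain ⟨g, hg⟩ := exists_sim D ρ hρ (m := 1) (Γ := fun _ => Γ) (fun _ => v) (fun _ => hk)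
      (fun _ a => v (ρ (g₀ a) a)) (fun _ => hw) a
    exact ⟨g, fun j => hg 0 j⟩
  refine ⟨{ toFun := fun a => v (ρ (g₀ a) a)
            map_zero' := by rw [map_zero, map_zero]
            map_one' := by rw [map_one, map_one]
            map_mul' := by
              intro a b
              obtain ⟨g, hg⟩ := hsim ![a, b, a * b]
              have h0 := hg 0
              have h1 := hg 1
              have h2 := hg 2
              simp only [Matrix.cons_val_zero, Matrix.cons_val_one, Matrix.cons_val] at h0 h1 h2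
              rw [← h0, ← h1, ← h2, map_mul, map_mul]
            map_add_le_max' := by
              intro a b
              obtain ⟨g, hg⟩ := hsim ![a, b, a + b]
              have h0 := hg 0
              have h1 := hg 1
              have h2 := hg 2
              simp only [Matrix.cons_val_zero, Matrix.cons_val_one, Matrix.cons_val] at h0 h1 h2
              rw [← h0, ← h1, ← h2, map_add]
              exact v.map_add _ _ }, hw.att, hw.le⟩

end Val

/-- For finitely many valuation rings `V i` there are invariant valuation rings `W i` such that for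
finitely many elements `f` there is a `g` such that `f` is in `W i` if and only if `g f` is in `V i`. -/
theorem exists_inv {k ι R G : Type} [Field k] [Infinite k] [Fintype ι] [Group G] (D : RG k ι R G)
    {A : Type} [CommRing A] [IsDomain A] [Algebra k A] (ρ : G →* (A ≃ₐ[k] A)) (hρ : D.Rat ρ)
    (hfin : ∀ a, Module.Finite k (Submodule.span k (Set.range fun g => ρ g a))) {m : ℕ}
    (V : Fin m → ValuationSubring (FractionRing A))
    (hV : ∀ i a, algebraMap A (FractionRing A) a ∈ V i) :
    ∃ W : Fin m → ValuationSubring (FractionRing A), (∀ i, IsInvariant ρ.range (W i)) ∧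
      ∀ F : Finset (FractionRing A), ∃ g : G, ∀ i, ∀ f ∈ F, (f ∈ W i ↔ onK ρ g f ∈ V i) := by
  classical
  have hinj := IsFractionRing.injective A (FractionRing A)
  set v : ∀ i, Valuation A (V i).ValueGroup := fun i =>
    (V i).valuation.comap (algebraMap A (FractionRing A)) with hv
  have hv1 : ∀ i a, v i a ≤ 1 := fun i a => ((V i).valuation_le_one_iff _).2 (hV i a)
  have hvk : ∀ i, ∀ c : k, v i (algebraMap k A c) ≤ 1 := fun i c => hv1 i _
  have hv0 : ∀ i a, a ≠ 0 → v i a ≠ 0 := by
    intro i a ha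
    exact (Valuation.ne_zero_iff (V i).valuation).2 ((map_ne_zero_iff _ hinj).2 ha)
  choose w hw using fun i => exists_valuation D ρ hρ hfin (v i) (hvk i)
  have hw0 : ∀ i a, a ≠ 0 → w i a ≠ 0 := by
    intro i a ha h0
    obtain ⟨g, hg⟩ := (hw i).att a
    rw [h0] at hg
    exact hv0 i _ (fun h => ha ((map_eq_zero_iff _ (ρ g).injective).1 h)) hg
  have hS : ∀ i, nonZeroDivisors A ≤ (w i).supp.primeCompl := by
    intro i a ha h
    have ha0 : a ≠ 0 := nonZeroDivisors.ne_zero ha
    exact hw0 i a ha0 ((Valuation.mem_supp_iff (w i) a).1 h)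
  set w' : ∀ i, Valuation (FractionRing A) (V i).ValueGroup := fun i =>
    (w i).extendToLocalization (hS i) (FractionRing A) with hw'
  have hww : ∀ i a, w' i (algebraMap A (FractionRing A) a) = w i a := fun i a =>
    Valuation.extendToLocalization_apply_map_apply _ _ _ _
  refine ⟨fun i => (w' i).valuationSubring, fun i => ⟨fun a => ?_, ?_⟩, fun F => ?_⟩
  · rw [Valuation.mem_valuationSubring_iff, hww]
    obtain ⟨g, hg⟩ := (hw i).att a
    rw [← hg]
    exact hv1 i _
  · rintro _ ⟨g, rfl⟩ a
    rw [← (Valuation.isEquiv_valuation_valuationSubring (w' i)).eq_iff, hww, hww]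
    exact (hw i).inv ρ g a
  · have hfr : ∀ f : FractionRing A, ∃ q : A × A, q.2 ≠ 0 ∧
        f = algebraMap A (FractionRing A) q.1 / algebraMap A (FractionRing A) q.2 := by
      intro f
      obtain ⟨a, b, hb, hab⟩ := IsFractionRing.div_surjective (A := A) f
      exact ⟨(a, b), nonZeroDivisors.ne_zero hb, hab.symm⟩
    choose q hq0 hq using hfr
    obtain ⟨g, hg⟩ := exists_sim D ρ hρ v hvk (fun i => w i) hw
      (J := F ⊕ F) (Sum.elim (fun f => (q f.1).1) fun f => (q f.1).2)
    refine ⟨g, fun i f hf => ?_⟩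
    have h1 := hg i (Sum.inl ⟨f, hf⟩)
    have h2 := hg i (Sum.inr ⟨f, hf⟩)
    simp only [Sum.elim_inl, Sum.elim_inr] at h1 h2
    have hb : (q f).2 ≠ 0 := hq0 f
    have hb' : ρ g (q f).2 ≠ 0 := fun h => hb ((map_eq_zero_iff _ (ρ g).injective).1 h)
    rw [Valuation.mem_valuationSubring_iff, ← ValuationSubring.valuation_le_one_iff]
    conv_lhs => rw [hq f]
    conv_rhs => rw [hq f]
    rw [map_div₀, map_div₀, map_div₀, onK_algebraMap, onK_algebraMap, hww, hww,
      div_le_one₀ (zero_lt_iff.2 (hw0 i _ hb)), ← h1, ← h2]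
    have h3 : 0 < (V i).valuation (algebraMap A (FractionRing A) (ρ g (q f).2)) :=
      zero_lt_iff.2 (hv0 i _ hb')
    rw [div_le_one₀ h3]
    rfl

end Pool.Agent.MP_b525bf_ag_GU
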